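import Pool.Agent.H14.SparseK

/-! Gap between the exponents of k-SAT and (2k-2)-SAT, part K1: this file joins the modules
Base MRK MRL STG PHA PHB HSA HSB ITM RDX of Pool/Agent/H46/SK to save build time. -/

section S_Base

/-!
# Definitions for the gap between the exponents of `k`-SAT and `(2k-2)`-SAT
-/

set_option autoImplicit false

namespace Pool.Agent.H46.SK

open Finset Pool.Agent.H14.ETH

/-! ### Stages -/

/-- The parameters of one stage of the sparsification: a weight system whose unit clauses have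
weight `3 s / 4` and whose other weights cost at most `γ` per variable. -/
structure Stg (k : ℕ) (s γ : ℝ) where
  W : WS k
  top : W.a k = 0
  a1 : W.a 1 = 3 * s / 4
  η : ℝ
  κ : ℝ
  η_pos : 0 < η
  η_le_κ : η ≤ κ
  charge1 : ∀ p, 1 ≤ p → p < k → η ≤ W.net p ∧ W.net p ≤ κ
  charge2 : ∀ p, 1 ≤ p → p < k → η ≤ W.th p * W.net p ∧ W.th p * W.net p ≤ κ
  small : ∑ j ∈ Finset.Ico 2 k, W.a j * ((2 * W.th (j - 1) : ℕ) : ℝ) ≤ γ

/-- Clauses per variable at the end of a stage. -/
def Lam {k : ℕ} (W : WS k) : ℕ := 1 + ∑ c ∈ Finset.Ico 2 (k + 1), W.th (c - 1)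

/-- The invariant of a stage: `𝒞` is the family, `𝒩` the subfamily of marked clauses. -/
structure MInv {k : ℕ} (W : WS k) (n : ℕ) (𝒞 𝒩 : Fam) : Prop where
  ov : Over n 𝒞
  anti : Anti 𝒞
  size : ∀ C ∈ 𝒞, 1 ≤ C.card ∧ C.card ≤ k
  sub : 𝒩 ⊆ 𝒞
  units : ∀ C ∈ 𝒞, C.card = 1 → C ∈ 𝒩
  wi : W.Inv n 𝒩

/-- `𝒟` refines `𝒞`: every clause of `𝒞` contains one of `𝒟`, and every clause of `𝒟` is a clause
of `𝒞` or has less than `k` literals. -/
def Ref (k : ℕ) (𝒞 𝒟 : Fam) : Prop :=
  (∀ C ∈ 𝒞, ∃ D ∈ 𝒟, D ⊆ C) ∧ (∀ D ∈ 𝒟, D ∈ 𝒞 ∨ D.card < k)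

/-! ### Critical clauses -/

/-- The literal of `x` is the only true literal of `D`. -/
def Crit (v : ℕ → Bool) (x : ℕ) (D : Finset Lit) : Prop :=
  D.filter (fun l => v l.1 = l.2) = {(x, v x)}

open Classical in
/-- The variables that have a new critical clause, of size at least two. -/
noncomputable def critNew (v : ℕ → Bool) (n : ℕ) (𝒞 𝒟 : Fam) : Finset ℕ :=
  (Finset.range n).filter (fun x => ∃ D ∈ 𝒟, D ∉ 𝒞 ∧ 2 ≤ D.card ∧ Crit v x D)

/-- The variables whose true literal is a unit clause. -/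
def unitT (v : ℕ → Bool) (n : ℕ) (𝒟 : Fam) : Finset ℕ :=
  (Finset.range n).filter (fun x => ({(x, v x)} : Finset Lit) ∈ 𝒟)

/-! ### The choice of the items -/

/-- The parity of the bits of `x` in the mask `b`. -/
def chi : List Bool → ℕ → Bool
  | [], _ => false
  | c :: b, x => xor (c && decide (x % 2 = 1)) (chi b (x / 2))

/-- A constant plus a parity. -/
def par : List Bool → ℕ → Bool
  | [], _ => false
  | c :: b, x => xor c (chi b x)

/-- `t` successive selections, with masks of length `m` (constant included). -/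
def chunkSel (m : ℕ) : ℕ → List Bool → List ℕ → List ℕ
  | 0, _, X => X
  | t + 1, b, X => chunkSel m t (b.drop m) (X.filter (fun x => par (b.take m) x))

/-- The items: the selected variables which are not in unit clauses. -/
def itemsL (n t : ℕ) (b : List Bool) (L : LFam) : List ℕ :=
  (chunkSel (Nat.size n + 1) t b (List.range n)).filter (fun x => !(hasVar x (unitsL L)))

/-! ### The reduction at the leaves -/

/-- Remove all items from the clauses that contain at least two literals of items. -/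
def trimL (G : List ℕ) (K : LFam) : LFam :=
  K.map (fun C => bif decide (2 ≤ (C.filter (fun l => memN l.1 G)).length)
    then C.filter (fun l => !(memN l.1 G)) else C)

/-- The eliminated variables. -/
def goneX (G : List ℕ) (L : LFam) : List ℕ := G ++ (unitsL L).map (fun l => l.1)

/-- The reduced formula: units are assigned, clauses with two items are trimmed, the items are
eliminated. -/
def reduceX (G : List ℕ) (n : ℕ) (L : LFam) : ℕ × LFam :=
  (rankL (goneX G L) n, renL (goneX G L) (dedupF ((elimL G (trimL G (coreL L))).map dedupC)))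

/-! ### Marked lists -/

/-- Remove the clauses subsumed by `Q`. -/
def cutL (Q L : LFam) : LFam := L.filter (fun C => !(Q.any (fun P => subl P C)))

/-- Search for sunflowers. -/
def hitsM (k : ℕ) (th : ℕ → ℕ) (O N : LFam) : List (ℕ × List Lit) :=
  hitsAll th (rulesList k) (O ++ N)

/-- The first branch. -/
def stepMA (k : ℕ) (th : ℕ → ℕ) (O N : LFam) : LFam × LFam :=
  match hitsM k th O N with
  | [] => (O, N)
  | x :: _ => (cutL [x.2] O, addL [x.2] N)

/-- The second branch. -/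
def stepMB (k : ℕ) (th : ℕ → ℕ) (O N : LFam) : LFam × LFam :=
  match hitsM k th O N with
  | [] => (O, N)
  | x :: _ => (cutL (petalsL x.1 x.2 (O ++ N)) O, addL (petalsL x.1 x.2 (O ++ N)) N)

/-- The clauses that are not units. -/
def nonuL (L : LFam) : LFam := L.filter (fun C => !(decide (C.length = 1)))

/-- The unit clauses. -/
def unitL (L : LFam) : LFam := L.filter (fun C => decide (C.length = 1))

/-- The invariant of the marked lists. -/
structure GoodM {k : ℕ} (W : WS k) (n : ℕ) (O N : LFam) : Prop where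
  linv : LInv (O ++ N)
  inv : MInv W n (toF (O ++ N)) (toF N)
  nt : NT (toF (O ++ N))

/-! ### Acceptance -/

/-- The tree below `N` has an accepting leaf. -/
inductive Acc {Node : Type} (isLeaf : Node → Bool) (childA childB : Node → Node)
    (sat : Node → Prop) : Node → Prop
  | leaf {N : Node} : isLeaf N = true → sat N → Acc isLeaf childA childB sat N
  | left {N : Node} : isLeaf N = false → Acc isLeaf childA childB sat (childA N) →
      Acc isLeaf childA childB sat N
  | right {N : Node} : isLeaf N = false → Acc isLeaf childA childB sat (childB N) →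
      Acc isLeaf childA childB sat N

end Pool.Agent.H46.SK

end S_Base

section S_MRK

/-!
# Module MRK: the steps of a stage on families with marks

`𝒞` is the family, `𝒩 ⊆ 𝒞` the marked subfamily (all unit clauses are marked).  Everything is close
to `Pool/Agent/H14/WS.lean` (`WS.stepA`, `WS.stepB`, `WS.wgt_step`, `WS.Inv.add`, `WS.num_le`,
`WS.num_le_of_noHit`) and `Pool/Agent/H14/Fam.lean`.

* `stepA`: `W.wgt_step` and `WS.Inv.add` are applied to `𝒩` (whose invariant is `h.wi`), with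
  `hnew` for `𝒩` from `heart_new` for `𝒞` and `𝒩 ⊆ 𝒞`; the degree invariant of `𝒩` is
  `DegInv.stepA` for `𝒩`, as `NoHit` passes from `𝒞` to the subfamily `𝒩`.
* `stepB`: the same; the new degree invariant `DegInv W.th k (addAll (petals 𝒞 c H) 𝒩)` is proved
  exactly as `DegInv.stepB` (there `𝒩 = 𝒞`): the petals containing `G` inject into the clauses of
  size `c` of `𝒞` containing `H ∪ G` (`dg_petals_le`), fewer than `th (i - |G|)`.
* `Ref`: `addAll 𝒬 𝒞` refines `𝒞` if every element of `𝒬` has less than `k` elements: a clause of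
  `𝒞` is either kept or contains an element of `𝒬`.
* `restart`: take the unit clauses as the marked clauses; the degree invariant is empty for
  clauses of size one (`G.card < i` and `1 ≤ G.card` force `2 ≤ i`, and there are no clauses of
  size `i ≥ 2` in `𝒩`).
* `wgt_le`: `wgt_eq_sum` for `𝒩`, `num 𝒩 0 = 0`, `num 𝒩 1 = num 𝒞 1` (by `units` and `sub`),
  `W.num_le` for `2 ≤ i < k`, `a k = 0`.
* `card_le`: `𝒞.card = ∑_(i ≤ k) num 𝒞 i` (`wgt_eq_sum` with weights one), `num 𝒞 0 = 0`,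
  `num 𝒞 1 ≤ n` (`num_one_le`), `num 𝒞 c ≤ th (c - 1) n` for `2 ≤ c ≤ k` (as in
  `WS.num_le_of_noHit`, directly from `num_le_of_dg`).
-/

set_option autoImplicit false

namespace Pool.Agent.H46.SK

open Finset Pool.Agent.H14.ETH

theorem Ref.refl (k : ℕ) (𝒞 : Fam) : Ref k 𝒞 𝒞 :=
  ⟨fun C hC => ⟨C, hC, Finset.Subset.refl _⟩, fun _ hD => Or.inl hD⟩

theorem Ref.trans {k : ℕ} {𝒞 𝒟 ℰ : Fam} (h : Ref k 𝒞 𝒟) (h' : Ref k 𝒟 ℰ) : Ref k 𝒞 ℰ := by
  constructor
  · intro C hC
    obtain ⟨D, hD, hDC⟩ := h.1 C hC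
    obtain ⟨E, hE, hED⟩ := h'.1 D hD
    exact ⟨E, hE, hED.trans hDC⟩
  · intro E hE
    rcases h'.2 E hE with h1 | h1
    · exact h.2 E h1
    · exact Or.inr h1

theorem mrk_dg_mono {𝒞 𝒩 : Fam} (h : 𝒩 ⊆ 𝒞) (i : ℕ) (G : Finset Lit) : dg 𝒩 i G ≤ dg 𝒞 i G := by
  unfold dg
  refine Finset.card_le_card fun C hC => ?_
  rw [mem_sups] at hC ⊢
  exact ⟨h hC.1, hC.2⟩

theorem mrk_noHit {th : ℕ → ℕ} {c p : ℕ} {𝒞 𝒩 : Fam} (h : 𝒩 ⊆ 𝒞) (hn : NoHit th c p 𝒞) :
    NoHit th c p 𝒩 := fun G hG => (mrk_dg_mono h c G).trans_lt (hn G hG)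

theorem mrk_ref {k q : ℕ} {𝒞 𝒬 : Fam} (hqk : q < k) (hQ : ∀ X ∈ 𝒬, X.card = q) :
    Ref k 𝒞 (addAll 𝒬 𝒞) := by
  constructor
  · intro C hC
    by_cases hP : ∃ P ∈ 𝒬, P ⊆ C
    · obtain ⟨P, hP, hPC⟩ := hP
      exact ⟨P, mem_addAll.2 (Or.inl hP), hPC⟩
    · push Not at hP
      exact ⟨C, mem_addAll.2 (Or.inr ⟨hC, hP⟩), Finset.Subset.refl _⟩
  · intro D hD
    rcases mem_addAll.1 hD with h1 | h1
    · right
      rw [hQ D h1]
      exact hqk
    · exact Or.inl h1.1

variable {k : ℕ} {W : WS k} {n : ℕ} {𝒞 𝒩 : Fam}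

theorem mrk_add (h : MInv W n 𝒞 𝒩) {𝒬 : Fam} {q : ℕ} (hq1 : 1 ≤ q) (hqk : q < k)
    (hQ : ∀ X ∈ 𝒬, X.card = q) (hnew : ∀ X ∈ 𝒬, ∀ C ∈ 𝒞, ¬ C ⊆ X) (hQa : Anti 𝒬)
    (hQo : Over n 𝒬) (hdeg : DegInv W.th k (addAll 𝒬 𝒩)) :
    MInv W n (addAll 𝒬 𝒞) (addAll 𝒬 𝒩) where
  ov := by
    intro C hC
    rcases mem_addAll.1 hC with h1 | h1
    · exact hQo C h1
    · exact h.ov C h1.1
  anti := h.anti.addAll hQa hnew
  size := by
    intro C hC
    rcases mem_addAll.1 hC with h1 | h1
    · rw [hQ C h1]; omega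
    · exact h.size C h1.1
  sub := by
    intro C hC
    rw [mem_addAll] at hC ⊢
    rcases hC with h1 | h1
    · exact Or.inl h1
    · exact Or.inr ⟨h.sub h1.1, h1.2⟩
  units := by
    intro C hC h1
    rw [mem_addAll] at hC ⊢
    rcases hC with h2 | h2
    · exact Or.inl h2
    · exact Or.inr ⟨h.units C h2.1 h1, h2.2⟩
  wi := WS.Inv.add W h.wi hq1 hqk hQ (fun X hX C hC => hnew X hX C (h.sub hC)) hQa hQo hdeg

theorem MInv.stepA (h : MInv W n 𝒞 𝒩) {c p : ℕ} {H : Finset Lit} (hit : W.Hit 𝒞 c p H) :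
    MInv W n (addAll {H} 𝒞) (addAll {H} 𝒩) ∧
      wgt W.a 𝒩 + W.net (c - p) ≤ wgt W.a (addAll {H} 𝒩) ∧ Ref k 𝒞 (addAll {H} 𝒞) := by
  have h1 := hit.hp
  have h2 := hit.hpc
  have h3 := hit.hck
  have hd : 0 < dg 𝒞 c H := lt_of_lt_of_le (W.one_le_th p) hit.le
  have hnew : ∀ X ∈ ({H} : Fam), ∀ C ∈ 𝒞, ¬ C ⊆ X := by
    intro X hX
    rw [mem_singleton] at hX
    subst hX
    exact heart_new h.anti (by rw [hit.card]; omega) hd
  have hQ : ∀ X ∈ ({H} : Fam), X.card = c - p := by
    intro X hX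
    rw [mem_singleton] at hX
    rw [hX, hit.card]
  refine ⟨mrk_add h (q := c - p) (by omega) (by omega) hQ hnew (anti_singleton H) ?_ ?_, ?_,
    mrk_ref (q := c - p) (by omega) hQ⟩
  · intro X hX
    rw [mem_singleton] at hX
    subst hX
    obtain ⟨C, hC, _, hXC⟩ := hit.sub_mem
    exact hXC.trans (h.ov C hC)
  · exact h.wi.deg.stepA W.one_le_th h2 h1 hit.card
      (fun c' p' a1 a2 a3 => mrk_noHit h.sub (hit.no1 c' p' a1 a2 a3))
  · have := W.wgt_step h.wi (p := c - p) (by omega) (by omega) hQ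
      (fun X hX C hC => hnew X hX C (h.sub hC))
    simpa using this

theorem mrk_degB {th : ℕ → ℕ} {k c p : ℕ} {𝒞 𝒩 : Fam} {H : Finset Lit} (hsub : 𝒩 ⊆ 𝒞)
    (h : DegInv th k 𝒩) (hpc : p < c) (hH : H.card = c - p)
    (hno : ∀ c' p', 1 ≤ p' → p' < c' → c' < c → NoHit th c' p' 𝒞)
    (hno2 : ∀ p', 1 ≤ p' → p' < p → NoHit th c p' 𝒞) :
    DegInv th k (addAll (petals 𝒞 c H) 𝒩) := by
  intro i hi G hG1 hGi
  have h1 := dg_union_le (petals 𝒞 c H) 𝒩 i G
  by_cases hip : i = p
  · have h3 := hno i (i - G.card) (by omega) (by omega) (by omega) G (by omega)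
    have h3' := mrk_dg_mono hsub i G
    by_cases hd : Disjoint H G
    · have h4 := dg_petals_le 𝒞 c H i G
      have h5 := hno2 (i - G.card) (by omega) (by omega) (H ∪ G) (by
        rw [Finset.card_union_of_disjoint hd]; omega)
      omega
    · have h4 := dg_petals_eq_zero (𝒞 := 𝒞) (c := c) i hd
      omega
  · have h2 : dg (petals 𝒞 c H) i G = 0 := dg_eq_zero (p := p) (fun P hP => by
      rw [card_of_mem_petals hP, hH]; omega) hip G
    have := h i hi G hG1 hGi
    omega

theorem MInv.stepB (h : MInv W n 𝒞 𝒩) {c p : ℕ} {H : Finset Lit} (hit : W.Hit 𝒞 c p H) :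
    MInv W n (addAll (petals 𝒞 c H) 𝒞) (addAll (petals 𝒞 c H) 𝒩) ∧
      wgt W.a 𝒩 + W.th p * W.net p ≤ wgt W.a (addAll (petals 𝒞 c H) 𝒩) ∧
      Ref k 𝒞 (addAll (petals 𝒞 c H) 𝒞) := by
  have h1 := hit.hp
  have h2 := hit.hpc
  have h3 := hit.hck
  have h4 := hit.card
  have hnew : ∀ X ∈ petals 𝒞 c H, ∀ C ∈ 𝒞, ¬ C ⊆ X := petal_new h.anti (by omega)
  have hQ : ∀ X ∈ petals 𝒞 c H, X.card = p := by
    intro X hX
    rw [card_of_mem_petals hX, hit.card]; omega
  refine ⟨mrk_add h h1 (by omega) hQ hnew (anti_petals h.anti) ?_ ?_, ?_,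
    mrk_ref (q := p) (by omega) hQ⟩
  · intro X hX
    obtain ⟨C, hC, _, _, rfl⟩ := mem_petals.1 hX
    exact sdiff_subset.trans (h.ov C hC)
  · exact mrk_degB h.sub h.wi.deg h2 hit.card hit.no1 hit.no2
  · have h5 := W.wgt_step h.wi h1 (by omega) hQ (fun X hX C hC => hnew X hX C (h.sub hC))
    rw [card_petals] at h5
    have h6 : (W.th p : ℝ) ≤ dg 𝒞 c H := by exact_mod_cast hit.le
    have h7 := mul_le_mul_of_nonneg_right h6 (W.net_pos p h1 (by omega)).le
    linarith

theorem MInv.restart (hk : 2 ≤ k) (hov : Over n 𝒞) (ha : Anti 𝒞)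
    (hs : ∀ C ∈ 𝒞, 1 ≤ C.card ∧ C.card ≤ k) (htop : W.a k = 0) :
    MInv W n 𝒞 (𝒞.filter (fun C => C.card = 1)) where
  ov := hov
  anti := ha
  size := hs
  sub := Finset.filter_subset _ _
  units := fun C hC h1 => mem_filter.2 ⟨hC, h1⟩
  wi :=
    { ov := fun C hC => hov C (mem_filter.1 hC).1
      anti := fun C hC D hD hCD => ha C (mem_filter.1 hC).1 D (mem_filter.1 hD).1 hCD
      size := fun C hC => by
        have := (mem_filter.1 hC).2
        omega
      deg := by
        intro i hi G hG1 hGi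
        have : dg (𝒞.filter (fun C => C.card = 1)) i G = 0 :=
          dg_eq_zero (p := 1) (fun P hP => (mem_filter.1 hP).2) (by omega) G
        omega
      degk := Or.inl htop }

theorem mrk_num_mono {𝒞 𝒩 : Fam} (h : 𝒩 ⊆ 𝒞) (i : ℕ) : num 𝒩 i ≤ num 𝒞 i := by
  unfold num
  exact Finset.card_le_card (Finset.filter_subset_filter _ h)

theorem mrk_num_zero {k : ℕ} {𝒞 : Fam} (hs : ∀ C ∈ 𝒞, 1 ≤ C.card ∧ C.card ≤ k) :
    num 𝒞 0 = 0 := by
  unfold num
  rw [Finset.card_eq_zero, Finset.filter_eq_empty_iff]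
  intro C hC h0
  have := (hs C hC).1
  omega

theorem MInv.wgt_le {s γ : ℝ} (S : Stg k s γ) (h : MInv S.W n 𝒞 𝒩) :
    wgt S.W.a 𝒩 ≤ 3 * s / 4 * num 𝒞 1 + γ * n := by
  rw [wgt_eq_sum (k := k) (fun C hC => (h.wi.size C hC).2)]
  have hb : ∀ i ∈ Finset.range (k + 1), S.W.a i * (num 𝒩 i : ℝ) ≤
      (if i = 1 then S.W.a 1 * (num 𝒞 1 : ℝ) else 0) +
      (if 2 ≤ i ∧ i < k then S.W.a i * ((2 * S.W.th (i - 1) : ℕ) : ℝ) * n else 0) := by
    intro i hi
    rw [Finset.mem_range] at hi
    rcases Nat.lt_or_ge i 2 with h2 | h2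
    · rw [if_neg (show ¬ (2 ≤ i ∧ i < k) from fun hc => absurd hc.1 (not_le.2 h2)), add_zero]
      rcases Nat.eq_zero_or_pos i with h0 | h0
      · rw [h0, mrk_num_zero h.wi.size, if_neg (by omega)]
        simp
      · have h1 : i = 1 := by omega
        rw [if_pos h1, h1]
        refine mul_le_mul_of_nonneg_left ?_ (S.W.a_nonneg 1)
        exact_mod_cast mrk_num_mono h.sub 1
    · rw [if_neg (by omega), zero_add]
      by_cases hik : i < k
      · rw [if_pos ⟨h2, hik⟩, mul_assoc]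
        refine mul_le_mul_of_nonneg_left ?_ (S.W.a_nonneg i)
        exact_mod_cast WS.num_le S.W h.wi h2 hik
      · have : i = k := by omega
        rw [this, S.top, if_neg (by omega)]
        simp
  refine (Finset.sum_le_sum hb).trans ?_
  rw [Finset.sum_add_distrib]
  have e1 : ∑ i ∈ Finset.range (k + 1), (if i = 1 then S.W.a 1 * (num 𝒞 1 : ℝ) else 0) ≤
      3 * s / 4 * num 𝒞 1 := by
    rw [← S.a1, Finset.sum_ite_eq']
    split_ifs
    · exact le_rfl
    · exact mul_nonneg (S.W.a_nonneg 1) (Nat.cast_nonneg _)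
  have e2 : ∑ i ∈ Finset.range (k + 1), (if 2 ≤ i ∧ i < k then
      S.W.a i * ((2 * S.W.th (i - 1) : ℕ) : ℝ) * n else 0) ≤ γ * n := by
    rw [← Finset.sum_filter]
    have e3 : (Finset.range (k + 1)).filter (fun i => 2 ≤ i ∧ i < k) = Finset.Ico 2 k := by
      ext i
      rw [mem_filter, Finset.mem_range, Finset.mem_Ico]
      omega
    rw [e3, ← Finset.sum_mul]
    exact mul_le_mul_of_nonneg_right S.small (Nat.cast_nonneg _)
  linarith

theorem MInv.card_le (h : MInv W n 𝒞 𝒩) (hd : ¬ Dead 𝒞)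
    (hno : ∀ c p, 1 ≤ p → p < c → c ≤ k → NoHit W.th c p 𝒞) : 𝒞.card ≤ Lam W * n := by
  have e1 : 𝒞.card = ∑ i ∈ Finset.range (k + 1), num 𝒞 i := by
    unfold num
    refine Finset.card_eq_sum_card_fiberwise (f := fun C : Finset Lit => C.card) ?_
    intro C hC
    have := (h.size C hC).2
    exact Finset.mem_coe.2 (Finset.mem_range.2 (Nat.lt_succ_of_le this))
  have hb : ∀ i ∈ Finset.range (k + 1), num 𝒞 i ≤
      (if i = 1 then n else 0) + (if 2 ≤ i then W.th (i - 1) * n else 0) := by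
    intro i hi
    rw [Finset.mem_range] at hi
    rcases Nat.lt_or_ge i 2 with h2 | h2
    · rw [if_neg (not_le.2 h2), add_zero]
      rcases Nat.eq_zero_or_pos i with h0 | h0
      · rw [h0, mrk_num_zero h.size]
        exact Nat.zero_le _
      · have h1 : i = 1 := by omega
        rw [if_pos h1, h1]
        exact num_one_le h.ov hd
    · rw [if_neg (by omega), zero_add, if_pos h2]
      have h3 := num_le_of_dg h.ov (i := i) (D := W.th (i - 1)) (fun l => by
        have := hno i (i - 1) (by omega) (by omega) (by omega) {l} (by simp; omega)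
        exact this.le)
      have h4 : 2 * num 𝒞 i ≤ i * num 𝒞 i := Nat.mul_le_mul_right _ h2
      nlinarith
  rw [e1]
  refine (Finset.sum_le_sum hb).trans ?_
  rw [Finset.sum_add_distrib]
  have e2 : ∑ i ∈ Finset.range (k + 1), (if i = 1 then n else 0) ≤ n := by
    rw [Finset.sum_ite_eq']
    split_ifs
    · exact le_rfl
    · exact Nat.zero_le _
  have e3 : ∑ i ∈ Finset.range (k + 1), (if 2 ≤ i then W.th (i - 1) * n else 0) =
      (∑ c ∈ Finset.Ico 2 (k + 1), W.th (c - 1)) * n := by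
    rw [← Finset.sum_filter, Finset.sum_mul]
    refine Finset.sum_congr ?_ fun _ _ => rfl
    ext i
    rw [mem_filter, Finset.mem_range, Finset.mem_Ico]
    omega
  rw [e3]
  unfold Lam
  rw [Nat.add_mul, Nat.one_mul]
  exact Nat.add_le_add_right e2 _

/-- The weight of the unit clauses. -/
theorem wgt_units {s γ : ℝ} (S : Stg k s γ) :
    wgt S.W.a (𝒞.filter (fun C => C.card = 1)) = 3 * s / 4 * num 𝒞 1 := by
  unfold wgt num
  rw [Finset.sum_congr rfl (g := fun _ => S.W.a 1) (fun C hC => by rw [(mem_filter.1 hC).2]),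
    Finset.sum_const, nsmul_eq_mul, S.a1, mul_comm]

end Pool.Agent.H46.SK

end S_MRK

section S_MRL

/-!
# Module MRL: the steps of a stage on lists with marks

List version of `MRK`, close to `Pool/Agent/H14/Step.lean` (`Good.stepA`, `Good.stepB`,
`Good.hit`, `Good.noHit`, `satisfiable_step`).  `toF (O ++ N) = toF O ∪ toF N` (`toF_append`), and
`toF (cutL Q O ++ addL Q N) = addAll (toF Q) (toF (O ++ N))`.  `search_spec` is applied to the list
`O ++ N`.  `LInv (cutL Q O ++ addL Q N)` is `LInv.addL` for `addL Q (O ++ N)` up to a permutation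
(`cutL Q O ++ (Q ++ cutL Q N)` is a permutation of `Q ++ cutL Q (O ++ N)`).
-/

set_option autoImplicit false

namespace Pool.Agent.H46.SK

open Finset Pool.Agent.H14.ETH

/-- The new lists are a permutation of `addL Q (O ++ N)`. -/
theorem mrl_perm (Q O N : LFam) : (cutL Q O ++ addL Q N).Perm (addL Q (O ++ N)) := by
  unfold cutL addL
  rw [List.filter_append, ← List.append_assoc, ← List.append_assoc]
  exact (List.perm_append_comm).append_right _

theorem mrl_toF_perm {L M : LFam} (h : L.Perm M) : toF L = toF M := by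
  ext C
  rw [mem_toF, mem_toF]
  constructor
  · rintro ⟨D, hD, e⟩
    exact ⟨D, h.mem_iff.1 hD, e⟩
  · rintro ⟨D, hD, e⟩
    exact ⟨D, h.mem_iff.2 hD, e⟩

theorem mrl_LInv_perm {L M : LFam} (h : L.Perm M) (hL : LInv L) : LInv M :=
  ⟨fun C hC => hL.1 C (h.mem_iff.2 hC), (h.map _).nodup_iff.1 hL.2⟩

theorem toF_cutL (Q O N : LFam) : toF (cutL Q O ++ addL Q N) = addAll (toF Q) (toF (O ++ N)) := by
  rw [mrl_toF_perm (mrl_perm Q O N), toF_addL]

theorem LInv.cutL {Q O N : LFam} (hQ : LInv Q) (h : LInv (O ++ N)) :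
    LInv (SK.cutL Q O ++ addL Q N) :=
  mrl_LInv_perm (mrl_perm Q O N).symm (Pool.Agent.H14.ETH.LInv.addL hQ h)

variable {k n : ℕ} {s γ : ℝ} {O N : LFam}

theorem GoodM.mrl_hit {W : WS k} (h : GoodM W n O N) {x : ℕ × List Lit} {t : List (ℕ × List Lit)}
    (hx : hitsM k W.th O N = x :: t) :
    ∃ p, W.Hit (toF (O ++ N)) x.1 p x.2.toFinset ∧ x.2.Nodup ∧ x.2.length = x.1 - p := by
  obtain ⟨c, H⟩ := x
  obtain ⟨p, h1, h2, h3, h4, h5, h6, _, h8, h9⟩ := search_spec W.one_le_th h.linv hx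
  refine ⟨p, ⟨h1, h2, h3, ?_, h6, h8, h9⟩, h4, h5⟩
  rw [List.toFinset_card_of_nodup h4, h5]

theorem GoodM.step (S : Stg k s γ) (h : GoodM S.W n O N) (hne : hitsM k S.W.th O N ≠ []) :
    GoodM S.W n (stepMA k S.W.th O N).1 (stepMA k S.W.th O N).2 ∧
    GoodM S.W n (stepMB k S.W.th O N).1 (stepMB k S.W.th O N).2 ∧
    Ref k (toF (O ++ N)) (toF ((stepMA k S.W.th O N).1 ++ (stepMA k S.W.th O N).2)) ∧
    Ref k (toF (O ++ N)) (toF ((stepMB k S.W.th O N).1 ++ (stepMB k S.W.th O N).2)) ∧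
    (∀ v, satBy v (toF (O ++ N)) ↔
      (satBy v (toF ((stepMA k S.W.th O N).1 ++ (stepMA k S.W.th O N).2)) ∨
        satBy v (toF ((stepMB k S.W.th O N).1 ++ (stepMB k S.W.th O N).2)))) ∧
    ∃ x y : ℝ, S.η ≤ x ∧ x ≤ S.κ ∧ S.η ≤ y ∧ y ≤ S.κ ∧ (2 : ℝ) ^ (-x) + (2 : ℝ) ^ (-y) ≤ 1 ∧
      wgt S.W.a (toF N) + x ≤ wgt S.W.a (toF (stepMA k S.W.th O N).2) ∧
      wgt S.W.a (toF N) + y ≤ wgt S.W.a (toF (stepMB k S.W.th O N).2) := by
  obtain ⟨x, t, hx⟩ := List.exists_cons_of_ne_nil hne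
  obtain ⟨p, hit, hnd, hlen⟩ := h.mrl_hit hx
  have eA : stepMA k S.W.th O N = (cutL [x.2] O, addL [x.2] N) := by
    unfold stepMA; rw [hx]
  have eB : stepMB k S.W.th O N =
      (cutL (petalsL x.1 x.2 (O ++ N)) O, addL (petalsL x.1 x.2 (O ++ N)) N) := by
    unfold stepMB; rw [hx]
  rw [eA, eB]
  have fA : toF (cutL [x.2] O ++ addL [x.2] N) = addAll {x.2.toFinset} (toF (O ++ N)) := by
    rw [toF_cutL, toF_singleton]
  have gA : toF (addL [x.2] N) = addAll {x.2.toFinset} (toF N) := by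
    rw [toF_addL, toF_singleton]
  have fB : toF (cutL (petalsL x.1 x.2 (O ++ N)) O ++ addL (petalsL x.1 x.2 (O ++ N)) N) =
      addAll (petals (toF (O ++ N)) x.1 x.2.toFinset) (toF (O ++ N)) := by
    rw [toF_cutL, toF_petalsL h.linv]
  have gB : toF (addL (petalsL x.1 x.2 (O ++ N)) N) =
      addAll (petals (toF (O ++ N)) x.1 x.2.toFinset) (toF N) := by
    rw [toF_addL, toF_petalsL h.linv]
  obtain ⟨a1, a2, a3⟩ := h.inv.stepA hit
  obtain ⟨b1, b2, b3⟩ := h.inv.stepB hit
  have hp := hit.hp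
  have hpc := hit.hpc
  have hck := hit.hck
  have q1 := S.charge1 (x.1 - p) (by omega) (by omega)
  have q2 := S.charge2 p hp (by omega)
  refine ⟨⟨?_, ?_, ?_⟩, ⟨?_, ?_, ?_⟩, ?_, ?_, ?_, S.W.net (x.1 - p), S.W.th p * S.W.net p,
    q1.1, q1.2, q2.1, q2.2, S.W.kraft x.1 p hp hpc hck, ?_, ?_⟩
  · exact LInv.cutL (LInv.singleton hnd) h.linv
  · simp only [fA, gA]; exact a1
  · simp only [fA]
    refine h.nt.addAll ?_
    intro X hX
    rw [mem_singleton] at hX
    subst hX
    obtain ⟨C, hC, _, hXC⟩ := hit.sub_mem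
    exact ⟨C, hC, hXC⟩
  · exact LInv.cutL (h.linv.petalsL _ _) h.linv
  · simp only [fB, gB]; exact b1
  · simp only [fB]
    refine h.nt.addAll ?_
    intro X hX
    obtain ⟨C, hC, _, _, rfl⟩ := mem_petals.1 hX
    exact ⟨C, hC, sdiff_subset⟩
  · simp only [fA]; exact a3
  · simp only [fB]; exact b3
  · intro v
    simp only [fA, fB]
    exact satBy_branch x.1 x.2.toFinset
  · simp only [gA]; exact a2
  · simp only [gB]; exact b2

theorem GoodM.noHit {W : WS k} (h : GoodM W n O N) (he : hitsM k W.th O N = []) :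
    ∀ c p, 1 ≤ p → p < c → c ≤ k → NoHit W.th c p (toF (O ++ N)) :=
  search_nil W.one_le_th h.linv he

/-- The two parts of the list make a permutation of the list. -/
theorem mrl_split (L : LFam) : (nonuL L ++ unitL L).Perm L :=
  (List.perm_append_comm).trans (List.filter_append_perm _ _)

theorem mrl_toF_unitL {L : LFam} (hL : LInv L) :
    toF (unitL L) = (toF L).filter (fun C => C.card = 1) := by
  ext C
  rw [mem_toF, Finset.mem_filter, mem_toF]
  constructor
  · rintro ⟨D, hD, rfl⟩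
    rw [unitL, List.mem_filter, decide_eq_true_iff] at hD
    exact ⟨⟨D, hD.1, rfl⟩, by rw [hL.card_eq hD.1]; exact hD.2⟩
  · rintro ⟨⟨D, hD, rfl⟩, h1⟩
    refine ⟨D, ?_, rfl⟩
    rw [unitL, List.mem_filter, decide_eq_true_iff]
    exact ⟨hD, by rw [← hL.card_eq hD]; exact h1⟩

theorem GoodM.restart (hk : 2 ≤ k) {W W' : WS k} (h : GoodM W n O N) (htop : W'.a k = 0) :
    GoodM W' n (nonuL (O ++ N)) (unitL (O ++ N)) ∧
      toF (nonuL (O ++ N) ++ unitL (O ++ N)) = toF (O ++ N) ∧
      toF (unitL (O ++ N)) = (toF (O ++ N)).filter (fun C => C.card = 1) := by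
  have e1 : toF (nonuL (O ++ N) ++ unitL (O ++ N)) = toF (O ++ N) := mrl_toF_perm (mrl_split _)
  have e2 := mrl_toF_unitL h.linv
  refine ⟨⟨mrl_LInv_perm (mrl_split _).symm h.linv, ?_, ?_⟩, e1, e2⟩
  · rw [e1, e2]
    exact MInv.restart hk h.inv.ov h.inv.anti h.inv.size htop
  · rw [e1]
    exact h.nt

end Pool.Agent.H46.SK

end S_MRL

section S_STG

/-!
# Module STG: a stage with arbitrarily small loss exists

Proof: adapt `Pool.Agent.H14.ETH.exists_spK` (file `Pool/Agent/H14/OneK.lean`), which is the same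
statement with `a i = 1 / (m Z ^ (i - 1))` for all `i < K`.  Here `a 1 = 3 s / 4`, `net 1 = s / 2`,
and for `2 ≤ j < k`: `a j = 1 / (m Z ^ (j - 1))`, `net j = a j / 2`, `a k = 0`,
`th p = Λ Z ^ (p - 1)`, where `m` is a natural number with `1 / m ≤ min γ (s / 4)`, `Λ = Λ(z)` is as
in `exists_spK` but also with `Λ s / 2 ≥ z (k - 2) + 2 + m` (needed for the rules with `p = 1`, as
`net 1 = s / 2`; replace the factor `2 m` by `2 m m'` with `m' ≥ 1 / s`, say), and `Z = 2 ^ z` with
`4 k Λ ≤ Z` (`exists_two_pow`).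
`(N)` for `p = 1`: `s / 2 + ∑_(1<i<k) a_i 2 th(i-1) ≤ s / 2 + k * 2 Λ / (m Z) ≤ s / 2 + 1 / (2 m)`.
`(K)`: `2 ^ (-net_(c-p)) ≤ 1 - net_min / 2` with `net_min = 1 / (2 m Z ^ (k - 2))` (and `net 1 = s / 2`
is at least that large), `2 ^ (-(th p net p)) ≤ 2 ^ (-(z (k-2) + 2 + m)) ≤ net_min / 2`.
`small`: the sum is at most `k * 2 Λ / (m Z) ≤ 1 / (2 m) ≤ γ`.
-/

set_option autoImplicit false

namespace Pool.Agent.H46.SK

open Finset Pool.Agent.H14.ETH

theorem exists_stg {k : ℕ} (hk : 3 ≤ k) {s γ : ℝ} (hs : 0 < s) (hs1 : s ≤ 1) (hγ : 0 < γ) :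
    Nonempty (Stg k s γ) := by
  -- the parameters
  obtain ⟨m, hm⟩ := exists_nat_ge (max (1 / γ) (4 / s))
  have hmγ : 1 / γ ≤ (m : ℝ) := (le_max_left _ _).trans hm
  have hms : 4 / s ≤ (m : ℝ) := (le_max_right _ _).trans hm
  have hm4 : (4 : ℝ) ≤ m := by
    refine le_trans ?_ hms
    rw [le_div_iff₀ hs]
    linarith
  have hmR : (1 : ℝ) ≤ m := by linarith
  have hm1 : 1 ≤ m := by exact_mod_cast hmR
  have rm : (0 : ℝ) < m := by linarith
  have hinvγ : 1 / (m : ℝ) ≤ γ := by
    rw [div_le_iff₀ rm]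
    rw [div_le_iff₀ hγ] at hmγ
    linarith
  have hinvs : 1 / (m : ℝ) ≤ s / 4 := by
    rw [div_le_iff₀ rm]
    rw [div_le_iff₀ hs] at hms
    linarith
  obtain ⟨m', hm'⟩ := exists_nat_ge (1 / s)
  have hm's : 1 ≤ (m' : ℝ) * s := by
    rwa [div_le_iff₀ hs] at hm'
  have hm'R : (1 : ℝ) ≤ m' := by
    have h0 : (0 : ℝ) ≤ m' := Nat.cast_nonneg _
    nlinarith
  have hm'1 : 1 ≤ m' := by exact_mod_cast hm'R
  have rm' : (0 : ℝ) < m' := by linarith
  obtain ⟨z, hz⟩ := exists_two_pow (4 * k * (2 * m * m' * (k - 2)))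
    (4 * k * (2 * m * m' * (2 + m)))
  obtain ⟨Λ, hΛ⟩ : ∃ Λ : ℕ, Λ = 2 * m * m' * (z * (k - 2) + 2 + m) := ⟨_, rfl⟩
  obtain ⟨Z, hZ⟩ : ∃ Z : ℕ, Z = 2 ^ z := ⟨_, rfl⟩
  have h1 : 4 * k * Λ ≤ Z := by
    rw [hΛ, hZ]
    refine le_trans (le_of_eq ?_) hz
    ring
  have hΛ1 : 1 ≤ Λ := by
    rw [hΛ]
    exact Nat.mul_pos (Nat.mul_pos (Nat.mul_pos (by norm_num) hm1) hm'1) (by omega)
  have hZ1 : 1 ≤ Z := by rw [hZ]; exact Nat.one_le_two_pow
  have hZR : (1 : ℝ) ≤ Z := by exact_mod_cast hZ1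
  have rZ : (0 : ℝ) < Z := by linarith
  have hKR : (2 : ℝ) ≤ k := by exact_mod_cast (by omega : 2 ≤ k)
  have rK : (0 : ℝ) < k := by linarith
  have h1R : 4 * (k : ℝ) * Λ ≤ Z := by exact_mod_cast h1
  have hΛR : (1 : ℝ) ≤ Λ := by exact_mod_cast hΛ1
  have rΛ : (0 : ℝ) < Λ := by linarith
  have ha : ∀ i : ℕ, (0 : ℝ) < 1 / (m * (Z : ℝ) ^ i) := fun i => by positivity
  have hanti : ∀ i j : ℕ, i ≤ j → 1 / (m * (Z : ℝ) ^ j) ≤ 1 / (m * (Z : ℝ) ^ i) := by
    intro i j hij
    refine one_div_le_one_div_of_le (by positivity) ?_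
    exact mul_le_mul_of_nonneg_left (pow_le_pow_right₀ hZR hij) rm.le
  have hle1 : ∀ i : ℕ, 1 / (m * (Z : ℝ) ^ i) ≤ 1 := by
    intro i
    refine (hanti 0 i (Nat.zero_le _)).trans ?_
    rw [pow_zero, mul_one, div_le_one rm]
    exact hmR
  have hE1 : (1 : ℝ) ≤ ((z * (k - 2) + 2 + m : ℕ) : ℝ) := by
    exact_mod_cast (by omega : 1 ≤ z * (k - 2) + 2 + m)
  -- the charges of the second branch
  have hthnet : ∀ p : ℕ, 1 ≤ p → ((z * (k - 2) + 2 + m : ℕ) : ℝ) ≤
      ((Λ * Z ^ (p - 1) : ℕ) : ℝ) * (if p = 1 then s / 2 else 1 / (m * (Z : ℝ) ^ (p - 1)) / 2) := by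
    intro p hp
    rcases eq_or_ne p 1 with rfl | hp1
    · rw [if_pos rfl, hΛ]
      have e : ((2 * m * m' * (z * (k - 2) + 2 + m) * Z ^ (1 - 1) : ℕ) : ℝ) * (s / 2) =
          m * (m' * s) * ((z * (k - 2) + 2 + m : ℕ) : ℝ) := by
        push_cast
        simp only [Nat.sub_self, pow_zero]
        ring
      rw [e]
      have h2 : (1 : ℝ) ≤ m * (m' * s) := by nlinarith
      nlinarith
    · rw [if_neg hp1, hΛ]
      have e : ((2 * m * m' * (z * (k - 2) + 2 + m) * Z ^ (p - 1) : ℕ) : ℝ) *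
          (1 / (m * (Z : ℝ) ^ (p - 1)) / 2) = m' * ((z * (k - 2) + 2 + m : ℕ) : ℝ) := by
        push_cast
        field_simp
      rw [e]
      nlinarith
  have hthle : ∀ p : ℕ, 1 ≤ p →
      ((Λ * Z ^ (p - 1) : ℕ) : ℝ) * (if p = 1 then s / 2 else 1 / (m * (Z : ℝ) ^ (p - 1)) / 2) ≤
        Λ := by
    intro p hp
    rcases eq_or_ne p 1 with rfl | hp1
    · rw [if_pos rfl]
      simp only [Nat.sub_self, pow_zero, mul_one]
      nlinarith
    · rw [if_neg hp1]
      have e : ((Λ * Z ^ (p - 1) : ℕ) : ℝ) * (1 / (m * (Z : ℝ) ^ (p - 1)) / 2) =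
          Λ * (1 / (2 * m)) := by
        push_cast
        field_simp
      rw [e]
      have h2 : 1 / (2 * (m : ℝ)) ≤ 1 := by
        rw [div_le_one (by positivity)]
        linarith
      nlinarith
  have hpow : (2 : ℝ) ^ (-((z * (k - 2) + 2 + m : ℕ) : ℝ)) ≤ 1 / (m * (Z : ℝ) ^ (k - 2)) / 4 := by
    rw [Real.rpow_neg (by norm_num), Real.rpow_natCast, pow_add, pow_add, pow_mul]
    have e2 : ((2 : ℝ) ^ z) = Z := by rw [hZ]; push_cast; rfl
    rw [e2, div_div, one_div]
    refine inv_anti₀ (by positivity) ?_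
    have h2 : (m : ℝ) ≤ 2 ^ m := by exact_mod_cast (Nat.lt_two_pow_self (n := m)).le
    have h3 : (0 : ℝ) ≤ (Z : ℝ) ^ (k - 2) := by positivity
    nlinarith
  have hnet : ∀ q : ℕ, 1 ≤ q → q < k →
      1 / (m * (Z : ℝ) ^ (k - 2)) / 2 ≤ (if q = 1 then s / 2 else 1 / (m * (Z : ℝ) ^ (q - 1)) / 2) ∧
      (if q = 1 then s / 2 else 1 / (m * (Z : ℝ) ^ (q - 1)) / 2) ≤ 1 := by
    intro q hq hqk
    rcases eq_or_ne q 1 with rfl | hq1
    · rw [if_pos rfl]
      have h2 := hanti 0 (k - 2) (Nat.zero_le _)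
      rw [pow_zero, mul_one] at h2
      constructor <;> linarith
    · rw [if_neg hq1]
      have h2 := hanti (q - 1) (k - 2) (by omega)
      have h3 := hle1 (q - 1)
      have h4 := ha (q - 1)
      constructor <;> linarith
  have hsum : ∀ (p : ℕ), 1 ≤ p → ∑ i ∈ Finset.range k,
      (if p < i then 1 / (m * (Z : ℝ) ^ (i - 1)) * ((2 * (Λ * Z ^ (i - p - 1)) : ℕ) : ℝ) else 0) ≤
        1 / (m * (Z : ℝ) ^ (p - 1)) / 2 := by
    intro p hp
    have h2 : ∀ i ∈ Finset.range k, (if p < i then 1 / (m * (Z : ℝ) ^ (i - 1)) *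
        ((2 * (Λ * Z ^ (i - p - 1)) : ℕ) : ℝ) else 0) ≤ 2 * Λ / (m * (Z : ℝ) ^ p) := by
      intro i _
      split_ifs with hi
      · have e : (Z : ℝ) ^ (i - 1) = Z ^ p * Z ^ (i - p - 1) := by
          rw [← pow_add]
          congr 1
          omega
        rw [e]
        push_cast
        apply le_of_eq
        field_simp
      · positivity
    refine (Finset.sum_le_card_nsmul _ _ _ h2).trans ?_
    rw [Finset.card_range, nsmul_eq_mul]
    have e : (Z : ℝ) ^ p = Z ^ (p - 1) * Z := by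
      rw [← pow_succ]
      congr 1
      omega
    rw [e]
    have h3 : (k : ℝ) * (2 * Λ / (m * (Z ^ (p - 1) * Z))) = (4 * k * Λ) / (2 * m * Z ^ (p - 1) * Z) := by
      field_simp
      norm_num
    rw [h3, div_div, div_le_div_iff₀ (by positivity) (by positivity)]
    have h4 : (0 : ℝ) ≤ m * (Z : ℝ) ^ (p - 1) * 2 := by positivity
    nlinarith [mul_le_mul_of_nonneg_right h1R h4]
  refine ⟨{
    W := {
      th := fun p => Λ * Z ^ (p - 1)
      a := fun i => if i = k then 0 else if i = 1 then 3 * s / 4 else 1 / (m * (Z : ℝ) ^ (i - 1))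
      D := fun _ => 0
      net := fun i => if i = 1 then s / 2 else 1 / (m * (Z : ℝ) ^ (i - 1)) / 2
      one_le_th := ?_
      a_nonneg := ?_
      net_pos := ?_
      net_le := ?_
      kraft := ?_ }
    top := by simp
    a1 := by
      show (if 1 = k then (0 : ℝ) else if 1 = 1 then 3 * s / 4 else _) = 3 * s / 4
      rw [if_neg (by omega), if_pos rfl]
    η := 1 / (m * (Z : ℝ) ^ (k - 2)) / 2
    κ := Λ
    η_pos := by positivity
    η_le_κ := ?_
    charge1 := ?_
    charge2 := ?_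
    small := ?_ }⟩
  · intro p
    exact Nat.mul_pos hΛ1 (Nat.pow_pos hZ1)
  · intro i
    split_ifs
    · exact le_rfl
    · positivity
    · exact (ha _).le
  · intro p _ _
    have h2 := ha (p - 1)
    show (0 : ℝ) < if p = 1 then s / 2 else 1 / (m * (Z : ℝ) ^ (p - 1)) / 2
    split_ifs <;> positivity
  · intro p hp hpK
    show (if p = 1 then s / 2 else 1 / (m * (Z : ℝ) ^ (p - 1)) / 2) +
      ∑ i ∈ Finset.range (k + 1), (if p < i then
        (if i = k then 0 else if i = 1 then 3 * s / 4 else 1 / (m * (Z : ℝ) ^ (i - 1))) *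
        (if i < k then ((2 * (Λ * Z ^ (i - p - 1)) : ℕ) : ℝ) else (((fun _ => 0 : ℕ → ℕ) p : ℕ) : ℝ))
          else 0) ≤
      if p = k then 0 else if p = 1 then 3 * s / 4 else 1 / (m * (Z : ℝ) ^ (p - 1))
    rw [if_neg (show ¬ p = k by omega), Finset.sum_range_succ]
    have e : ∀ i ∈ Finset.range k, (if p < i then
        (if i = k then 0 else if i = 1 then 3 * s / 4 else 1 / (m * (Z : ℝ) ^ (i - 1))) *
        (if i < k then ((2 * (Λ * Z ^ (i - p - 1)) : ℕ) : ℝ) else (((fun _ => 0 : ℕ → ℕ) p : ℕ) : ℝ))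
          else 0) =
        (if p < i then 1 / (m * (Z : ℝ) ^ (i - 1)) * ((2 * (Λ * Z ^ (i - p - 1)) : ℕ) : ℝ) else 0) := by
      intro i hi
      rw [Finset.mem_range] at hi
      by_cases hpi : p < i
      · rw [if_pos hpi, if_pos hpi, if_neg (show ¬ i = k by omega),
          if_neg (show ¬ i = 1 by omega), if_pos hi]
      · rw [if_neg hpi, if_neg hpi]
    rw [Finset.sum_congr rfl e]
    have h2 := hsum p hp
    simp only [if_true, zero_mul, ite_self, add_zero]
    rcases eq_or_ne p 1 with rfl | hp1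
    · rw [if_pos rfl, if_pos rfl]
      simp only [Nat.sub_self, pow_zero, mul_one] at h2
      linarith
    · rw [if_neg hp1, if_neg hp1]
      linarith
  · intro c p hp hpc hc
    show (2 : ℝ) ^ (-(if c - p = 1 then s / 2 else 1 / (m * (Z : ℝ) ^ (c - p - 1)) / 2)) +
      (2 : ℝ) ^ (-(((Λ * Z ^ (p - 1) : ℕ) : ℝ) *
        (if p = 1 then s / 2 else 1 / (m * (Z : ℝ) ^ (p - 1)) / 2))) ≤ 1
    obtain ⟨h2, h3⟩ := hnet (c - p) (by omega) (by omega)
    have h4 := hthnet p hp
    have h5 : (2 : ℝ) ^ (-(((Λ * Z ^ (p - 1) : ℕ) : ℝ) *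
        (if p = 1 then s / 2 else 1 / (m * (Z : ℝ) ^ (p - 1)) / 2))) ≤
        (2 : ℝ) ^ (-((z * (k - 2) + 2 + m : ℕ) : ℝ)) :=
      Real.rpow_le_rpow_of_exponent_le (by norm_num) (neg_le_neg h4)
    have h6 := ha (k - 2)
    have h7 := two_rpow_neg_le (x := if c - p = 1 then s / 2 else
      1 / (m * (Z : ℝ) ^ (c - p - 1)) / 2) (by linarith) h3
    linarith
  · have h2 := hle1 (k - 2)
    linarith
  · intro p hp hpK
    obtain ⟨h2, h3⟩ := hnet p hp hpK
    exact ⟨h2, h3.trans hΛR⟩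
  · intro p hp hpK
    have h2 := hle1 (k - 2)
    exact ⟨by linarith [hthnet p hp], hthle p hp⟩
  · show ∑ j ∈ Finset.Ico 2 k,
      (if j = k then 0 else if j = 1 then 3 * s / 4 else 1 / (m * (Z : ℝ) ^ (j - 1))) *
        ((2 * (Λ * Z ^ (j - 1 - 1)) : ℕ) : ℝ) ≤ γ
    have h2 : ∑ j ∈ Finset.Ico 2 k,
        (if j = k then 0 else if j = 1 then 3 * s / 4 else 1 / (m * (Z : ℝ) ^ (j - 1))) *
          ((2 * (Λ * Z ^ (j - 1 - 1)) : ℕ) : ℝ) =
        ∑ j ∈ Finset.Ico 2 k, (if 1 < j then 1 / (m * (Z : ℝ) ^ (j - 1)) *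
          ((2 * (Λ * Z ^ (j - 1 - 1)) : ℕ) : ℝ) else 0) := by
      refine Finset.sum_congr rfl fun j hj => ?_
      rw [Finset.mem_Ico] at hj
      rw [if_neg (show ¬ j = k by omega), if_neg (show ¬ j = 1 by omega),
        if_pos (show 1 < j by omega)]
    rw [h2]
    have h3 : ∑ j ∈ Finset.Ico 2 k, (if 1 < j then 1 / (m * (Z : ℝ) ^ (j - 1)) *
          ((2 * (Λ * Z ^ (j - 1 - 1)) : ℕ) : ℝ) else 0) ≤
        ∑ j ∈ Finset.range k, (if 1 < j then 1 / (m * (Z : ℝ) ^ (j - 1)) *
          ((2 * (Λ * Z ^ (j - 1 - 1)) : ℕ) : ℝ) else 0) := by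
      refine Finset.sum_le_sum_of_subset_of_nonneg (fun j hj => ?_) fun j _ _ => ?_
      · rw [Finset.mem_Ico] at hj
        rw [Finset.mem_range]
        exact hj.2
      · split_ifs
        · positivity
        · exact le_rfl
    have h4 := hsum 1 le_rfl
    simp only [Nat.sub_self, pow_zero, mul_one] at h4
    have h5 : (0 : ℝ) < 1 / m := by positivity
    linarith

end Pool.Agent.H46.SK

end S_STG

section S_PHA

/-!
# Module PHA: new critical clauses along a chain of families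

`F i`, `i ≤ I`, are antichains satisfied by `v`; `F i` refines `F (i + 1)` (so time runs downwards).
`NewQ v (F f) (F e) q x` for `e ≤ f`: some clause `D` of `F e` with at most `q + 1` literals is critical
for `x` (its only true literal is that of `x`) and contains no critical clause (for `x`) of `F f`.

Proofs.
* `crit_down`: `C` critical for `x` in `F f`; iterate `Ref`: some `D ∈ F e`, `D ⊆ C`; `D` is satisfied
  by `v`, its true literals are true literals of `C`, so `D` is critical for `x`.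
* `of_critNew`: `D ∈ F i`, `D ∉ F (i+1)`, `D` critical; `D.card < k` by `Ref` (so `D.card ≤ (k-2)+1`).
  If `C ∈ F (i+1)` is critical for `x` and `C ⊆ D`, take `D' ∈ F i`, `D' ⊆ C ⊆ D`; `F i` is an antichain,
  so `D' = D`, hence `C = D ∈ F (i+1)`, a contradiction.
* `mono`: let `D` be the witness for `(f', e')`; take `D' ∈ F e`, `D' ⊆ D`, critical; if `C ∈ F f`
  is critical with `C ⊆ D'`, then some critical `C' ∈ F f'` with `C' ⊆ C ⊆ D`, a contradiction.
* `collect`: `q ≥ 1`; the points `p 0 < p 1 < ... < p B`.  Suppose `¬ NewQ v (F (p B)) (F (p 0)) (q-1) x`.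
  For each good `j` (in the filter) take a witness `D_j ∈ F (p j)`, `D_j.card ≤ q + 1`, containing no
  critical clause of `F (p (j+1))`; take `D'_j ∈ F (p 0)` critical, `D'_j ⊆ D_j`.  If
  `D'_j.card ≤ q`, then (as `NewQ .. (q-1)` fails) `D'_j` contains a critical clause of `F (p B)`,
  hence one of `F (p (j+1))` (`crit_down`), inside `D_j`: contradiction.  So `D'_j.card = q + 1`,
  `D'_j = D_j`.  The `D_j` are different: for `j < j'` (both good), `D_(j') ∈ F (p j')` is critical, so it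
  contains a critical clause of `F (p (j+1))` (`crit_down`, `p (j+1) ≤ p j'`), and `D_j` does not.
  So there are at least `T` clauses of size `q + 1` in `F (p 0)` containing the literal `(x, v x)`.
-/

set_option autoImplicit false

namespace Pool.Agent.H46.SK

open Finset Pool.Agent.H14.ETH

/-- There is a critical clause in `𝒟` with at most `q + 1` literals that contains no critical
clause of `𝒞`. -/
def NewQ (v : ℕ → Bool) (𝒞 𝒟 : Fam) (q x : ℕ) : Prop :=
  ∃ D ∈ 𝒟, Crit v x D ∧ D.card ≤ q + 1 ∧ ∀ C ∈ 𝒞, Crit v x C → ¬ C ⊆ D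

/-- A chain of families. -/
structure Chain (k n : ℕ) (v : ℕ → Bool) (I : ℕ) (F : ℕ → Fam) : Prop where
  ov : ∀ i ≤ I, Over n (F i)
  anti : ∀ i ≤ I, Anti (F i)
  sat : ∀ i ≤ I, satBy v (F i)
  ref : ∀ i < I, Ref k (F (i + 1)) (F i)

variable {k n I : ℕ} {v : ℕ → Bool} {F : ℕ → Fam}

theorem pha_crit_sub {v : ℕ → Bool} {x : ℕ} {C D : Finset Lit} (hx : Crit v x C) (h : D ⊆ C)
    (hD : ∃ l ∈ D, v l.1 = l.2) : Crit v x D := by
  unfold Crit at hx ⊢
  have h1 : D.filter (fun l => v l.1 = l.2) ⊆ {(x, v x)} := by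
    rw [← hx]
    exact Finset.filter_subset_filter _ h
  obtain ⟨l, hl, hv⟩ := hD
  have h2 : (D.filter (fun l => v l.1 = l.2)).Nonempty := ⟨l, Finset.mem_filter.2 ⟨hl, hv⟩⟩
  exact h2.subset_singleton_iff.1 h1

theorem pha_crit_mem {v : ℕ → Bool} {x : ℕ} {C : Finset Lit} (hx : Crit v x C) : (x, v x) ∈ C := by
  have h1 : (x, v x) ∈ C.filter (fun l => v l.1 = l.2) := by
    unfold Crit at hx
    rw [hx]
    exact Finset.mem_singleton_self _
  exact (Finset.mem_filter.1 h1).1

theorem Chain.crit_down (h : Chain k n v I F) {e f x : ℕ} (hef : e ≤ f) (hf : f ≤ I)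
    {C : Finset Lit} (hC : C ∈ F f) (hx : Crit v x C) : ∃ D ∈ F e, D ⊆ C ∧ Crit v x D := by
  induction f, hef using Nat.le_induction generalizing C with
  | base => exact ⟨C, hC, subset_rfl, hx⟩
  | succ f hef ih =>
    obtain ⟨D, hD, hDC⟩ := (h.ref f (by omega)).1 C hC
    have hDx : Crit v x D := pha_crit_sub hx hDC (h.sat f (by omega) D hD)
    obtain ⟨D', hD', hDD, hx'⟩ := ih (by omega) hD hDx
    exact ⟨D', hD', hDD.trans hDC, hx'⟩

theorem Chain.of_critNew (h : Chain k n v I F) {i x : ℕ} (hi : i < I)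
    (hx : x ∈ critNew v n (F (i + 1)) (F i)) : NewQ v (F (i + 1)) (F i) (k - 2) x := by
  classical
  have hx2 : ∃ D ∈ F i, D ∉ F (i + 1) ∧ 2 ≤ D.card ∧ Crit v x D := by
    unfold critNew at hx
    simp only [Finset.mem_filter] at hx
    exact hx.2
  obtain ⟨D, hD, hDn, h2, hDx⟩ := hx2
  have hcard : D.card < k := by
    rcases (h.ref i hi).2 D hD with h3 | h3
    · exact absurd h3 hDn
    · exact h3
  refine ⟨D, hD, hDx, by omega, fun C hC _ hCD => hDn ?_⟩
  obtain ⟨D', hD', hDC⟩ := (h.ref i hi).1 C hC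
  have h4 : D' = D := h.anti i (by omega) D' hD' D hD (hDC.trans hCD)
  have h5 : C = D := Finset.Subset.antisymm hCD (h4 ▸ hDC)
  rwa [← h5]

theorem Chain.mono (h : Chain k n v I F) {e e' f' f q x : ℕ} (h1 : e ≤ e') (h2 : e' ≤ f')
    (h3 : f' ≤ f) (h4 : f ≤ I) (hx : NewQ v (F f') (F e') q x) : NewQ v (F f) (F e) q x := by
  obtain ⟨D, hD, hDx, hcard, hno⟩ := hx
  obtain ⟨D', hD', hDD, hDx'⟩ := h.crit_down h1 (by omega) hD hDx
  refine ⟨D', hD', hDx', (Finset.card_le_card hDD).trans hcard, fun C hC hCx hCD => ?_⟩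
  obtain ⟨C', hC', hCC, hCx'⟩ := h.crit_down h3 h4 hC hCx
  exact hno C' hC' hCx' (hCC.trans (hCD.trans hDD))

open Classical in
theorem Chain.collect (h : Chain k n v I F) {q B x T : ℕ} (hq : 1 ≤ q) (p : ℕ → ℕ)
    (hp : ∀ j < B, p j < p (j + 1)) (hpB : p B ≤ I)
    (hdg : dg (F (p 0)) (q + 1) {(x, v x)} < T)
    (hT : T ≤ ((Finset.range B).filter (fun j => NewQ v (F (p (j + 1))) (F (p j)) q x)).card) :
    NewQ v (F (p B)) (F (p 0)) (q - 1) x := by
  by_contra hno
  have hmono : ∀ a b, a ≤ b → b ≤ B → p a ≤ p b := by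
    intro a b hab hb
    induction b, hab using Nat.le_induction with
    | base => exact le_rfl
    | succ b hab ih => exact (ih (by omega)).trans (hp b (by omega)).le
  have hwit : ∀ j ∈ (Finset.range B).filter (fun j => NewQ v (F (p (j + 1))) (F (p j)) q x),
      ∃ D : Finset Lit, D ∈ sups (F (p 0)) (q + 1) {(x, v x)} ∧ D ∈ F (p j) ∧ Crit v x D ∧
        ∀ C ∈ F (p (j + 1)), Crit v x C → ¬ C ⊆ D := by
    intro j hj
    obtain ⟨hjB, D, hD, hDx, hcard, hnoC⟩ := Finset.mem_filter.1 hj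
    rw [Finset.mem_range] at hjB
    have hpj : p j ≤ p B := hmono j B hjB.le le_rfl
    obtain ⟨D', hD', hDD, hDx'⟩ := h.crit_down (hmono 0 j (Nat.zero_le _) hjB.le)
      (hpj.trans hpB) hD hDx
    have hcard' : q + 1 ≤ D'.card := by
      by_contra hc
      apply hno
      refine ⟨D', hD', hDx', by omega, fun C hC hCx hCD => ?_⟩
      obtain ⟨C', hC', hCC, hCx'⟩ := h.crit_down (hmono (j + 1) B (by omega) le_rfl) hpB hC hCx
      exact hnoC C' hC' hCx' (hCC.trans (hCD.trans hDD))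
    have heq : D' = D := Finset.eq_of_subset_of_card_le hDD (hcard.trans hcard')
    subst heq
    refine ⟨D', mem_sups.2 ⟨hD', by omega, ?_⟩, hD, hDx, hnoC⟩
    rw [Finset.singleton_subset_iff]
    exact pha_crit_mem hDx
  choose! D hD using hwit
  have hinj : Set.InjOn D ((Finset.range B).filter
      (fun j => NewQ v (F (p (j + 1))) (F (p j)) q x) : Finset ℕ) := by
    have key : ∀ j ∈ (Finset.range B).filter (fun j => NewQ v (F (p (j + 1))) (F (p j)) q x),
        ∀ j' ∈ (Finset.range B).filter (fun j => NewQ v (F (p (j + 1))) (F (p j)) q x),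
        j < j' → D j ≠ D j' := by
      intro j hj j' hj' hlt heq
      have hjB := Finset.mem_range.1 (Finset.mem_filter.1 hj').1
      obtain ⟨-, -, -, hnoC⟩ := hD j hj
      obtain ⟨-, hD2, hDx2, -⟩ := hD j' hj'
      obtain ⟨C, hC, hCD, hCx⟩ := h.crit_down (hmono (j + 1) j' (by omega) hjB.le)
        ((hmono j' B hjB.le le_rfl).trans hpB) hD2 hDx2
      exact hnoC C hC hCx (heq ▸ hCD)
    intro j hj j' hj' heq
    rcases lt_trichotomy j j' with hlt | rfl | hlt
    · exact absurd heq (key j hj j' hj' hlt)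
    · rfl
    · exact absurd heq.symm (key j' hj' j hj hlt)
  have hle : ((Finset.range B).filter (fun j => NewQ v (F (p (j + 1))) (F (p j)) q x)).card ≤
      dg (F (p 0)) (q + 1) {(x, v x)} :=
    Finset.card_le_card_of_injOn D (fun j hj => (hD j hj).1) hinj
  omega

theorem Chain.unit_of_newQ (h : Chain k n v I F) {e f x : ℕ} (he : e ≤ I)
    (hx : NewQ v (F f) (F e) 0 x) : x ∈ unitT v n (F e) := by
  obtain ⟨D, hD, hDx, hcard, -⟩ := hx
  have hmem := pha_crit_mem hDx
  have hD1 : D = {(x, v x)} :=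
    (Finset.eq_of_subset_of_card_le (Finset.singleton_subset_iff.2 hmem) (by
      rw [Finset.card_singleton]
      omega)).symm
  unfold unitT
  refine Finset.mem_filter.2 ⟨?_, hD1 ▸ hD⟩
  have h1 := h.ov e he D hD hmem
  rw [mem_lits] at h1
  exact Finset.mem_range.2 h1

end Pool.Agent.H46.SK

end S_PHA

section S_PHB

/-!
# Module PHB: the pigeonhole argument

The number `I` depends only on `k`, `th` and `ε`.

Proof.  By descending induction on `q` (from `k - 2` to `0`) one proves `block`: there is a function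
`len : ℕ → ℕ` (`1 ≤ len e`) such that for every chain (with the degree bounds `dg (F i) (q'+1) {l} < th i q'` for
`i ≤ I`, `1 ≤ q' < k`) with `#critNew v n (F (i+1)) (F i) ≥ ε n` for ALL `i < I`, and every `e` with
`e + len e ≤ I`: `#{x < n : NewQ v (F (e + len e)) (F e) q x} ≥ ε / 2 ^ (k - 2 - q) * n`.
* `q = k - 2`: `len e = 1`, `Chain.of_critNew`.
* from `q ≥ 1` to `q - 1`: let `B = ⌈2 * th e q / ε_q⌉`, `ε_q = ε / 2 ^ (k-2-q)` (at least one), `p 0 = e`,
  `p (j+1) = p j + len (p j)`, and the new length is `p B - e`.  For `x < n` let `G x` be the number of `j < B` with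
  `NewQ v (F (p (j+1))) (F (p j)) q x`.  Double counting: `∑_x G x ≥ B ε_q n`, `G x ≤ B`, and `G x < T = th e q` unless
  `NewQ v (F (p B)) (F e) (q-1) x` (`Chain.collect`).  So `B ε_q n ≤ B #New + T n` and
  `T / B ≤ ε_q / 2`, which gives `#New ≥ ε_q n / 2`.
* At `q = 0`, `e = 0`, `I = len 0`: `Chain.unit_of_newQ`.
-/

set_option autoImplicit false

namespace Pool.Agent.H46.SK

open Finset Pool.Agent.H14.ETH

/-- The conclusion of the pigeonhole argument. -/
def PigeonAt (k : ℕ) (th : ℕ → ℕ → ℕ) (ε : ℝ) (I : ℕ) : Prop :=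
  ∀ (n : ℕ) (v : ℕ → Bool) (F : ℕ → Fam), Chain k n v I F →
    (∀ i ≤ I, ∀ q, 1 ≤ q → q < k → ∀ l : Lit, dg (F i) (q + 1) {l} < th i q) →
    (ε / 2 ^ (k - 2) * n ≤ (unitT v n (F 0)).card) ∨
      ∃ i < I, ((critNew v n (F (i + 1)) (F i)).card : ℝ) < ε * n

open Classical in
/-- The variables with a new critical clause. -/
private noncomputable def PHB_news (v : ℕ → Bool) (n : ℕ) (𝒞 𝒟 : Fam) (q : ℕ) : Finset ℕ :=
  (Finset.range n).filter (fun x => NewQ v 𝒞 𝒟 q x)

/-- the endpoints of the blocks -/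
private def PHB_pt (len : ℕ → ℕ) (e : ℕ) : ℕ → ℕ
  | 0 => e
  | j + 1 => PHB_pt len e j + len (PHB_pt len e j)

private theorem PHB_pt_lt {len : ℕ → ℕ} (hlen : ∀ e, 1 ≤ len e) (e j : ℕ) :
    PHB_pt len e j < PHB_pt len e (j + 1) := by
  have := hlen (PHB_pt len e j)
  show PHB_pt len e j < PHB_pt len e j + len (PHB_pt len e j)
  omega

private theorem PHB_pt_mono {len : ℕ → ℕ} (hlen : ∀ e, 1 ≤ len e) (e : ℕ) :
    Monotone (PHB_pt len e) :=
  monotone_nat_of_le_succ (fun j => (PHB_pt_lt hlen e j).le)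

private theorem PHB_pt_ge {len : ℕ → ℕ} (hlen : ∀ e, 1 ≤ len e) (e j : ℕ) :
    e + j ≤ PHB_pt len e j := by
  induction j with
  | zero => exact le_refl _
  | succ j ih =>
    have := PHB_pt_lt hlen e j
    omega

/-- the number of good blocks -/
private theorem PHB_block_step {k n I : ℕ} {v : ℕ → Bool} {F : ℕ → Fam} (hc : Chain k n v I F)
    {q T B e : ℕ} (hq : 1 ≤ q) (hB : 1 ≤ B) {len : ℕ → ℕ} (hlen : ∀ e, 1 ≤ len e)
    (hI : PHB_pt len e B ≤ I) {ε' : ℝ} (hTB : (T : ℝ) ≤ B * ε' / 2)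
    (hdg : ∀ l : Lit, dg (F e) (q + 1) {l} < T)
    (hj : ∀ j < B, ε' * n ≤
      ((PHB_news v n (F (PHB_pt len e (j + 1))) (F (PHB_pt len e j)) q).card : ℝ)) :
    ε' / 2 * n ≤ ((PHB_news v n (F (PHB_pt len e B)) (F e) (q - 1)).card : ℝ) := by
  classical
  set G : ℕ → ℕ := fun x => ((Finset.range B).filter (fun j =>
    NewQ v (F (PHB_pt len e (j + 1))) (F (PHB_pt len e j)) q x)).card with hG
  have hGB : ∀ x, G x ≤ B := fun x => by
    calc G x ≤ (Finset.range B).card := Finset.card_filter_le _ _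
      _ = B := Finset.card_range B
  have hnot : ∀ x, ¬ NewQ v (F (PHB_pt len e B)) (F e) (q - 1) x → G x ≤ T := by
    intro x hx
    by_contra hcon
    push Not at hcon
    apply hx
    have := hc.collect (q := q) (B := B) (x := x) (T := T) hq (PHB_pt len e)
      (fun j _ => PHB_pt_lt hlen e j) hI (hdg _) (by
        refine le_trans hcon.le ?_
        simp only [hG]
        exact le_of_eq (by congr))
    exact this
  have hsum : (B : ℝ) * (ε' * n) ≤ ∑ x ∈ Finset.range n, (G x : ℝ) := by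
    have e1 : ∑ x ∈ Finset.range n, (G x : ℝ) = ∑ j ∈ Finset.range B,
        ((PHB_news v n (F (PHB_pt len e (j + 1))) (F (PHB_pt len e j)) q).card : ℝ) := by
      have e2 : ∀ x, (G x : ℝ) = ∑ j ∈ Finset.range B,
          (if NewQ v (F (PHB_pt len e (j + 1))) (F (PHB_pt len e j)) q x then (1 : ℝ) else 0) := by
        intro x
        simp only [hG]
        rw [Finset.card_filter]
        push_cast
        rfl
      have e3 : ∀ j, ((PHB_news v n (F (PHB_pt len e (j + 1))) (F (PHB_pt len e j)) q).card : ℝ)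
          = ∑ x ∈ Finset.range n,
          (if NewQ v (F (PHB_pt len e (j + 1))) (F (PHB_pt len e j)) q x then (1 : ℝ) else 0) := by
        intro j
        unfold PHB_news
        rw [Finset.card_filter]
        push_cast
        apply Finset.sum_congr rfl
        intro x _
        congr
      simp only [e2, e3]
      exact Finset.sum_comm
    rw [e1]
    calc (B : ℝ) * (ε' * n) = ∑ j ∈ Finset.range B, (ε' * n) := by simp
      _ ≤ _ := Finset.sum_le_sum (fun j hj' => hj j (Finset.mem_range.1 hj'))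
  have hsum2 : ∑ x ∈ Finset.range n, (G x : ℝ)
      ≤ B * ((PHB_news v n (F (PHB_pt len e B)) (F e) (q - 1)).card : ℝ) + T * n := by
    have e4 : ((PHB_news v n (F (PHB_pt len e B)) (F e) (q - 1)).card : ℝ)
        = ∑ x ∈ Finset.range n,
          (if NewQ v (F (PHB_pt len e B)) (F e) (q - 1) x then (1 : ℝ) else 0) := by
      unfold PHB_news
      rw [Finset.card_filter]
      push_cast
      apply Finset.sum_congr rfl
      intro x _
      congr
    calc ∑ x ∈ Finset.range n, (G x : ℝ)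
        ≤ ∑ x ∈ Finset.range n, ((B : ℝ) *
          (if NewQ v (F (PHB_pt len e B)) (F e) (q - 1) x then (1 : ℝ) else 0) + T) := by
          apply Finset.sum_le_sum
          intro x _
          by_cases hx : NewQ v (F (PHB_pt len e B)) (F e) (q - 1) x
          · rw [if_pos hx]
            have h1 : (G x : ℝ) ≤ B := by exact_mod_cast hGB x
            have h2 : (0 : ℝ) ≤ T := Nat.cast_nonneg _
            linarith
          · rw [if_neg hx]
            have h1 : (G x : ℝ) ≤ T := by exact_mod_cast hnot x hx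
            linarith
      _ = B * ((PHB_news v n (F (PHB_pt len e B)) (F e) (q - 1)).card : ℝ) + T * n := by
          rw [Finset.sum_add_distrib, ← Finset.mul_sum, ← e4]
          simp [mul_comm]
  have hB0 : (0 : ℝ) < B := by exact_mod_cast hB
  have hn0 : (0 : ℝ) ≤ n := Nat.cast_nonneg _
  have h3 : (T : ℝ) * n ≤ B * ε' / 2 * n := mul_le_mul_of_nonneg_right hTB hn0
  have h4 : (B : ℝ) * (ε' / 2 * n)
      ≤ B * ((PHB_news v n (F (PHB_pt len e B)) (F e) (q - 1)).card : ℝ) := by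
    have e5 : (B : ℝ) * (ε' / 2 * n) = B * (ε' * n) - B * ε' / 2 * n := by ring
    rw [e5]; linarith
  exact le_of_mul_le_mul_left h4 hB0

private theorem PHB_block {k : ℕ} (hk : 3 ≤ k) (th : ℕ → ℕ → ℕ) (hth : ∀ i q, 1 ≤ th i q) {ε : ℝ}
    (hε : 0 < ε) (d : ℕ) (hd : d ≤ k - 2) : ∃ len : ℕ → ℕ, (∀ e, 1 ≤ len e) ∧
      ∀ (n : ℕ) (v : ℕ → Bool) (F : ℕ → Fam) (I : ℕ), Chain k n v I F →
        (∀ i ≤ I, ∀ q, 1 ≤ q → q < k → ∀ l : Lit, dg (F i) (q + 1) {l} < th i q) →
        (∀ i < I, ε * n ≤ ((critNew v n (F (i + 1)) (F i)).card : ℝ)) →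
        ∀ e, e + len e ≤ I →
          ε / 2 ^ d * n ≤ ((PHB_news v n (F (e + len e)) (F e) (k - 2 - d)).card : ℝ) := by
  classical
  induction d with
  | zero =>
    refine ⟨fun _ => 1, fun _ => le_refl _, ?_⟩
    intro n v F I hc _ hcr e he
    have he' : e < I := Nat.lt_of_succ_le he
    have h1 : critNew v n (F (e + 1)) (F e) ⊆ PHB_news v n (F (e + 1)) (F e) (k - 2) := by
      intro x hx
      unfold PHB_news
      rw [Finset.mem_filter]
      refine ⟨?_, hc.of_critNew he' hx⟩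
      unfold critNew at hx
      exact (Finset.mem_filter.1 hx).1
    have h2 := Finset.card_le_card h1
    have h3 := hcr e he'
    rw [pow_zero, div_one, Nat.sub_zero]
    exact h3.trans (by exact_mod_cast h2)
  | succ d ih =>
    obtain ⟨len, hlen, hmain⟩ := ih (by omega)
    set q : ℕ := k - 2 - d with hq
    have hq1 : 1 ≤ q := by omega
    set ε' : ℝ := ε / 2 ^ d with hε'
    have hε'0 : 0 < ε' := by positivity
    set B : ℕ → ℕ := fun e => ⌈2 * (th e q : ℝ) / ε'⌉₊ with hB
    have hB1 : ∀ e, 1 ≤ B e := by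
      intro e
      simp only [hB]
      rw [Nat.one_le_ceil_iff]
      have : (0 : ℝ) < (th e q : ℝ) := by
        have := hth e q
        exact_mod_cast this
      positivity
    have hge : ∀ e, e + 1 ≤ PHB_pt len e (B e) := by
      intro e
      have h1 := PHB_pt_ge hlen e (B e)
      have h2 := hB1 e
      omega
    refine ⟨fun e => PHB_pt len e (B e) - e, fun e => by
      have := hge e
      show 1 ≤ PHB_pt len e (B e) - e
      omega, ?_⟩
    intro n v F I hc hdg hcr e he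
    have h1 := hge e
    have e1 : e + (PHB_pt len e (B e) - e) = PHB_pt len e (B e) := by omega
    simp only [e1] at he ⊢
    have e2 : ε / 2 ^ (d + 1) = ε' / 2 := by rw [hε', pow_succ]; field_simp
    have e3 : k - 2 - (d + 1) = q - 1 := by omega
    rw [e2, e3]
    refine PHB_block_step hc (T := th e q) hq1 (hB1 e) hlen he ?_ ?_ ?_
    · have h2 : 2 * (th e q : ℝ) / ε' ≤ (B e : ℝ) := Nat.le_ceil _
      rw [div_le_iff₀ hε'0] at h2
      linarith
    · intro l
      exact hdg e (by omega) q hq1 (by omega) l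
    · intro j hj
      have h2 : PHB_pt len e (j + 1) ≤ I :=
        (PHB_pt_mono hlen e (show j + 1 ≤ B e by omega)).trans he
      exact hmain n v F I hc hdg hcr (PHB_pt len e j) h2

theorem pigeon {k : ℕ} (hk : 3 ≤ k) (th : ℕ → ℕ → ℕ) (hth : ∀ i q, 1 ≤ th i q) {ε : ℝ}
    (hε : 0 < ε) : ∃ I, 1 ≤ I ∧ PigeonAt k th ε I := by
  classical
  obtain ⟨len, hlen, hmain⟩ := PHB_block hk th hth hε (k - 2) le_rfl
  refine ⟨len 0, hlen 0, ?_⟩
  intro n v F hc hdg
  by_cases hcr : ∀ i < len 0, ε * n ≤ ((critNew v n (F (i + 1)) (F i)).card : ℝ)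
  · left
    have h1 := hmain n v F (len 0) hc hdg hcr 0 (by omega)
    rw [Nat.sub_self, Nat.zero_add] at h1
    refine h1.trans ?_
    have h2 : PHB_news v n (F (len 0)) (F 0) 0 ⊆ unitT v n (F 0) := by
      intro x hx
      unfold PHB_news at hx
      exact hc.unit_of_newQ (Nat.zero_le _) (Finset.mem_filter.1 hx).2
    exact_mod_cast Finset.card_le_card h2
  · right
    push Not at hcr
    exact hcr

end Pool.Agent.H46.SK

end S_PHB

section S_HSA

/-!
# Module HSA: averages over masks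

`lists m` is the finset of all lists of Booleans of length `m` (there are `2 ^ m` of them).
`chi b x` is the parity of the bits of `x` in the mask `b`; for `x ≠ y` less than `2 ^ r`, exactly half of the
masks of length `r` separate `x` and `y` (if `x`, `y` differ in the bit `j`, then flipping `b_j` changes
`xor (chi b x) (chi b y)`; or by induction on `r`: `chi (c :: b) x = xor (c && x odd) (chi b (x/2))`; if
`x/2 ≠ y/2` use the induction hypothesis for each `c`, else `x`, `y` have different parities and the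
separation is decided by `c`).  With the constant `c₀` in front: `par (c₀ :: b) x = xor c₀ (chi b x)`, so
for a mask of length `r + 1`: `x` is selected for exactly half of the masks, and both `x`, `y` for exactly a
quarter.
-/

set_option autoImplicit false

namespace Pool.Agent.H46.SK

open Finset

/-- The lists of Booleans of length `m`. -/
def blists : ℕ → Finset (List Bool)
  | 0 => {[]}
  | m + 1 => (blists m).image (fun b => true :: b) ∪ (blists m).image (fun b => false :: b)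

theorem hsa_disj (m : ℕ) : Disjoint ((blists m).image (fun b => true :: b))
    ((blists m).image (fun b => false :: b)) := by
  rw [Finset.disjoint_left]
  intro b h1 h2
  obtain ⟨c, _, rfl⟩ := Finset.mem_image.1 h1
  obtain ⟨d, _, h⟩ := Finset.mem_image.1 h2
  simp at h

theorem hsa_card_filter (m : ℕ) (P : List Bool → Prop) [DecidablePred P] :
    ((blists (m + 1)).filter P).card =
      ((blists m).filter (fun b => P (true :: b))).card +
      ((blists m).filter (fun b => P (false :: b))).card := by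
  have e : ∀ c : Bool, (((blists m).image (fun b => c :: b)).filter P).card =
      ((blists m).filter (fun b => P (c :: b))).card := by
    intro c
    rw [Finset.filter_image, Finset.card_image_of_injective]
    intro a b h
    simpa using h
  rw [blists, Finset.filter_union, Finset.card_union_of_disjoint, e, e]
  exact Finset.disjoint_filter_filter (hsa_disj m)

theorem mem_blists {m : ℕ} {b : List Bool} : b ∈ blists m ↔ b.length = m := by
  induction m generalizing b with
  | zero => simp [blists]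
  | succ m ih =>
    rw [blists, Finset.mem_union, Finset.mem_image, Finset.mem_image]
    constructor
    · rintro (⟨a, ha, rfl⟩ | ⟨a, ha, rfl⟩)
      · simp [ih.1 ha]
      · simp [ih.1 ha]
    · intro h
      cases b with
      | nil => simp at h
      | cons c a =>
        have ha : a ∈ blists m := ih.2 (by simpa using h)
        cases c
        · exact Or.inr ⟨a, ha, rfl⟩
        · exact Or.inl ⟨a, ha, rfl⟩

theorem card_blists (m : ℕ) : (blists m).card = 2 ^ m := by
  induction m with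
  | zero => simp [blists]
  | succ m ih =>
    have h := hsa_card_filter m (fun _ => True)
    simp only [Finset.filter_true] at h
    rw [h, ih, pow_succ]
    ring

theorem hsa_compl (m : ℕ) (P : List Bool → Prop) [DecidablePred P] :
    ((blists m).filter P).card + ((blists m).filter (fun b => ¬ P b)).card = 2 ^ m := by
  rw [Finset.card_filter_add_card_filter_not, card_blists]

theorem card_par (r x : ℕ) :
    ((blists (r + 1)).filter (fun b => par b x = true)).card = 2 ^ r := by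
  rw [hsa_card_filter, ← hsa_compl r (fun b => chi b x = true), add_comm]
  congr 2
  · ext b; simp [par]
  · ext b; simp [par]

theorem hsa_eq : ∀ (r : ℕ) {x y : ℕ}, x < 2 ^ r → y < 2 ^ r → x ≠ y →
    ((blists r).filter (fun b => chi b x = chi b y)).card = 2 ^ (r - 1) := by
  intro r
  induction r with
  | zero =>
    intro x y hx hy h
    simp at hx hy
    omega
  | succ r ih =>
    intro x y hx hy h
    have hx' : x / 2 < 2 ^ r := by rw [pow_succ] at hx; omega
    have hy' : y / 2 < 2 ^ r := by rw [pow_succ] at hy; omega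
    rw [hsa_card_filter, Nat.add_sub_cancel]
    by_cases e : x / 2 = y / 2
    · have hp : decide (x % 2 = 1) ≠ decide (y % 2 = 1) := by
        intro hh
        have : (x % 2 = 1) ↔ (y % 2 = 1) := decide_eq_decide.1 hh
        omega
      have h1 : (blists r).filter (fun b => chi (true :: b) x = chi (true :: b) y) = ∅ := by
        rw [Finset.filter_eq_empty_iff]
        intro b _ hb
        simp only [chi, Bool.true_and, e] at hb
        apply hp
        revert hb
        generalize decide (x % 2 = 1) = u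
        generalize decide (y % 2 = 1) = v
        generalize chi b (y / 2) = w
        cases u <;> cases v <;> cases w <;> simp
      have h2 : (blists r).filter (fun b => chi (false :: b) x = chi (false :: b) y) = blists r := by
        rw [Finset.filter_eq_self]
        intro b _
        simp only [chi, e, Bool.false_and]
      rw [h1, h2, card_blists]
      simp
    · have hr : 1 ≤ r := by
        rcases Nat.eq_zero_or_pos r with h0 | h0
        · subst h0
          simp at hx' hy'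
          omega
        · exact h0
      have k1 := ih hx' hy' e
      have k2 := hsa_compl r (fun b => chi b (x / 2) = chi b (y / 2))
      rw [k1] at k2
      have k3 : (2 : ℕ) ^ r = 2 ^ (r - 1) + 2 ^ (r - 1) := by
        obtain ⟨s, rfl⟩ : ∃ s, r = s + 1 := ⟨r - 1, by omega⟩
        rw [Nat.add_sub_cancel, pow_succ]
        ring
      have h2 : ((blists r).filter (fun b => chi (false :: b) x = chi (false :: b) y)).card =
          2 ^ (r - 1) := by
        rw [← k1]
        congr 1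
        apply Finset.filter_congr
        intro b _
        simp [chi]
      have h1 : ((blists r).filter (fun b => chi (true :: b) x = chi (true :: b) y)).card =
          2 ^ (r - 1) := by
        by_cases hp : decide (x % 2 = 1) = decide (y % 2 = 1)
        · rw [← k1]
          congr 1
          apply Finset.filter_congr
          intro b _
          simp only [chi, Bool.true_and, hp]
          generalize decide (y % 2 = 1) = v
          cases v <;> simp
        · have k4 : ((blists r).filter (fun b => ¬ chi b (x / 2) = chi b (y / 2))).card =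
              2 ^ (r - 1) := by omega
          rw [← k4]
          congr 1
          apply Finset.filter_congr
          intro b _
          simp only [chi, Bool.true_and]
          revert hp
          generalize decide (x % 2 = 1) = u
          generalize decide (y % 2 = 1) = v
          generalize chi b (y / 2) = w
          generalize chi b (x / 2) = z
          cases u <;> cases v <;> cases w <;> cases z <;> simp
      rw [h1, h2, k3]

theorem card_par_par {r x y : ℕ} (hr : 1 ≤ r) (hx : x < 2 ^ r) (hy : y < 2 ^ r) (h : x ≠ y) :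
    ((blists (r + 1)).filter (fun b => par b x = true ∧ par b y = true)).card = 2 ^ (r - 1) := by
  rw [← hsa_eq r hx hy h, hsa_card_filter, ← Finset.card_union_of_disjoint]
  · congr 1
    rw [← Finset.filter_or]
    apply Finset.filter_congr
    intro b _
    simp only [par]
    generalize chi b x = u
    generalize chi b y = v
    cases u <;> cases v <;> simp
  · rw [Finset.disjoint_filter]
    intro b _ h1 h2
    simp only [par] at h1 h2
    revert h1 h2
    generalize chi b x = u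
    generalize chi b y = v
    cases u <;> cases v <;> simp

end Pool.Agent.H46.SK

end S_HSA

section S_HSB

/-!
# Module HSB: successive halving

`psi α β B E X = |X| - α |X ∩ B| - β #{e ∈ E : e ⊆ X}`.  For a random mask the average of
`psi α (2 β) B E X₁`, `X₁` the selected part of `X`, is `|X|/2 - α |X ∩ B|/2 - 2 β e(X)/4 = psi α β B E X / 2`
(linearity and `card_par`, `card_par_par`, `card_blists`; if `r = 0` then all elements are `0`, so no pair
`e.1 ≠ e.2` lies in `X` and `e(X) = 0`), so some mask reaches the average (`halve`).  Iterate (`exists_chunk`), by induction on `t`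
for all `X` and `β`: the first mask is `b₁`, `List.take (r+1) (b₁ ++ b') = b₁`, `List.drop (r+1) (b₁ ++ b') = b'`.
-/

set_option autoImplicit false

namespace Pool.Agent.H46.SK

open Finset

/-- The potential for the choice of the items. -/
noncomputable def psi (α β : ℝ) (B : Finset ℕ) (E : Finset (ℕ × ℕ)) (X : Finset ℕ) : ℝ :=
  X.card - α * (X ∩ B).card - β * (E.filter (fun e => e.1 ∈ X ∧ e.2 ∈ X)).card

private theorem HSB_sum_card (r : ℕ) (Y : Finset ℕ) :
    ∑ b ∈ blists (r + 1), ((Y.filter (fun x => par b x = true)).card : ℝ) = 2 ^ r * (Y.card : ℝ) := by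
  have e1 : ∀ b : List Bool, ((Y.filter (fun x => par b x = true)).card : ℝ)
      = ∑ x ∈ Y, (if par b x = true then (1 : ℝ) else 0) := by
    intro b
    rw [Finset.card_filter]
    push_cast
    rfl
  simp only [e1]
  rw [Finset.sum_comm]
  have e2 : ∀ x ∈ Y, ∑ b ∈ blists (r + 1), (if par b x = true then (1 : ℝ) else 0) = 2 ^ r := by
    intro x _
    have := card_par r x
    rw [Finset.card_filter] at this
    have h2 : ((∑ b ∈ blists (r + 1), (if par b x = true then 1 else 0) : ℕ) : ℝ)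
        = ((2 ^ r : ℕ) : ℝ) := by rw [this]
    push_cast at h2
    exact h2
  rw [Finset.sum_congr rfl e2, Finset.sum_const, nsmul_eq_mul]
  ring

private theorem HSB_sum_pairs {r : ℕ} (E : Finset (ℕ × ℕ)) (X : Finset ℕ)
    (hX : ∀ x ∈ X, x < 2 ^ r) (hE : ∀ e ∈ E, e.1 ≠ e.2) :
    ∑ b ∈ blists (r + 1), ((E.filter (fun e => e.1 ∈ X.filter (fun x => par b x = true) ∧
      e.2 ∈ X.filter (fun x => par b x = true))).card : ℝ)
      = 2 ^ r / 2 * ((E.filter (fun e => e.1 ∈ X ∧ e.2 ∈ X)).card : ℝ) := by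
  have e1 : ∀ b : List Bool, ((E.filter (fun e => e.1 ∈ X.filter (fun x => par b x = true) ∧
      e.2 ∈ X.filter (fun x => par b x = true))).card : ℝ)
      = ∑ e ∈ E.filter (fun e => e.1 ∈ X ∧ e.2 ∈ X),
        (if par b e.1 = true ∧ par b e.2 = true then (1 : ℝ) else 0) := by
    intro b
    have h1 : E.filter (fun e => e.1 ∈ X.filter (fun x => par b x = true) ∧
      e.2 ∈ X.filter (fun x => par b x = true))
      = (E.filter (fun e => e.1 ∈ X ∧ e.2 ∈ X)).filter
        (fun e => par b e.1 = true ∧ par b e.2 = true) := by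
      ext e
      simp only [Finset.mem_filter]
      tauto
    rw [h1, Finset.card_filter]
    push_cast
    rfl
  simp only [e1]
  rw [Finset.sum_comm]
  have e2 : ∀ e ∈ E.filter (fun e => e.1 ∈ X ∧ e.2 ∈ X), ∑ b ∈ blists (r + 1),
      (if par b e.1 = true ∧ par b e.2 = true then (1 : ℝ) else 0) = 2 ^ r / 2 := by
    intro e he
    rw [Finset.mem_filter] at he
    obtain ⟨he0, he1, he2⟩ := he
    have hne := hE e he0
    have hl1 := hX _ he1
    have hl2 := hX _ he2
    have hr : 1 ≤ r := by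
      by_contra hcon
      have : r = 0 := by omega
      subst this
      rw [pow_zero] at hl1 hl2
      omega
    have := card_par_par hr hl1 hl2 hne
    rw [Finset.card_filter] at this
    have h2 : ((∑ b ∈ blists (r + 1), (if par b e.1 = true ∧ par b e.2 = true then 1 else 0) : ℕ) : ℝ)
        = ((2 ^ (r - 1) : ℕ) : ℝ) := by rw [this]
    push_cast at h2
    rw [h2]
    obtain ⟨m, rfl⟩ : ∃ m, r = m + 1 := ⟨r - 1, by omega⟩
    rw [Nat.add_sub_cancel, pow_succ]
    ring
  rw [Finset.sum_congr rfl e2, Finset.sum_const, nsmul_eq_mul]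
  ring

theorem halve {r : ℕ} (α β : ℝ) (B : Finset ℕ) (E : Finset (ℕ × ℕ)) (X : Finset ℕ)
    (hX : ∀ x ∈ X, x < 2 ^ r) (hE : ∀ e ∈ E, e.1 ≠ e.2) : ∃ b : List Bool, b.length = r + 1 ∧
      psi α β B E X / 2 ≤ psi α (2 * β) B E (X.filter (fun x => par b x = true)) := by
  have hne : (blists (r + 1)).Nonempty := by
    rw [← Finset.card_pos, card_blists]
    positivity
  have hsum : ∑ b ∈ blists (r + 1), psi α β B E X / 2
      ≤ ∑ b ∈ blists (r + 1), psi α (2 * β) B E (X.filter (fun x => par b x = true)) := by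
    apply le_of_eq
    rw [Finset.sum_const, nsmul_eq_mul, card_blists]
    unfold psi
    rw [Finset.sum_sub_distrib, Finset.sum_sub_distrib, ← Finset.mul_sum, ← Finset.mul_sum,
      HSB_sum_card, HSB_sum_pairs E X hX hE]
    have e1 : ∀ b : List Bool, X.filter (fun x => par b x = true) ∩ B
        = (X ∩ B).filter (fun x => par b x = true) := by
      intro b
      rw [Finset.filter_inter]
    simp only [e1]
    rw [HSB_sum_card]
    push_cast
    rw [pow_succ]
    ring
  obtain ⟨b, hb, hle⟩ := Finset.exists_le_of_sum_le hne hsum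
  exact ⟨b, mem_blists.1 hb, hle⟩

theorem exists_chunk {r : ℕ} (t : ℕ) (α β : ℝ) (B : Finset ℕ) (E : Finset (ℕ × ℕ)) (X : List ℕ)
    (hX : ∀ x ∈ X, x < 2 ^ r) (hE : ∀ e ∈ E, e.1 ≠ e.2) :
    ∃ b : List Bool, b.length = t * (r + 1) ∧
      psi α β B E X.toFinset / 2 ^ t ≤ psi α (2 ^ t * β) B E (chunkSel (r + 1) t b X).toFinset := by
  induction t generalizing X β with
  | zero =>
    refine ⟨[], by simp, ?_⟩
    simp [chunkSel]
  | succ t ih =>
    obtain ⟨b₁, hb₁, h1⟩ := halve (r := r) α β B E X.toFinset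
      (fun x hx => hX x (List.mem_toFinset.1 hx)) hE
    obtain ⟨b', hb', h2⟩ := ih (2 * β) (X.filter (fun x => par b₁ x))
      (fun x hx => hX x (List.mem_filter.1 hx).1)
    refine ⟨b₁ ++ b', ?_, ?_⟩
    · rw [List.length_append, hb₁, hb']; ring
    · have e1 : chunkSel (r + 1) (t + 1) (b₁ ++ b') X
          = chunkSel (r + 1) t b' (X.filter (fun x => par b₁ x)) := by
        show chunkSel (r + 1) t ((b₁ ++ b').drop (r + 1))
          (X.filter (fun x => par ((b₁ ++ b').take (r + 1)) x)) = _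
        rw [List.drop_left' hb₁, List.take_left' hb₁]
      rw [e1]
      have e2 : (X.filter (fun x => par b₁ x)).toFinset
          = X.toFinset.filter (fun x => par b₁ x = true) := by
        rw [List.toFinset_filter]
      rw [e2] at h2
      have e3 : (2 : ℝ) ^ (t + 1) * β = 2 ^ t * (2 * β) := by ring
      rw [e3]
      refine le_trans ?_ h2
      have e4 : psi α β B E X.toFinset / 2 ^ (t + 1) = psi α β B E X.toFinset / 2 / 2 ^ t := by
        rw [pow_succ]; field_simp
      rw [e4]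
      exact div_le_div_of_nonneg_right h1 (by positivity)

theorem chunkSel_sublist (m t : ℕ) (b : List Bool) (X : List ℕ) :
    (chunkSel m t b X).Sublist X := by
  induction t generalizing b X with
  | zero => exact List.Sublist.refl _
  | succ t ih =>
    show (chunkSel m t (b.drop m) (X.filter (fun x => par (b.take m) x))).Sublist X
    exact (ih _ _).trans List.filter_sublist

end Pool.Agent.H46.SK

end S_HSB

section S_ITM

/-!
# Module ITM: the items procedure succeeds (Lemma A)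

`L` is the family `F_i` at the end of stage `i`, `𝒟 = F_(i-1)` the family at the end of the next stage.

Proof.  Let `Λ ≥ 1`, `k ≥ 2`.  For each `D ∈ 𝒟` let `P(D)` be the set of the variables of its true literals, nonempty
because `v` satisfies `𝒟`.  Let `E` be the set of the pairs `e D` : for `D ∈ 𝒟` with `|P(D)| ≥ 2` one pair of
different elements of `P(D)`; for `D ∈ 𝒟` critical for `x` all pairs `(x, z)` with `z ≠ x` a variable of
`D`.  Each `D` contributes at most `k` pairs (`k ≥ 2 > 1` or `k - 1`), so `#E ≤ k Λ n`.  Let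
`B = unitT v n 𝒟 ∪ critNew v n (toF L) 𝒟`, `#B ≤ (ε + u) n ≤ n / 2 ^ (w + 4)`.
Apply `exists_chunk` with `r = Nat.size n` (`x < n` implies `x < 2 ^ r`), `X = List.range n`, `α = 2 ^ (w + 2)`,
`β = 1 / (4 k Λ)`: `psi α β B E (range n) ≥ n - n / 4 - n / 4 = n / 2`.  So for `Y = chunkSel ...`:
`n / 2 ^ (t + 1) ≤ |Y| - α |Y ∩ B| - 2 ^ t β e(Y)`, whence `|Y| ≥ n / 2 ^ (t+1)`, `|Y ∩ B| ≤ |Y| / 2 ^ (w+2)`,
`e(Y) ≤ |Y| 4 k Λ / 2 ^ t ≤ |Y| / 2 ^ (w + 2)`.
The items are `X = itemsL n t b L` = `Y` without the variables of unit clauses of `L`.  A unit clause `{(x,c)}` of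
`toF L` has `c = v x` and contains some `D ∈ 𝒟`, nonempty, so `{(x, v x)} ∈ 𝒟` and `x ∈ B`.  So
`|X| ≥ |Y| - |Y ∩ B| ≥ (3/4) |Y|` (as `w ≥ 0`), in particular `n ≤ 4 * 2 ^ t * |X|`.
`bad` = `(X ∩ B) ∪ {e.1 : e ∈ E, e ⊆ X}`; `#bad ≤ |Y| / 2 ^ (w+1) ≤ (3/4) |Y| / 2 ^ w ≤ |X| / 2 ^ w`.
Claim: let `X' = X \ bad` and let `D ∈ toF L` contain two different literals with variables in `X'`; then `D` has a true
literal with variable outside `X'`.  Otherwise `P(D) ⊆ X'`.  Take `H ∈ 𝒟`, `H ⊆ D` (`Ref`).  `P(H) ⊆ P(D) ⊆ X'`.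
If `|P(H)| ≥ 2` then its pair `e` is in `E`, inside `X`, so `e.1 ∈ bad`: contradiction.  So `H` is critical for some `x ∈ X'`.
If `H.card = 1` then `x ∈ unitT ⊆ B`, contradiction.  If `H ∉ toF L` then `x ∈ critNew ⊆ B`, contradiction.  So `H ∈ toF L`, and
`H = D` as `toF L` is an antichain.  `D` has two different literals with variables in `X'`; they have different variables
(`D` has no complementary literals, `NT`), so one of them has a variable `z ≠ x`, `z ∈ X'`, and `(x, z) ∈ E` lies inside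
`X`: so `x ∈ bad`, a contradiction.
(`n = 0`: everything is empty; the proof covers it.)
-/

set_option autoImplicit false

namespace Pool.Agent.H46.SK

open Finset Pool.Agent.H14.ETH

/-- The pairs of one clause: the variable of a chosen true literal and another variable. -/
theorem itm_pairs {k : ℕ} {v : ℕ → Bool} {𝒟 : Fam} (hDs : satBy v 𝒟)
    (hsz : ∀ D ∈ 𝒟, D.card ≤ k) :
    ∃ (x : Finset Lit → ℕ) (E : Finset (ℕ × ℕ)), E.card ≤ k * 𝒟.card ∧ (∀ e ∈ E, e.1 ≠ e.2) ∧
      (∀ D ∈ 𝒟, (x D, v (x D)) ∈ D ∧ ∀ l ∈ D, l.1 ≠ x D → (x D, l.1) ∈ E) := by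
  classical
  have h1 : ∀ D ∈ 𝒟, ∃ x : ℕ, (x, v x) ∈ D := by
    intro D hD
    obtain ⟨l, hl, hv⟩ := hDs D hD
    refine ⟨l.1, ?_⟩
    have : (l.1, v l.1) = l := by rw [hv]
    rw [this]; exact hl
  choose! x hx using h1
  refine ⟨x, 𝒟.biUnion (fun D => (D.filter (fun l => l.1 ≠ x D)).image (fun l => (x D, l.1))),
    ?_, ?_, ?_⟩
  · rw [mul_comm]
    refine Finset.card_biUnion_le_card_mul _ _ _ (fun D hD => ?_)
    exact (Finset.card_image_le).trans ((Finset.card_filter_le _ _).trans (hsz D hD))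
  · intro e he
    rw [Finset.mem_biUnion] at he
    obtain ⟨D, hD, he⟩ := he
    rw [Finset.mem_image] at he
    obtain ⟨l, hl, rfl⟩ := he
    rw [Finset.mem_filter] at hl
    exact fun h => hl.2 h.symm
  · intro D hD
    refine ⟨hx D hD, fun l hl hne => ?_⟩
    rw [Finset.mem_biUnion]
    refine ⟨D, hD, ?_⟩
    rw [Finset.mem_image]
    exact ⟨l, Finset.mem_filter.2 ⟨hl, hne⟩, rfl⟩

/-- The logical part. -/
theorem itm_claim {k n : ℕ} {v : ℕ → Bool} {L : LFam} (ha : Anti (toF L)) (hnt : NT (toF L))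
    {𝒟 : Fam} (hD : Over n 𝒟) (href : Ref k (toF L) 𝒟) {x : Finset Lit → ℕ}
    {E : Finset (ℕ × ℕ)} (hE : ∀ D ∈ 𝒟, (x D, v (x D)) ∈ D ∧ ∀ l ∈ D, l.1 ≠ x D → (x D, l.1) ∈ E)
    {X bad : Finset ℕ} (hb1 : ∀ y ∈ X, y ∈ unitT v n 𝒟 → y ∈ bad)
    (hb2 : ∀ y ∈ X, y ∈ critNew v n (toF L) 𝒟 → y ∈ bad)
    (hb3 : ∀ e ∈ E, e.1 ∈ X → e.2 ∈ X → e.1 ∈ bad)
    {D : Finset Lit} (hDL : D ∈ toF L)
    (htwo : ∃ l ∈ D, ∃ m ∈ D, l ≠ m ∧ l.1 ∈ X \ bad ∧ m.1 ∈ X \ bad) :
    ∃ l ∈ D, v l.1 = l.2 ∧ l.1 ∉ X \ bad := by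
  classical
  by_contra hcon
  push Not at hcon
  obtain ⟨H, hH, hHD⟩ := href.1 D hDL
  obtain ⟨hx1, hx2⟩ := hE H hH
  have hxX : x H ∈ X \ bad := hcon (x H, v (x H)) (hHD hx1) rfl
  rw [Finset.mem_sdiff] at hxX
  -- no other variable of `H` is in `X'`
  have hno : ∀ l ∈ H, l.1 ∈ X \ bad → l.1 = x H := by
    intro l hl hlX
    by_contra hne
    rw [Finset.mem_sdiff] at hlX
    exact hxX.2 (hb3 _ (hx2 l hl hne) hxX.1 hlX.1)
  have hcrit : Crit v (x H) H := by
    unfold Crit
    ext l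
    rw [Finset.mem_filter, Finset.mem_singleton]
    constructor
    · rintro ⟨hl, hv⟩
      have h1 := hno l hl (hcon l (hHD hl) hv)
      rw [← h1, hv]
    · rintro rfl
      exact ⟨hx1, rfl⟩
  have hxn : x H < n := by
    have := hD H hH hx1
    rwa [mem_lits] at this
  have hHL : H ∈ toF L := by
    by_contra hHL
    have hcard : H.card ≠ 1 := by
      intro h1
      obtain ⟨l, hl⟩ := Finset.card_eq_one.1 h1
      have h3 : ∀ z ∈ H, z = l := by
        intro z hz
        rw [hl] at hz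
        exact Finset.mem_singleton.1 hz
      have h2 : l = (x H, v (x H)) := (h3 _ hx1).symm
      apply hxX.2
      apply hb1 _ hxX.1
      unfold unitT
      rw [Finset.mem_filter, Finset.mem_range, ← h2, ← hl]
      exact ⟨hxn, hH⟩
    have hpos : 0 < H.card := Finset.card_pos.2 ⟨_, hx1⟩
    apply hxX.2
    apply hb2 _ hxX.1
    unfold critNew
    rw [Finset.mem_filter, Finset.mem_range]
    exact ⟨hxn, H, hH, hHL, by omega, hcrit⟩
  have hHD' : H = D := ha H hHL D hDL hHD
  subst hHD'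
  obtain ⟨l, hl, m, hm, hlm, hlX, hmX⟩ := htwo
  have h1 := hno l hl hlX
  have h2 := hno m hm hmX
  have h3 : m.2 = !l.2 := by
    have : l.2 ≠ m.2 := by
      intro h
      apply hlm
      exact Prod.ext (h1.trans h2.symm) h
    cases hl2 : l.2 <;> cases hm2 : m.2 <;> simp_all
  have h4 : (l.1, l.2) ∈ H := hl
  apply hnt H hDL l.1 l.2 h4
  have h5 : (l.1, !l.2) = m := by rw [← h3, h1, ← h2]
  rw [h5]; exact hm

/-- The arithmetic part. -/
theorem itm_num {w t kΛ : ℕ} {n Y YB eY X : ℝ} (hkΛ : 1 ≤ kΛ) (ht : 2 ^ (w + 4) * kΛ ≤ 2 ^ t)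
    (hYB : 0 ≤ YB) (heY : 0 ≤ eY)
    (h : n / 2 / 2 ^ t ≤ Y - 2 ^ (w + 2) * YB - 2 ^ t * (1 / (4 * kΛ)) * eY) (hX : Y - YB ≤ X)
    (hn : 0 ≤ n) :
    n ≤ 4 * 2 ^ t * X ∧ 2 ^ w * (YB + eY) ≤ X := by
  have hT : (0 : ℝ) < 2 ^ t := by positivity
  have hk : (1 : ℝ) ≤ kΛ := by exact_mod_cast hkΛ
  have ht' : (2 : ℝ) ^ (w + 4) * kΛ ≤ 2 ^ t := by exact_mod_cast ht
  have hW : (1 : ℝ) ≤ 2 ^ w := one_le_pow₀ (by norm_num)
  have e2 : (2 : ℝ) ^ (w + 2) = 4 * 2 ^ w := by rw [pow_add]; ring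
  have e4 : (2 : ℝ) ^ (w + 4) = 16 * 2 ^ w := by rw [pow_add]; ring
  rw [e2] at h
  rw [e4] at ht'
  have hc : 4 * (2 : ℝ) ^ w ≤ 2 ^ t * (1 / (4 * kΛ)) := by
    rw [mul_one_div, le_div_iff₀ (by positivity)]
    linarith
  have h1 : 0 ≤ n / 2 / 2 ^ t := by positivity
  have h2 : 4 * 2 ^ w * eY ≤ 2 ^ t * (1 / (4 * kΛ)) * eY := mul_le_mul_of_nonneg_right hc heY
  have h3 : n / 2 / 2 ^ t ≤ Y - 4 * 2 ^ w * YB - 4 * 2 ^ w * eY := by linarith
  have h4 : YB ≤ 2 ^ w * YB := by nlinarith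
  have h5 : 0 ≤ 2 ^ w * eY := by positivity
  have h6 : 0 ≤ 2 ^ w * YB := by positivity
  constructor
  · have h7 : n / 2 / 2 ^ t ≤ X := by linarith
    rw [div_div, div_le_iff₀ (by positivity)] at h7
    nlinarith
  · rw [mul_add]
    linarith

theorem exists_items {k n : ℕ} (hk : 2 ≤ k) {v : ℕ → Bool} {L : LFam} (hL : LInv L)
    (hov : Over n (toF L)) (ha : Anti (toF L)) (hnt : NT (toF L)) (hs : satBy v (toF L))
    {𝒟 : Fam} (hD : Over n 𝒟) (hDs : satBy v 𝒟) (hsz : ∀ D ∈ 𝒟, D.card ≤ k)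
    (href : Ref k (toF L) 𝒟) {Λ w t : ℕ} (hΛ : 1 ≤ Λ) (hcard : 𝒟.card ≤ Λ * n) {ε u : ℝ}
    (hu : ((unitT v n 𝒟).card : ℝ) ≤ u * n) (hε : ((critNew v n (toF L) 𝒟).card : ℝ) ≤ ε * n)
    (hεu : ε + u ≤ 1 / 2 ^ (w + 4)) (ht : 2 ^ (w + 4) * (k * Λ) ≤ 2 ^ t) :
    ∃ b : List Bool, b.length = t * (Nat.size n + 1) ∧
      n ≤ 4 * 2 ^ t * (itemsL n t b L).length ∧
      ∃ bad : Finset ℕ, bad ⊆ (itemsL n t b L).toFinset ∧
        2 ^ w * bad.card ≤ (itemsL n t b L).length ∧
        ∀ D ∈ toF L, (∃ l ∈ D, ∃ m ∈ D, l ≠ m ∧ l.1 ∈ (itemsL n t b L).toFinset \ bad ∧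
            m.1 ∈ (itemsL n t b L).toFinset \ bad) →
          ∃ l ∈ D, v l.1 = l.2 ∧ l.1 ∉ (itemsL n t b L).toFinset \ bad := by
  classical
  obtain ⟨x, E, hEc, hEne, hEx⟩ := itm_pairs hDs hsz
  set B : Finset ℕ := unitT v n 𝒟 ∪ critNew v n (toF L) 𝒟 with hB
  have hkΛ : 1 ≤ k * Λ := Nat.mul_pos (by omega) hΛ
  obtain ⟨b, hbl, hb⟩ := exists_chunk (r := Nat.size n) t ((2 : ℝ) ^ (w + 2))
    (1 / (4 * ((k * Λ : ℕ) : ℝ))) B E (List.range n)
    (fun y hy => lt_of_lt_of_le (List.mem_range.1 hy) (Nat.lt_size_self n).le) hEne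
  set Yl : List ℕ := chunkSel (Nat.size n + 1) t b (List.range n) with hYl
  set Y : Finset ℕ := Yl.toFinset with hY
  have hsub : Yl.Sublist (List.range n) := chunkSel_sublist _ _ _ _
  have hYnd : Yl.Nodup := List.nodup_range.sublist hsub
  set Xl : List ℕ := itemsL n t b L with hXl
  have hXeq : Xl = Yl.filter (fun y => !(hasVar y (unitsL L))) := rfl
  set X : Finset ℕ := Xl.toFinset with hX
  have hXnd : Xl.Nodup := by rw [hXeq]; exact hYnd.filter _
  have hXcard : X.card = Xl.length := List.toFinset_card_of_nodup hXnd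
  have hXY : X ⊆ Y := by
    intro y hy
    rw [hX, hXeq, List.mem_toFinset, List.mem_filter] at hy
    rw [hY, List.mem_toFinset]; exact hy.1
  have hYn : ∀ y ∈ Y, y < n := by
    intro y hy
    rw [hY, List.mem_toFinset] at hy
    exact List.mem_range.1 (hsub.subset hy)
  have hYX : Y \ (Y ∩ B) ⊆ X := by
    intro y hy
    rw [Finset.mem_sdiff, Finset.mem_inter] at hy
    rw [hX, hXeq, List.mem_toFinset, List.mem_filter]
    refine ⟨by rw [← List.mem_toFinset]; exact hy.1, ?_⟩
    rw [Bool.not_eq_true', ← Bool.not_eq_true]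
    intro hv
    apply hy.2
    refine ⟨hy.1, ?_⟩
    rw [hasVar_iff'] at hv
    obtain ⟨c, hc⟩ := hv
    rw [mem_unitsL, unit_mem_toF hL] at hc
    have hvc : v y = c := by
      obtain ⟨l, hl, hlv⟩ := hs _ hc
      rw [Finset.mem_singleton] at hl
      subst hl; exact hlv
    obtain ⟨D, hDD, hDc⟩ := href.1 _ hc
    have hDeq : D = {(y, v y)} := by
      rw [← hvc] at hDc
      rcases Finset.subset_singleton_iff.1 hDc with h | h
      · exfalso
        obtain ⟨l, hl, _⟩ := hDs D hDD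
        rw [h] at hl; simp at hl
      · exact h
    rw [hB, Finset.mem_union]
    left
    unfold unitT
    rw [Finset.mem_filter, Finset.mem_range, ← hDeq]
    exact ⟨hYn y hy.1, hDD⟩
  -- the counting
  have hBcard : (B.card : ℝ) ≤ n / 2 ^ (w + 4) := by
    have h1 : (B.card : ℝ) ≤ (unitT v n 𝒟).card + (critNew v n (toF L) 𝒟).card := by
      exact_mod_cast Finset.card_union_le _ _
    have hn : (0 : ℝ) ≤ n := Nat.cast_nonneg n
    calc (B.card : ℝ) ≤ u * n + ε * n := by linarith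
      _ = (ε + u) * n := by ring
      _ ≤ 1 / 2 ^ (w + 4) * n := mul_le_mul_of_nonneg_right hεu hn
      _ = n / 2 ^ (w + 4) := by ring
  have hEcard : (E.card : ℝ) ≤ (k * Λ : ℕ) * n := by
    have h1 : E.card ≤ k * Λ * n := by
      calc E.card ≤ k * 𝒟.card := hEc
        _ ≤ k * (Λ * n) := Nat.mul_le_mul_left _ hcard
        _ = k * Λ * n := by ring
    exact_mod_cast h1
  have hstart : (n : ℝ) / 2 ≤ psi ((2 : ℝ) ^ (w + 2)) (1 / (4 * ((k * Λ : ℕ) : ℝ))) B E
      (List.range n).toFinset := by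
    unfold psi
    have h1 : ((List.range n).toFinset.card : ℝ) = n := by
      rw [List.toFinset_card_of_nodup List.nodup_range, List.length_range]
    have h2 : (((List.range n).toFinset ∩ B).card : ℝ) ≤ B.card := by
      exact_mod_cast Finset.card_le_card Finset.inter_subset_right
    have h3 : ((E.filter (fun e => e.1 ∈ (List.range n).toFinset ∧
        e.2 ∈ (List.range n).toFinset)).card : ℝ) ≤ E.card := by
      exact_mod_cast Finset.card_filter_le _ _
    have hkΛ' : (0 : ℝ) < ((k * Λ : ℕ) : ℝ) := by exact_mod_cast hkΛ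
    have h4 : (2 : ℝ) ^ (w + 2) * (((List.range n).toFinset ∩ B).card : ℝ) ≤ n / 4 := by
      calc (2 : ℝ) ^ (w + 2) * (((List.range n).toFinset ∩ B).card : ℝ)
          ≤ (2 : ℝ) ^ (w + 2) * (n / 2 ^ (w + 4)) :=
            mul_le_mul_of_nonneg_left (h2.trans hBcard) (by positivity)
        _ = n / 4 := by
            rw [show w + 4 = (w + 2) + 2 by ring, pow_add (2 : ℝ) (w + 2) 2]
            field_simp
            norm_num
    have h5 : 1 / (4 * ((k * Λ : ℕ) : ℝ)) * ((E.filter (fun e => e.1 ∈ (List.range n).toFinset ∧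
        e.2 ∈ (List.range n).toFinset)).card : ℝ) ≤ n / 4 := by
      calc _ ≤ 1 / (4 * ((k * Λ : ℕ) : ℝ)) * ((k * Λ : ℕ) * n) :=
            mul_le_mul_of_nonneg_left (h3.trans hEcard) (by positivity)
        _ = n / 4 := by field_simp
    rw [h1]
    linarith
  have hmain : (n : ℝ) / 2 / 2 ^ t ≤ (Y.card : ℝ) - 2 ^ (w + 2) * ((Y ∩ B).card : ℝ)
      - 2 ^ t * (1 / (4 * ((k * Λ : ℕ) : ℝ)))
        * ((E.filter (fun e => e.1 ∈ Y ∧ e.2 ∈ Y)).card : ℝ) := by
    have h1 : (n : ℝ) / 2 / 2 ^ t ≤ psi ((2 : ℝ) ^ (w + 2)) (1 / (4 * ((k * Λ : ℕ) : ℝ))) B E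
      (List.range n).toFinset / 2 ^ t := div_le_div_of_nonneg_right hstart (by positivity)
    exact h1.trans hb
  have hXcard2 : (Y.card : ℝ) - ((Y ∩ B).card : ℝ) ≤ X.card := by
    have h1 : Y.card ≤ X.card + (Y ∩ B).card := by
      calc Y.card = (Y \ (Y ∩ B)).card + (Y ∩ B).card :=
            (Finset.card_sdiff_add_card_eq_card Finset.inter_subset_left).symm
        _ ≤ X.card + (Y ∩ B).card := Nat.add_le_add_right (Finset.card_le_card hYX) _
    have h2 : (Y.card : ℝ) ≤ X.card + (Y ∩ B).card := by exact_mod_cast h1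
    linarith
  obtain ⟨r1, r2⟩ := itm_num (w := w) (t := t) hkΛ (by
      calc 2 ^ (w + 4) * (k * Λ) ≤ 2 ^ t := ht) (Nat.cast_nonneg _) (Nat.cast_nonneg _) hmain
      hXcard2 (Nat.cast_nonneg n)
  refine ⟨b, hbl, ?_, (X ∩ B) ∪ (E.filter (fun e => e.1 ∈ X ∧ e.2 ∈ X)).image Prod.fst, ?_, ?_, ?_⟩
  · rw [hXcard] at r1
    exact_mod_cast r1
  · apply Finset.union_subset Finset.inter_subset_left
    intro y hy
    rw [Finset.mem_image] at hy
    obtain ⟨e, he, rfl⟩ := hy
    rw [Finset.mem_filter] at he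
    exact he.2.1
  · have h1 : ((X ∩ B) ∪ (E.filter (fun e => e.1 ∈ X ∧ e.2 ∈ X)).image Prod.fst).card
        ≤ (Y ∩ B).card + (E.filter (fun e => e.1 ∈ Y ∧ e.2 ∈ Y)).card := by
      refine (Finset.card_union_le _ _).trans (Nat.add_le_add ?_ ?_)
      · exact Finset.card_le_card (Finset.inter_subset_inter_right hXY)
      · refine Finset.card_image_le.trans (Finset.card_le_card ?_)
        intro e he
        rw [Finset.mem_filter] at he ⊢
        exact ⟨he.1, hXY he.2.1, hXY he.2.2⟩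
    rw [hXcard] at r2
    have h2 : 2 ^ w * ((Y ∩ B).card + (E.filter (fun e => e.1 ∈ Y ∧ e.2 ∈ Y)).card)
        ≤ Xl.length := by exact_mod_cast r2
    exact (Nat.mul_le_mul_left _ h1).trans h2
  · intro D hDL htwo
    refine itm_claim ha hnt hD href hEx ?_ ?_ ?_ hDL htwo
    · intro y hy hyu
      rw [Finset.mem_union]; left
      rw [Finset.mem_inter, hB, Finset.mem_union]
      exact ⟨hy, Or.inl hyu⟩
    · intro y hy hyc
      rw [Finset.mem_union]; left
      rw [Finset.mem_inter, hB, Finset.mem_union]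
      exact ⟨hy, Or.inr hyc⟩
    · intro e he h1 h2
      rw [Finset.mem_union]; right
      rw [Finset.mem_image]
      exact ⟨e, Finset.mem_filter.2 ⟨he, h1, h2⟩, rfl⟩

end Pool.Agent.H46.SK

end S_ITM

section S_RDX

/-!
# Module RDX: the reduction at the leaves

`reduceX G n L`: the unit clauses are assigned (`coreL`), clauses containing at least two literals of items (variables
in `G`) lose all these literals (`trimL`), the items are eliminated by resolution (`elimL`), the variables are renumbered.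
Everything is close to `Pool/Agent/H14/Reduce.lean` (`reduce_count`, `reduce_cnf`), which is the case of a greedy independent set without
trimming; tools in `Pool/Agent/H14/Red.lean` and `Pool/Agent/H14/Ren.lean`.

* `reduceX_count`: `rankL_add (goneX G L) n`, the set of the `x < n` in `goneX G L` is the disjoint union of
  `unitVars (toF L)` and `G.toFinset`, `card_unitVars`.
* `reduceX_cnf`: `trimL G (coreL L)` satisfies `IndepL G`: a clause that is kept has at most one (position with a)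
  literal of an item (its list of item literals has length at most one), a trimmed clause has none.  Clauses have length at most
  `k`, resolvents at most `2 k - 2` (`length_resL`), and `k ≤ 2 k - 2`.  No variable of `goneX G L` occurs in
  the result (`coreL_free`; `hindep` as in `reduce_cnf`).  `isCNF_renL`.
* `reduceX_sound`: `satisfiable_renL`, `satisfiable_dedupF`, `satisfiable_map_dedupC`, `satisfiable_elimL`; an assignment satisfying
  `trimL G K` satisfies `K` (subclauses); `satisfiable_coreL`.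
* `reduceX_complete`: `v` satisfies `coreL L` (a true literal of `C ∈ L` is not the negation of a unit literal as units are true), and
  also every trimmed clause `C'` of `C = D.filter (not negated unit)`, `D ∈ L` not a unit: `C` has two item literals (at two positions of
  a list without repetitions, so different), hence `D` has two different item literals and by hypothesis a true
  literal `l` with `l.1 ∉ G`, which belongs to `C` and to `C'`.
-/

set_option autoImplicit false

namespace Pool.Agent.H46.SK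

open Finset Pool.Agent.H14.ETH

variable {k n : ℕ} {L : LFam} {G : List ℕ}

theorem rdx_mem_trimL {K : LFam} {C' : List Lit} : C' ∈ trimL G K ↔
    ∃ C ∈ K, (2 ≤ (C.filter (fun l => memN l.1 G)).length ∧
        C.filter (fun l => !(memN l.1 G)) = C') ∨
      (¬ 2 ≤ (C.filter (fun l => memN l.1 G)).length ∧ C = C') := by
  unfold trimL
  rw [List.mem_map]
  constructor
  · rintro ⟨C, hC, rfl⟩
    refine ⟨C, hC, ?_⟩
    by_cases h : 2 ≤ (C.filter (fun l => memN l.1 G)).length
    · left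
      exact ⟨h, by simp [h]⟩
    · right
      exact ⟨h, by simp [h]⟩
  · rintro ⟨C, hC, ⟨h, rfl⟩ | ⟨h, rfl⟩⟩
    · exact ⟨C, hC, by simp [h]⟩
    · exact ⟨C, hC, by simp [h]⟩

theorem rdx_sub {K : LFam} {C' : List Lit} (h : C' ∈ trimL G K) : ∃ C ∈ K, C'.Sublist C := by
  obtain ⟨C, hC, ⟨_, rfl⟩ | ⟨_, rfl⟩⟩ := rdx_mem_trimL.1 h
  · exact ⟨C, hC, List.filter_sublist⟩
  · exact ⟨C, hC, List.Sublist.refl _⟩

theorem rdx_indep (G : List ℕ) (K : LFam) : IndepL G (trimL G K) := by
  intro C' hC' l hl m hm hlG hmG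
  obtain ⟨C, hC, ⟨_, rfl⟩ | ⟨h, rfl⟩⟩ := rdx_mem_trimL.1 hC'
  · rw [List.mem_filter] at hl
    have := memN_iff.2 hlG
    rw [this] at hl
    simp at hl
  · have h1 : l ∈ C.filter (fun l => memN l.1 G) := List.mem_filter.2 ⟨hl, memN_iff.2 hlG⟩
    have h2 : m ∈ C.filter (fun l => memN l.1 G) := List.mem_filter.2 ⟨hm, memN_iff.2 hmG⟩
    revert h h1 h2
    generalize C.filter (fun l => memN l.1 G) = X
    intro h h1 h2
    match X, h, h1, h2 with
    | [], _, h1, _ => simp at h1
    | [a], _, h1, h2 =>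
      rw [List.mem_singleton] at h1 h2
      rw [h1, h2]
    | a :: b :: t, h, _, _ => simp at h

theorem rdx_gone (hL : LInv L) (ha : Anti (toF L)) {D : List Lit} (hD : D ∈ trimL G (coreL L))
    {l : Lit} (hl : l ∈ D) (hlG : l.1 ∉ G) : l.1 ∉ goneX G L := by
  intro h
  rw [goneX, List.mem_append, mem_map_units] at h
  rcases h with h | h
  · exact hlG h
  · obtain ⟨C, hC, hs⟩ := rdx_sub hD
    have := coreL_free hL ha hC (hs.subset hl)
    rw [← Bool.not_eq_true, hasVar_unitsL] at this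
    exact this h

/-- no clause of the eliminated family contains an eliminated variable -/
theorem rdx_elim (hL : LInv L) (ha : Anti (toF L)) {C : List Lit}
    (hC : C ∈ elimL G (trimL G (coreL L))) {l : Lit} (hl : l ∈ C) :
    l.1 ∉ goneX G L ∧ ∃ D ∈ coreL L, l ∈ D := by
  have hi := rdx_indep G (coreL L)
  have hsub : ∀ A ∈ trimL G (coreL L), ∀ l ∈ A, ∃ D ∈ coreL L, l ∈ D := by
    intro A hA l hl
    obtain ⟨D, hD, hs⟩ := rdx_sub hA
    exact ⟨D, hD, hs.subset hl⟩
  rcases mem_elimL.1 hC with ⟨hC, hx⟩ | ⟨x, hx, A, hA, hxA, B, hB, hxB, rfl⟩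
  · refine ⟨rdx_gone hL ha hC hl ?_, hsub _ hC l hl⟩
    intro h
    have := hx _ h
    rw [← Bool.not_eq_true] at this
    exact this (hasVar_iff.2 ⟨l, hl, rfl⟩)
  · rcases mem_resL.1 hl with ⟨h1, h2⟩ | ⟨h1, h2⟩
    · exact ⟨rdx_gone hL ha hA h1 fun h => h2 (hi A hA l h1 _ hxA h hx), hsub _ hA l h1⟩
    · exact ⟨rdx_gone hL ha hB h1 fun h => h2 (hi B hB l h1 _ hxB h hx), hsub _ hB l h1⟩

theorem rdx_fin (hL : LInv L) (ha : Anti (toF L)) : ∀ C ∈ dedupF ((elimL G
    (trimL G (coreL L))).map dedupC), ∀ l ∈ C, l.1 ∉ goneX G L := by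
  intro C hC l hl
  obtain ⟨D, hD, rfl⟩ := List.mem_map.1 (mem_of_mem_dedupF hC)
  exact (rdx_elim hL ha hD (mem_dedupC.1 hl)).1

theorem reduceX_count (hL : LInv L) (hov : Over n (toF L)) (hd : ¬ Dead (toF L)) (hG : G.Nodup)
    (hGn : ∀ x ∈ G, x < n) (hGu : ∀ x ∈ G, hasVar x (unitsL L) = false) :
    (reduceX G n L).1 + num (toF L) 1 + G.length = n := by
  classical
  have h3 := rankL_add (goneX G L) n
  have h4 : (Finset.range n).filter (fun x => x ∈ goneX G L) =
      unitVars (toF L) ∪ G.toFinset := by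
    ext x
    rw [Finset.mem_filter, Finset.mem_union, goneX, List.mem_append, mem_map_units, mem_unitVars hL,
      List.mem_toFinset]
    constructor
    · rintro ⟨_, h | h⟩
      · exact Or.inr h
      · exact Or.inl h
    · rintro (h | h)
      · refine ⟨?_, Or.inr h⟩
        exact unitVars_subset hov ((mem_unitVars hL).2 h)
      · exact ⟨Finset.mem_range.2 (hGn x h), Or.inl h⟩
  have h5 : Disjoint (unitVars (toF L)) G.toFinset := by
    rw [Finset.disjoint_left]
    intro x hx hx'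
    rw [List.mem_toFinset] at hx'
    have := hGu x hx'
    rw [← Bool.not_eq_true, hasVar_unitsL] at this
    exact this ((mem_unitVars hL).1 hx)
  rw [h4, Finset.card_union_of_disjoint h5, card_unitVars hd, List.toFinset_card_of_nodup hG] at h3
  unfold reduceX
  simp only
  omega

theorem reduceX_cnf (hk : 2 ≤ k) (hL : LInv L) (hov : Over n (toF L)) (ha : Anti (toF L))
    (hd : ¬ Dead (toF L)) (hsz : ∀ C ∈ toF L, C.card ≤ k) :
    IsCNF (2 * k - 2) (reduceX G n L).1 (reduceX G n L).2 := by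
  have hlen : ∀ C ∈ trimL G (coreL L), C.length ≤ k := by
    intro C' hC'
    obtain ⟨C, hC, hs'⟩ := rdx_sub hC'
    obtain ⟨D, hD, _, hs⟩ := coreL_sub hC
    exact (hs'.trans hs).length_le.trans (by rw [← hL.card_eq hD]; exact hsz _ (toF_mem hD))
  have hvar : ∀ C ∈ coreL L, ∀ l ∈ C, l.1 < n := by
    intro C hC l hl
    obtain ⟨D, hD, _, hs⟩ := coreL_sub hC
    exact mem_lits.1 (hov _ (toF_mem hD) (List.mem_toFinset.2 (hs.subset hl)))
  have helim : ∀ C ∈ elimL G (trimL G (coreL L)), C.length ≤ 2 * k - 2 := by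
    intro C hC
    rcases mem_elimL.1 hC with ⟨hC, _⟩ | ⟨x, hx, A, hA, hxA, B, hB, hxB, rfl⟩
    · exact (hlen C hC).trans (by omega)
    · have := length_resL hxA hxB
      have := hlen A hA
      have := hlen B hB
      omega
  refine isCNF_renL ⟨fun C hC => ?_, dedupF_pairwise _⟩ (rdx_fin hL ha)
  obtain ⟨D, hD, rfl⟩ := List.mem_map.1 (mem_of_mem_dedupF hC)
  refine ⟨dedupC_nodup D, (length_dedupC D).trans (helim D hD), fun l hl => ?_⟩
  obtain ⟨E, hE, hlE⟩ := (rdx_elim hL ha hD (mem_dedupC.1 hl)).2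
  exact hvar E hE l hlE

theorem reduceX_sound (hL : LInv L) (hov : Over n (toF L)) (ha : Anti (toF L))
    (hd : ¬ Dead (toF L))
    (h : Satisfiable (reduceX G n L).2) : Satisfiable L := by
  have h1 : (reduceX G n L).2 = renL (goneX G L) (dedupF ((elimL G
    (trimL G (coreL L))).map dedupC)) := rfl
  rw [h1, satisfiable_renL (rdx_fin hL ha), satisfiable_dedupF, satisfiable_map_dedupC,
    satisfiable_elimL (rdx_indep G (coreL L))] at h
  rw [← satisfiable_coreL hL hd]
  obtain ⟨v, hv⟩ := h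
  refine ⟨v, fun C hC => ?_⟩
  by_cases h2 : 2 ≤ (C.filter (fun l => memN l.1 G)).length
  · obtain ⟨l, hl, hvl⟩ := hv _ (rdx_mem_trimL.2 ⟨C, hC, Or.inl ⟨h2, rfl⟩⟩)
    exact ⟨l, List.mem_of_mem_filter hl, hvl⟩
  · exact hv _ (rdx_mem_trimL.2 ⟨C, hC, Or.inr ⟨h2, rfl⟩⟩)

theorem rdx_two {α : Type*} {X : List α} (hX : X.Nodup) (h : 2 ≤ X.length) :
    ∃ a ∈ X, ∃ b ∈ X, a ≠ b := by
  match X, hX, h with
  | [], _, h => simp at h
  | [a], _, h => simp at h
  | a :: b :: t, hX, _ =>
    refine ⟨a, by simp, b, by simp, ?_⟩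
    intro e
    rw [List.nodup_cons] at hX
    exact hX.1 (e ▸ List.mem_cons_self)

theorem reduceX_complete (hL : LInv L) (hov : Over n (toF L)) (ha : Anti (toF L))
    (hd : ¬ Dead (toF L)) {v : ℕ → Bool} (hv : satBy v (toF L))
    (hG : ∀ D ∈ toF L, (∃ l ∈ D, ∃ m ∈ D, l ≠ m ∧ l.1 ∈ G ∧ m.1 ∈ G) →
      ∃ l ∈ D, v l.1 = l.2 ∧ l.1 ∉ G) : Satisfiable (reduceX G n L).2 := by
  have h1 : (reduceX G n L).2 = renL (goneX G L) (dedupF ((elimL G
    (trimL G (coreL L))).map dedupC)) := rfl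
  rw [h1, satisfiable_renL (rdx_fin hL ha), satisfiable_dedupF, satisfiable_map_dedupC,
    satisfiable_elimL (rdx_indep G (coreL L))]
  have hkeep : ∀ l : Lit, v l.1 = l.2 → [negL l] ∉ L := by
    intro l hl h
    obtain ⟨m, hm, hm'⟩ := hv _ (toF_mem h)
    rw [List.mem_toFinset, List.mem_singleton] at hm
    subst hm
    simp only [negL] at hm'
    rw [hl] at hm'
    cases l.2 <;> simp at hm'
  refine ⟨v, fun C' hC' => ?_⟩
  obtain ⟨C, hC, ⟨h2, rfl⟩ | ⟨_, rfl⟩⟩ := rdx_mem_trimL.1 hC'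
  · obtain ⟨D, hD, _, rfl⟩ := mem_coreL.1 hC
    set C := D.filter (fun l => !(memL (negL l) (unitsL L))) with hCdef
    have hnd : (C.filter (fun l => memN l.1 G)).Nodup := ((hL.1 D hD).filter _).filter _
    obtain ⟨l, hl, m, hm, hlm⟩ := rdx_two hnd h2
    rw [List.mem_filter, memN_iff] at hl hm
    obtain ⟨l', hl', hv', hG'⟩ := hG _ (toF_mem hD) ⟨l,
      List.mem_toFinset.2 (List.mem_of_mem_filter hl.1), m,
      List.mem_toFinset.2 (List.mem_of_mem_filter hm.1), hlm, hl.2, hm.2⟩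
    refine ⟨l', List.mem_filter.2 ⟨?_, ?_⟩, hv'⟩
    · exact mem_core_clause.2 ⟨List.mem_toFinset.1 hl', hkeep l' hv'⟩
    · rw [Bool.not_eq_true', ← Bool.not_eq_true, memN_iff]
      exact hG'
  · obtain ⟨D, hD, _, rfl⟩ := mem_coreL.1 hC
    obtain ⟨l, hl, hvl⟩ := hv _ (toF_mem hD)
    exact ⟨l, mem_core_clause.2 ⟨List.mem_toFinset.1 hl, hkeep l hvl⟩, hvl⟩

end Pool.Agent.H46.SK

end S_RDX
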