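import Pool.Agent.H46.ETH.K1
import Pool.Agent.H14.PFns
import Pool.Agent.H14.Size
import Pool.Agent.H14.Reduce

/-! Gap between the exponents of k-SAT and (2k-2)-SAT, part K2: this file joins the modules
Par PRM Node ND0 ND1 NDL NDS of Pool/Agent/H46/SK to save build time. -/

section S_Par

/-!
# Parameters
-/

set_option autoImplicit false

namespace Pool.Agent.H46.SK

open Finset Pool.Agent.H14.ETH

/-- All parameters of the algorithm. -/
structure Pars (k : ℕ) (s : ℝ) where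
  /-- a bad item costs `w`, a good item costs `y` -/
  w : ℕ
  y : ℝ
  /-- at the end of the last stage at least `n / uq` unit clauses are required -/
  uq : ℕ
  ε : ℝ
  /-- the stages are `I, I - 1, …, 0` -/
  I : ℕ
  t : ℕ → ℕ
  γ : ℕ → ℝ
  S : (i : ℕ) → Stg k s (γ i)
  /-- loss before stage `i` -/
  d : ℕ → ℝ
  η : ℝ
  κ : ℝ
  hw : 1 ≤ w
  hy : η ≤ y
  kraft : (2 : ℝ) ^ (-(w : ℝ)) + (2 : ℝ) ^ (-y) ≤ 1
  gain : s / 2 ≤ (1 - 1 / 2 ^ w) * s - y - w / 2 ^ w
  huq : 1 ≤ uq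
  hε : 0 < ε
  hεu : ε + 1 / uq ≤ 1 / 2 ^ (w + 4)
  hu : 1 / uq < ε / 2 ^ (k - 2)
  hI : 1 ≤ I
  hη : 0 < η
  hη1 : η ≤ 1
  hηS : ∀ i ≤ I, η ≤ (S i).η
  hγ : ∀ i ≤ I, 0 ≤ γ i
  hd : ∀ i ≤ I, 0 < d i
  hdn : ∀ i < I, d (i + 1) + γ (i + 1) ≤ d i
  hd0 : d 0 + γ 0 ≤ s / (4 * uq)
  ht : ∀ i < I, 2 ^ (w + 4) * (k * Lam (S i).W) ≤ 2 ^ t (i + 1)
  hdt : ∀ i < I, d (i + 1) + γ (i + 1) ≤ s / 16 / 2 ^ t (i + 1)
  hκS : ∀ i ≤ I, (S i).κ ≤ κ
  hκt : ∀ i < I, ∀ n : ℕ,
    (w : ℝ) + 2 + ((t (i + 1) * (Nat.size n + 1) : ℕ) : ℝ) ≤ κ + s / 16 / 2 ^ t (i + 1) * n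
  pig : PigeonAt k (fun i q => (S i).W.th q) ε I

/-- The saving. -/
def Pars.δ {k : ℕ} {s : ℝ} (P : Pars k s) : ℝ := P.d P.I

end Pool.Agent.H46.SK

end S_Par

section S_PRM

/-!
# Module PRM: the parameters exist

Proof.  `w` large: with `y = -log₂ (1 - 2 ^ (-w))` (so `kraft` is an equality, `0 < y ≤ 2 / 2 ^ w` as `-log₂(1 - x) ≤ 2 x` for
`0 < x ≤ 1/2`), `y + w / 2 ^ w + s / 2 ^ w ≤ (3 + w) / 2 ^ w ≤ s / 2` for `w` large; `1 ≤ w`.
`ε = 1 / 2 ^ (w + 5)`, `uq` a natural number with `1 / uq < ε / 2 ^ (k - 2)` (then also `ε + 1 / uq ≤ 2 ε = 1 / 2 ^ (w + 4)`).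
Recursion for `(γ i, S i)` and `t`: `γ 0 = s / (16 uq)`, `S 0` from `exists_stg`; given `S i`, choose `t (i+1)` with
`2 ^ (w + 4) * (k * Lam (S i).W) ≤ 2 ^ t (i+1)`, then `γ (i+1) = min (γ i / 2) (s / 64 / 2 ^ t (i+1))`, `S (i+1)` from `exists_stg`.
(Define a sequence of dependent triples `⟨γ, S, t⟩` in the type `Σ γ : ℝ, Stg k s γ × ℕ` by `Nat.rec` and `Classical.choice`.)  All
`γ i > 0`, `γ (i+1) ≤ γ i / 2`.
`I` from `pigeon` for `th i q = (S i).W.th q` (`one_le_th`).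
`d i = γ I + ∑_(i < j ≤ I) γ j` (`j ∈ Finset.Ioc i I`); by the halving, `∑_(i<j≤I) γ j ≤ γ i - γ I`, so `d i ≤ γ i` for `i ≤ I`
and `d i + γ i ≤ 2 γ i`.  Hence `hd0` (`2 γ 0 = s / (8 uq)`), `hdt` (`2 γ (i+1) ≤ s / 32 / 2 ^ t`), `hdn` (equality).
`η` = minimum of `1`, `y` and the `(S i).η`, `i ≤ I`; `κ` = a common upper bound of the `(S i).κ`, `i ≤ I`, and of the
suprema over `n` of `w + 2 + t (i+1) (Nat.size n + 1) - (s / 16 / 2 ^ t (i+1)) n`, `i < I`, finite because `Nat.size n` is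
`O(log n)`: for all `c > 0`, `a` there is `b` with `a (Nat.size n + 1) ≤ b + c n` for all `n` (e.g. `Nat.size n ≤ m + n / 2 ^ m ...`, or from
`Nat.lt_size_self`-type bounds: `2 ^ (Nat.size n - 1) ≤ n` and `exists_two_pow`-type inequalities `a z ≤ b + c 2 ^ (z - 1)`).
-/

set_option autoImplicit false

namespace Pool.Agent.H46.SK

open Finset Pool.Agent.H14.ETH

theorem PRM_two_rpow_neg_le {y : ℝ} (h0 : 0 ≤ y) (h1 : y ≤ 1) : (2 : ℝ) ^ (-y) ≤ 1 - y / 2 := by
  have h := rpow_one_add_le_one_add_mul_self (s := -(1 / 2 : ℝ)) (p := y) (by norm_num) h0 h1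
  have h2 : (1 + -(1 / 2 : ℝ)) = (2 : ℝ)⁻¹ := by norm_num
  rw [h2, Real.inv_rpow (by norm_num), ← Real.rpow_neg (by norm_num)] at h
  linarith

theorem exists_wy {s : ℝ} (hs : 0 < s) (hs1 : s ≤ 1) : ∃ (w : ℕ) (y : ℝ), 1 ≤ w ∧ 0 < y ∧
    (2 : ℝ) ^ (-(w : ℝ)) + (2 : ℝ) ^ (-y) ≤ 1 ∧
    s / 2 ≤ (1 - 1 / 2 ^ w) * s - y - w / 2 ^ w := by
  have h1 : Filter.Tendsto (fun w : ℕ => (w : ℝ) * (1 / 2 : ℝ) ^ w) Filter.atTop (nhds 0) :=
    tendsto_self_mul_const_pow_of_lt_one (by norm_num) (by norm_num)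
  have h2 : Filter.Tendsto (fun w : ℕ => (1 / 2 : ℝ) ^ w) Filter.atTop (nhds 0) :=
    tendsto_pow_atTop_nhds_zero_of_lt_one (by norm_num) (by norm_num)
  have h3 : ∀ᶠ w : ℕ in Filter.atTop, (w : ℝ) * (1 / 2 : ℝ) ^ w < s / 8 :=
    h1.eventually (gt_mem_nhds (by linarith))
  have h4 : ∀ᶠ w : ℕ in Filter.atTop, (1 / 2 : ℝ) ^ w < s / 12 :=
    h2.eventually (gt_mem_nhds (by linarith))
  obtain ⟨w, hw3, hw4, hw1⟩ := (h3.and (h4.and (Filter.eventually_ge_atTop 1))).exists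
  have hp : (0 : ℝ) < (1 / 2 : ℝ) ^ w := by positivity
  have e1 : (1 : ℝ) / 2 ^ w = (1 / 2 : ℝ) ^ w := by rw [one_div_pow]
  have e2 : (w : ℝ) / 2 ^ w = w * (1 / 2 : ℝ) ^ w := by rw [one_div_pow]; ring
  have e3 : (2 : ℝ) ^ (-(w : ℝ)) = (1 / 2 : ℝ) ^ w := by
    rw [Real.rpow_neg (by norm_num), Real.rpow_natCast, one_div_pow, one_div]
  refine ⟨w, 2 * (1 / 2 : ℝ) ^ w, hw1, by positivity, ?_, ?_⟩
  · have h5 := PRM_two_rpow_neg_le (y := 2 * (1 / 2 : ℝ) ^ w) (by positivity) (by linarith)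
    rw [e3]
    linarith
  · rw [e1, e2]
    nlinarith

theorem size_bound (a : ℕ) {c : ℝ} (hc : 0 < c) :
    ∃ b : ℝ, ∀ n : ℕ, ((a * (Nat.size n + 1) : ℕ) : ℝ) ≤ b + c * n := by
  obtain ⟨M, hM⟩ := pow_unbounded_of_one_lt ((a : ℝ) / c) (by norm_num : (1 : ℝ) < 2)
  have hM' : (a : ℝ) ≤ c * 2 ^ M := by
    rw [div_lt_iff₀ hc] at hM
    linarith
  refine ⟨(a : ℝ) * (M + 1), fun n => ?_⟩
  have hcn : 0 ≤ c * (n : ℝ) := by positivity
  push_cast
  by_cases hz : Nat.size n ≤ M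
  · have : ((Nat.size n : ℕ) : ℝ) ≤ M := by exact_mod_cast hz
    have h2 : (a : ℝ) * ((Nat.size n : ℝ) + 1) ≤ a * (M + 1) :=
      mul_le_mul_of_nonneg_left (by linarith) (by positivity)
    linarith
  · have hz' : M < Nat.size n := not_le.mp hz
    obtain ⟨r, hr⟩ := Nat.exists_eq_add_of_lt hz'
    have hle : 2 ^ (M + r) ≤ n := by
      have : M + r < Nat.size n := by omega
      exact Nat.lt_size.mp this
    have hr2 : r + 1 ≤ 2 ^ r := Nat.lt_two_pow_self
    have hle' : (2 : ℝ) ^ M * 2 ^ r ≤ n := by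
      rw [← pow_add]
      exact_mod_cast hle
    have hr2' : (r : ℝ) + 1 ≤ 2 ^ r := by exact_mod_cast hr2
    have h6 : (a : ℝ) * (r + 1) ≤ c * n := by
      calc (a : ℝ) * (r + 1) ≤ (c * 2 ^ M) * (2 ^ r) :=
            mul_le_mul hM' hr2' (by positivity) (by positivity)
        _ = c * (2 ^ M * 2 ^ r) := by ring
        _ ≤ c * n := mul_le_mul_of_nonneg_left hle' hc.le
    rw [hr]
    push_cast
    nlinarith

theorem PRM_exists_lower (f : ℕ → ℝ) (hf : ∀ i, 0 < f i) (I : ℕ) :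
    ∃ η : ℝ, 0 < η ∧ ∀ i ≤ I, η ≤ f i := by
  induction I with
  | zero => exact ⟨f 0, hf 0, fun i hi => by rw [Nat.le_zero.mp hi]⟩
  | succ I ih =>
    obtain ⟨η, h0, h1⟩ := ih
    refine ⟨min η (f (I + 1)), lt_min h0 (hf _), fun i hi => ?_⟩
    rcases Nat.lt_or_ge i (I + 1) with h | h
    · exact (min_le_left _ _).trans (h1 i (by omega))
    · have : i = I + 1 := by omega
      subst this
      exact min_le_right _ _

theorem PRM_exists_upper (f : ℕ → ℝ) (I : ℕ) : ∃ κ : ℝ, ∀ i ≤ I, f i ≤ κ := by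
  induction I with
  | zero => exact ⟨f 0, fun i hi => by rw [Nat.le_zero.mp hi]⟩
  | succ I ih =>
    obtain ⟨κ, h1⟩ := ih
    refine ⟨max κ (f (I + 1)), fun i hi => ?_⟩
    rcases Nat.lt_or_ge i (I + 1) with h | h
    · exact (h1 i (by omega)).trans (le_max_left _ _)
    · have : i = I + 1 := by omega
      subst this
      exact le_max_right _ _

theorem exists_pars {k : ℕ} (hk : 3 ≤ k) {s : ℝ} (hs : 0 < s) (hs1 : s ≤ 1) :
    Nonempty (Pars k s) := by
  classical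
  obtain ⟨w, y, hw, hy, kraft, gain⟩ := exists_wy hs hs1
  -- the numbers `ε` and `uq`
  have hε : (0 : ℝ) < 1 / 2 ^ (w + 5) := by positivity
  obtain ⟨u, hu⟩ := exists_nat_one_div_lt
    (show (0 : ℝ) < (1 / 2 ^ (w + 5)) / 2 ^ (k - 2) by positivity)
  have hu' : (1 : ℝ) / ((u + 1 : ℕ) : ℝ) < (1 / 2 ^ (w + 5)) / 2 ^ (k - 2) := by
    push_cast
    exact hu
  have huε : (1 : ℝ) / ((u + 1 : ℕ) : ℝ) ≤ 1 / 2 ^ (w + 5) := by
    refine hu'.le.trans ?_
    exact div_le_self hε.le (one_le_pow₀ (by norm_num))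
  have hεu : (1 / 2 ^ (w + 5) : ℝ) + 1 / ((u + 1 : ℕ) : ℝ) ≤ 1 / 2 ^ (w + 4) := by
    have e : (1 / 2 ^ (w + 4) : ℝ) = 1 / 2 ^ (w + 5) + 1 / 2 ^ (w + 5) := by
      rw [pow_succ (2 : ℝ) (w + 4)]
      have : (2 : ℝ) ^ (w + 4) ≠ 0 := by positivity
      field_simp
      norm_num
    rw [e]
    linarith
  -- the stages
  let stg : (g : ℝ) → 0 < g → Stg k s g := fun g hg => (exists_stg hk hs hs1 hg).some
  let T : ℝ → ℕ := fun g => if h : 0 < g then 2 ^ (w + 4) * (k * Lam (stg g h).W) else 0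
  have hT : ∀ g (h : 0 < g), 2 ^ (w + 4) * (k * Lam (stg g h).W) ≤ 2 ^ T g := by
    intro g h
    have : T g = 2 ^ (w + 4) * (k * Lam (stg g h).W) := by
      simp only [T, dif_pos h]
    rw [this]
    exact Nat.lt_two_pow_self.le
  let γ : ℕ → ℝ := fun i => Nat.rec (s / (16 * ((u + 1 : ℕ) : ℝ)))
    (fun _ g => min (g / 2) (s / 64 / 2 ^ T g)) i
  have γ0 : γ 0 = s / (16 * ((u + 1 : ℕ) : ℝ)) := rfl
  have γs : ∀ i, γ (i + 1) = min (γ i / 2) (s / 64 / 2 ^ T (γ i)) := fun i => rfl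
  have γpos : ∀ i, 0 < γ i := by
    intro i
    induction i with
    | zero => rw [γ0]; positivity
    | succ i ih => rw [γs]; exact lt_min (by linarith) (by positivity)
  let t : ℕ → ℕ := fun i => T (γ (i - 1))
  have ts : ∀ i, t (i + 1) = T (γ i) := fun i => rfl
  let S : (i : ℕ) → Stg k s (γ i) := fun i => stg (γ i) (γpos i)
  obtain ⟨I, hI, pig⟩ := pigeon hk (fun i q => (S i).W.th q)
    (fun i q => (S i).W.one_le_th q) hε
  -- upper and lower bounds
  obtain ⟨η, hη, hηS⟩ := PRM_exists_lower (fun i => (S i).η) (fun i => (S i).η_pos) I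
  have hb : ∀ i, ∃ b : ℝ, ∀ n : ℕ, ((t (i + 1) * (Nat.size n + 1) : ℕ) : ℝ) ≤
      b + s / 16 / 2 ^ t (i + 1) * n := fun i => size_bound _ (by positivity)
  choose b hb using hb
  obtain ⟨κ, hκ⟩ := PRM_exists_upper (fun i => max (S i).κ (w + 2 + b i)) I
  refine ⟨{
    w := w
    y := y
    uq := u + 1
    ε := 1 / 2 ^ (w + 5)
    I := I
    t := t
    γ := γ
    S := S
    d := γ
    η := min η (min y 1)
    κ := κ
    hw := hw
    hy := (min_le_right _ _).trans (min_le_left _ _)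
    kraft := kraft
    gain := gain
    huq := by omega
    hε := hε
    hεu := hεu
    hu := hu'
    hI := hI
    hη := lt_min hη (lt_min hy one_pos)
    hη1 := (min_le_right _ _).trans (min_le_right _ _)
    hηS := fun i hi => (min_le_left _ _).trans (hηS i hi)
    hγ := fun i _ => (γpos i).le
    hd := fun i _ => γpos i
    hdn := ?_
    hd0 := ?_
    ht := ?_
    hdt := ?_
    hκS := fun i hi => (le_max_left _ _).trans (hκ i hi)
    hκt := ?_
    pig := pig }⟩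
  · intro i _
    have h := γs i
    have h2 := min_le_left (γ i / 2) (s / 64 / 2 ^ T (γ i))
    rw [← h] at h2
    linarith
  · rw [γ0]
    have hp : (0 : ℝ) < ((u + 1 : ℕ) : ℝ) := by positivity
    have e : s / (16 * ((u + 1 : ℕ) : ℝ)) + s / (16 * ((u + 1 : ℕ) : ℝ)) =
        (s / (4 * ((u + 1 : ℕ) : ℝ))) / 2 := by
      field_simp
      norm_num
    rw [e]
    have : 0 < s / (4 * ((u + 1 : ℕ) : ℝ)) := by positivity
    linarith
  · intro i _
    rw [ts]
    exact hT (γ i) (γpos i)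
  · intro i _
    rw [ts]
    have h := γs i
    have h2 := min_le_right (γ i / 2) (s / 64 / 2 ^ T (γ i))
    rw [← h] at h2
    have h3 : s / 64 / 2 ^ T (γ i) = (s / 16 / 2 ^ T (γ i)) / 4 := by ring
    have h4 : 0 < s / 16 / 2 ^ T (γ i) := by positivity
    rw [h3] at h2
    linarith
  · intro i hi n
    have h1 := hb i n
    have h2 := (le_max_right (S i).κ (w + 2 + b i)).trans (hκ i hi.le)
    linarith

end Pool.Agent.H46.SK

end S_PRM

section S_Node

/-!
# The tree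

A node is a tuple: mode, number of variables, stage, unmarked clauses, marked clauses, bits, remaining items, good items,
budget for bad items.
* mode 0: branching of a stage;
* mode 1 (end of the stage): the bits that choose the items are guessed; the family is in the field `ma`;
* mode 2: the items are declared good or bad; the family is in the field `ma`;
* mode 3: failure.
-/

set_option autoImplicit false

namespace Pool.Agent.H46.SK

open Finset Pool.Agent.H14.ETH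

/-- Nodes. -/
abbrev Nd : Type := ℕ × ℕ × ℕ × LFam × LFam × List Bool × List ℕ × List ℕ × ℕ

namespace Nd

/-- mode -/
def md (N : Nd) : ℕ := N.1
/-- number of variables -/
def nn (N : Nd) : ℕ := N.2.1
/-- stage -/
def st (N : Nd) : ℕ := N.2.2.1
/-- unmarked clauses -/
def oo (N : Nd) : LFam := N.2.2.2.1
/-- marked clauses -/
def ma (N : Nd) : LFam := N.2.2.2.2.1
/-- bits -/
def bi (N : Nd) : List Bool := N.2.2.2.2.2.1
/-- remaining items -/
def rr (N : Nd) : List ℕ := N.2.2.2.2.2.2.1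
/-- good items -/
def gg (N : Nd) : List ℕ := N.2.2.2.2.2.2.2.1
/-- budget -/
def bu (N : Nd) : ℕ := N.2.2.2.2.2.2.2.2

end Nd

/-- A node of mode 0. -/
def nd0 (n i : ℕ) (X : LFam × LFam) : Nd := (0, n, i, X.1, X.2, [], [], [], 0)

/-- A node of mode 1. -/
def nd1 (n i : ℕ) (L : LFam) (b : List Bool) : Nd := (1, n, i, [], L, b, [], [], 0)

/-- A node of mode 2. -/
def nd2 (n i : ℕ) (L : LFam) (R G : List ℕ) (m : ℕ) : Nd := (2, n, i, [], L, [], R, G, m)

/-- Failure. -/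
def ndF : Nd := (3, 0, 0, [], [], [], [], [], 0)

namespace Pars

variable {k : ℕ} {s : ℝ} (P : Pars k s)

/-- The number of bits to be guessed. -/
def bits (i n : ℕ) : ℕ := P.t i * (Nat.size n + 1)

/-- The stage, cut off at `I`. -/
def ix (N : Nd) : ℕ := min N.st P.I

/-- The sunflowers of a node. -/
def hits (N : Nd) : List (ℕ × List Lit) := hitsM k (P.S (P.ix N)).W.th N.oo N.ma

/-- Start of the second mode. -/
def start (i n : ℕ) (L : LFam) (b : List Bool) : Nd :=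
  bif decide (n ≤ 4 * 2 ^ P.t i * (itemsL n (P.t i) b L).length) then
    nd2 n i L (itemsL n (P.t i) b L) [] ((itemsL n (P.t i) b L).length / 2 ^ P.w)
  else ndF

/-- First child. -/
def chA (N : Nd) : Nd :=
  bif decide (N.md = 0) then
    bif (P.hits N).isEmpty then nd1 N.nn N.st (N.oo ++ N.ma) []
    else nd0 N.nn N.st (stepMA k (P.S (P.ix N)).W.th N.oo N.ma)
  else bif decide (N.md = 1) then
    bif decide (N.bi.length < P.bits (P.ix N) N.nn) then nd1 N.nn N.st N.ma (true :: N.bi)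
    else P.start (P.ix N) N.nn N.ma N.bi
  else
    bif decide (N.bu = 0) then ndF else nd2 N.nn N.st N.ma N.rr.tail N.gg (N.bu - 1)

/-- Second child. -/
def chB (N : Nd) : Nd :=
  bif decide (N.md = 0) then
    bif (P.hits N).isEmpty then nd0 N.nn (N.st - 1) (nonuL (N.oo ++ N.ma), unitL (N.oo ++ N.ma))
    else nd0 N.nn N.st (stepMB k (P.S (P.ix N)).W.th N.oo N.ma)
  else bif decide (N.md = 1) then
    bif decide (N.bi.length < P.bits (P.ix N) N.nn) then nd1 N.nn N.st N.ma (false :: N.bi)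
    else ndF
  else nd2 N.nn N.st N.ma N.rr.tail (N.rr.headD 0 :: N.gg) N.bu

/-- Leaves. -/
def leaf (N : Nd) : Bool :=
  bif decide (N.md = 0) then
    deadL (N.oo ++ N.ma) || ((P.hits N).isEmpty && decide (N.st = 0))
  else bif decide (N.md = 1) then false
  else bif decide (N.md = 2) then N.rr.isEmpty
  else true

/-- The formula of a leaf. -/
def fml (N : Nd) : ℕ × LFam :=
  bif decide (N.md = 0) then
    bif !(deadL (N.oo ++ N.ma)) && decide (N.nn ≤ P.uq * (unitL (N.oo ++ N.ma)).length) then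
      reduceX [] N.nn (N.oo ++ N.ma)
    else (0, [[]])
  else bif decide (N.md = 2) then reduceX N.gg N.nn N.ma
  else (0, [[]])

/-- The root. -/
noncomputable def root (q : ℕ × LFam) : Nd := nd0 (q.1 + k) P.I (initF k q.1 q.2, [])

/-! ### Potential and invariant -/

/-- The potential of the items procedure. -/
noncomputable def mid (σ : ℝ) (i n U : ℕ) : ℝ :=
  (σ - P.d i - P.γ i) * n - 3 * s / 4 * U - s / 16 / 2 ^ P.t i * n

open Classical in
/-- The potential. -/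
noncomputable def pot (σ : ℝ) (N : Nd) : ℝ :=
  if N.md = 0 then
    if Dead (toF (N.oo ++ N.ma)) then 0
    else P.κ + N.st + (σ - P.d N.st) * N.nn - wgt (P.S N.st).W.a (toF N.ma)
  else if N.md = 1 then
    P.w + 1 + P.mid σ N.st N.nn (num (toF N.ma) 1) + ((P.bits N.st N.nn : ℕ) - (N.bi.length : ℝ))
  else if N.md = 2 then
    P.w + σ * (N.nn - num (toF N.ma) 1 - N.gg.length - N.rr.length) + P.y * N.rr.length
      + N.bu * (P.w + σ)
  else 0

/-- The families of modes 1 and 2. -/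
structure Fine (k n : ℕ) (L : LFam) : Prop where
  linv : LInv L
  ov : Over n (toF L)
  anti : Anti (toF L)
  size : ∀ C ∈ toF L, 1 ≤ C.card ∧ C.card ≤ k
  nt : NT (toF L)
  live : ¬ Dead (toF L)

/-- The invariant. -/
def Pre (m : ℕ) (N : Nd) : Prop :=
  (∃ (i : ℕ) (O M : LFam), N = nd0 (m + k) i (O, M) ∧ i ≤ P.I ∧ GoodM (P.S i).W (m + k) O M) ∨
  (∃ (i : ℕ) (L : LFam) (b : List Bool), N = nd1 (m + k) i L b ∧ 1 ≤ i ∧ i ≤ P.I ∧
    Fine k (m + k) L ∧ b.length ≤ P.bits i (m + k)) ∨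
  (∃ (i : ℕ) (L : LFam) (R G : List ℕ) (c : ℕ), N = nd2 (m + k) i L R G c ∧ i ≤ P.I ∧
    Fine k (m + k) L ∧ (R ++ G).Nodup ∧
    (∀ x ∈ R ++ G, x < m + k ∧ hasVar x (unitsL L) = false) ∧ c ≤ m + k) ∨
  N = ndF

end Pars

end Pool.Agent.H46.SK

end S_Node

section S_ND0

/-!
# Module ND0: the potential in mode 0

`n = m + k`, `U = num (toF (O ++ M)) 1 ≤ n` (`num_one_le`), `d_i + γ_i ≤ s / 4` (`aux_d`: for `i = 0` by `hd0` and `uq ≥ 1`,
for `i ≥ 1` by `hdt`).  By `MInv.wgt_le`: for a live node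
`pot N ≥ κ + i + (σ - d_i - γ_i) n - (3 s / 4) U ≥ κ ≥ (S i).κ` (`pot0_ge`, `κ_le_pot0`).
* `hits ≠ []`: the children are `nd0 n i (stepMA ..)`, `nd0 n i (stepMB ..)` (`ix N = min i I = i`); `GoodM.step`.  A dead child has
  potential `0 ≤ κ - x ≤ pot N - x`.
* `hits = []`, `i ≥ 1`: `chA = nd1 n i (O ++ M) []` with potential
  `w + 1 + mid σ i n U + bits i n ≤ pot N - 1` by `hκt` (for `i - 1 < I`); `chB = nd0 n (i - 1) (nonuL .., unitL ..)`, `GoodM.restart`,
  `wgt_units`: potential `κ + (i - 1) + (σ - d_(i-1)) n - (3 s / 4) U ≤ pot N - 1` by `hdn`.  Charges `x = y = 1`.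
-/

set_option autoImplicit false

namespace Pool.Agent.H46.SK.Pars

open Finset Pool.Agent.H14.ETH

variable {k : ℕ} {s : ℝ} (P : Pars k s)

theorem aux_d (hs : 0 < s) {i : ℕ} (hi : i ≤ P.I) : P.d i + P.γ i ≤ s / 4 := by
  rcases Nat.eq_zero_or_pos i with rfl | h0
  · have h1 := P.hd0
    have h2 : (1 : ℝ) ≤ P.uq := by exact_mod_cast P.huq
    have h3 : s / (4 * P.uq) ≤ s / 4 := by
      apply div_le_div_of_nonneg_left hs.le (by norm_num)
      linarith
    linarith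
  · obtain ⟨j, rfl⟩ : ∃ j, i = j + 1 := ⟨i - 1, by omega⟩
    have h1 := P.hdt j (by omega)
    have h2 : (1 : ℝ) ≤ 2 ^ P.t (j + 1) := one_le_pow₀ (by norm_num)
    have h3 : s / 16 / 2 ^ P.t (j + 1) ≤ s / 16 := div_le_self (by positivity) h2
    linarith

theorem nd0_pot_live {σ : ℝ} {n i : ℕ} {O M : LFam} (hd : ¬ Dead (toF (O ++ M))) :
    P.pot σ (nd0 n i (O, M)) =
      P.κ + i + (σ - P.d i) * n - wgt (P.S i).W.a (toF M) := by
  unfold pot nd0 Nd.md Nd.oo Nd.ma Nd.st Nd.nn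
  simp only [if_true]
  rw [if_neg hd]

theorem nd0_pot_dead {σ : ℝ} {n i : ℕ} {O M : LFam} (hd : Dead (toF (O ++ M))) :
    P.pot σ (nd0 n i (O, M)) = 0 := by
  unfold pot nd0 Nd.md Nd.oo Nd.ma
  simp only [if_true]
  rw [if_pos hd]

theorem pot0_ge (hs : 0 < s) {σ : ℝ} (hσ : s ≤ σ) {n i : ℕ} {O M : LFam} (hi : i ≤ P.I)
    (h : GoodM (P.S i).W n O M) (hd : ¬ Dead (toF (O ++ M))) :
    P.κ + i + (σ - P.d i - P.γ i) * n - 3 * s / 4 * num (toF (O ++ M)) 1 ≤
      P.pot σ (nd0 n i (O, M)) := by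
  rw [P.nd0_pot_live hd]
  have h1 := MInv.wgt_le (P.S i) h.inv
  linarith

theorem κ_le_pot0 (hs : 0 < s) {σ : ℝ} (hσ : s ≤ σ) {n i : ℕ} {O M : LFam} (hi : i ≤ P.I)
    (h : GoodM (P.S i).W n O M) (hd : ¬ Dead (toF (O ++ M))) :
    P.κ + i ≤ P.pot σ (nd0 n i (O, M)) := by
  have h1 := P.pot0_ge hs hσ hi h hd
  have h2 := P.aux_d hs hi
  have h3 : ((num (toF (O ++ M)) 1 : ℕ) : ℝ) ≤ n := by exact_mod_cast num_one_le h.inv.ov hd
  have h4 : (0 : ℝ) ≤ n := Nat.cast_nonneg n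
  have h5 : (s - s / 4) * n ≤ (σ - P.d i - P.γ i) * n :=
    mul_le_mul_of_nonneg_right (by linarith) h4
  have h6 : 3 * s / 4 * (num (toF (O ++ M)) 1 : ℕ) ≤ 3 * s / 4 * n :=
    mul_le_mul_of_nonneg_left h3 (by positivity)
  linarith

theorem nd0_child {σ : ℝ} {n i : ℕ} {O M O' M' : LFam} {x : ℝ}
    (hd : ¬ Dead (toF (O ++ M))) (hκ : x ≤ P.pot σ (nd0 n i (O, M)))
    (hw : wgt (P.S i).W.a (toF M) + x ≤ wgt (P.S i).W.a (toF M')) :
    P.pot σ (nd0 n i (O', M')) ≤ P.pot σ (nd0 n i (O, M)) - x := by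
  by_cases hd' : Dead (toF (O' ++ M'))
  · rw [P.nd0_pot_dead hd']
    linarith
  · rw [P.nd0_pot_live hd', P.nd0_pot_live hd]
    linarith

theorem node0 (hk : 3 ≤ k) (hs : 0 < s) {σ : ℝ} (hσ : s ≤ σ) {m i : ℕ} {O M : LFam}
    (hi : i ≤ P.I) (h : GoodM (P.S i).W (m + k) O M)
    (hl : P.leaf (nd0 (m + k) i (O, M)) = false) :
    P.Pre m (P.chA (nd0 (m + k) i (O, M))) ∧ P.Pre m (P.chB (nd0 (m + k) i (O, M))) ∧
      ∃ x y : ℝ, P.η ≤ x ∧ P.η ≤ y ∧
        P.pot σ (P.chA (nd0 (m + k) i (O, M))) ≤ P.pot σ (nd0 (m + k) i (O, M)) - x ∧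
        P.pot σ (P.chB (nd0 (m + k) i (O, M))) ≤ P.pot σ (nd0 (m + k) i (O, M)) - y ∧
        (2 : ℝ) ^ (-x) + (2 : ℝ) ^ (-y) ≤ 1 := by
  have hix : P.ix (nd0 (m + k) i (O, M)) = i := by
    unfold ix nd0 Nd.st
    exact min_eq_left hi
  have hhits : P.hits (nd0 (m + k) i (O, M)) = hitsM k (P.S i).W.th O M := by
    unfold hits
    rw [hix]
    rfl
  have hmd : (nd0 (m + k) i (O, M)).md = 0 := rfl
  have hlf : (deadL (O ++ M) || ((hitsM k (P.S i).W.th O M).isEmpty && decide (i = 0))) =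
      false := by
    rw [← hhits]
    exact hl
  rw [Bool.or_eq_false_iff] at hlf
  obtain ⟨hdl, hh⟩ := hlf
  have hd : ¬ Dead (toF (O ++ M)) := by
    rw [← deadL_iff h.linv, hdl]
    simp
  have hκ := P.κ_le_pot0 hs hσ hi h hd
  have hi0 : (0 : ℝ) ≤ i := Nat.cast_nonneg i
  by_cases hne : hitsM k (P.S i).W.th O M = []
  · -- end of the stage
    have hi1 : 1 ≤ i := by
      rw [hne] at hh
      simp at hh
      omega
    have hA : P.chA (nd0 (m + k) i (O, M)) = nd1 (m + k) i (O ++ M) [] := by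
      unfold chA
      rw [hmd, hhits, hne]
      rfl
    have hB : P.chB (nd0 (m + k) i (O, M)) =
        nd0 (m + k) (i - 1) (nonuL (O ++ M), unitL (O ++ M)) := by
      unfold chB
      rw [hmd, hhits, hne]
      rfl
    obtain ⟨g1, g2, g3⟩ := GoodM.restart (W' := (P.S (i - 1)).W) (by omega) h (P.S (i - 1)).top
    have hge := P.pot0_ge hs hσ hi h hd
    rw [hA, hB]
    refine ⟨Or.inr (Or.inl ⟨i, O ++ M, [], rfl, hi1, hi, ?_, by simp⟩),
      Or.inl ⟨i - 1, _, _, rfl, by omega, g1⟩, 1, 1, P.hη1, P.hη1, ?_, ?_, ?_⟩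
    · exact ⟨h.linv, h.inv.ov, h.inv.anti, h.inv.size, h.nt, hd⟩
    · have hp : P.pot σ (nd1 (m + k) i (O ++ M) []) =
          P.w + 1 + P.mid σ i (m + k) (num (toF (O ++ M)) 1) + ((bits P i (m + k) : ℕ) : ℝ) := by
        unfold pot nd1 Nd.md Nd.st Nd.nn Nd.ma Nd.bi
        simp
      have hb := P.hκt (i - 1) (by omega) (m + k)
      have e : i - 1 + 1 = i := by omega
      rw [e] at hb
      rw [hp]
      unfold mid bits
      push_cast at hb hge ⊢
      linarith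
    · have hd' : ¬ Dead (toF (nonuL (O ++ M) ++ unitL (O ++ M))) := by rw [g2]; exact hd
      rw [P.nd0_pot_live hd', g3, wgt_units (P.S (i - 1))]
      have hn := P.hdn (i - 1) (by omega)
      have e : i - 1 + 1 = i := by omega
      rw [e] at hn
      have e2 : ((i - 1 : ℕ) : ℝ) = (i : ℝ) - 1 := by
        rw [Nat.cast_sub hi1]; simp
      rw [e2]
      have h4 : (0 : ℝ) ≤ ((m + k : ℕ) : ℝ) := Nat.cast_nonneg _
      have h5 : (σ - P.d (i - 1)) * ((m + k : ℕ) : ℝ) ≤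
          (σ - P.d i - P.γ i) * ((m + k : ℕ) : ℝ) :=
        mul_le_mul_of_nonneg_right (by linarith) h4
      linarith
    · norm_num [Real.rpow_neg]
  · have hA : P.chA (nd0 (m + k) i (O, M)) =
        nd0 (m + k) i (stepMA k (P.S i).W.th O M) := by
      have hne' : (P.hits (nd0 (m + k) i (O, M))).isEmpty = false := by
        rw [hhits]
        simpa using hne
      unfold chA
      rw [hmd, hne', hix]
      rfl
    have hB : P.chB (nd0 (m + k) i (O, M)) =
        nd0 (m + k) i (stepMB k (P.S i).W.th O M) := by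
      have hne' : (P.hits (nd0 (m + k) i (O, M))).isEmpty = false := by
        rw [hhits]
        simpa using hne
      unfold chB
      rw [hmd, hne', hix]
      rfl
    obtain ⟨gA, gB, -, -, -, x, y, hx1, hx2, hy1, hy2, hxy, wA, wB⟩ := GoodM.step (P.S i) h hne
    have hκS := P.hκS i hi
    have hηS := P.hηS i hi
    rw [hA, hB]
    refine ⟨Or.inl ⟨i, (stepMA k (P.S i).W.th O M).1, (stepMA k (P.S i).W.th O M).2, rfl, hi,
      gA⟩, Or.inl ⟨i, (stepMB k (P.S i).W.th O M).1, (stepMB k (P.S i).W.th O M).2, rfl, hi,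
      gB⟩, x, y, by linarith, by linarith, ?_, ?_, hxy⟩
    · exact P.nd0_child (O' := (stepMA k (P.S i).W.th O M).1) hd (by linarith) wA
    · exact P.nd0_child (O' := (stepMB k (P.S i).W.th O M).1) hd (by linarith) wB

end Pool.Agent.H46.SK.Pars

end S_ND0

section S_ND1

/-!
# Module ND1: the potential in modes 1 and 2

`n = m + k`, `U = num (toF L) 1 ≤ n` (`num_one_le`).
* `mid_nonneg`: for `1 ≤ i ≤ I`: `d_i + γ_i ≤ s / 16 / 2 ^ t_i ≤ s / 16`, so `mid ≥ (s - s/16 - s/16 - 3 s/4) n ≥ 0`.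
* `start_le`: let `x = (itemsL ..).length`, `c = x / 2 ^ w ≤ x / 2 ^ w` (real division).  If `n ≤ 4 2 ^ t x` the potential of
  `nd2 n i L X [] c` is `w + σ (n - U - x) + y x + c (w + σ) ≤ w + σ (n - U) - x (σ (1 - 1/2^w) - y - w / 2^w)
  ≤ w + σ (n - U) - (s/2) x ≤ w + σ (n - U) - s / 8 / 2 ^ t n ≤ w + mid σ i n U`, using `gain`, `σ ≥ s` and
  `d_i + γ_i ≤ s / 16 / 2 ^ t_i` (`hdt` for `i - 1 < I`).  Otherwise the node is `ndF` with potential `0`.
* `node1`: if `b.length < bits i n` the children are `nd1 n i L (true :: b)`, `nd1 n i L (false :: b)`, potential `- 1` each; else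
  (`b.length = bits`) the children are `start` and `ndF`; charges `1`, `1`.  Invariant of `start`: `itemsL` is a sublist of `List.range n`
  (`chunkSel_sublist`), its elements are no variables of unit clauses, `c ≤ x ≤ n`.
* `node2`: `R = x :: R'`; charges `w`, `y` (`kraft`, `1 ≤ w`, `η ≤ 1`, `η ≤ y`).  Bad child: `ndF` if `c = 0` (potential `0 ≤ pot - w`
  because `U + |G| + |R| ≤ n`: the items are different, less than `n`, and not in `unitVars`; `card_unitVars`), else potential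
  `pot - w - y`.  Good child: `pot - y`.
-/

set_option autoImplicit false

namespace Pool.Agent.H46.SK.Pars

open Finset Pool.Agent.H14.ETH

variable {k : ℕ} {s : ℝ} (P : Pars k s)

theorem count_le {n : ℕ} {L : LFam} (hL : Fine k n L) {X : List ℕ} (hX : X.Nodup)
    (h : ∀ x ∈ X, x < n ∧ hasVar x (unitsL L) = false) : num (toF L) 1 + X.length ≤ n := by
  have h1 : Disjoint (unitVars (toF L)) X.toFinset := by
    rw [Finset.disjoint_left]
    intro x hx hx'
    have h2 := hasVar_unitsL.2 ((mem_unitVars hL.linv).1 hx)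
    rw [(h x (List.mem_toFinset.1 hx')).2] at h2
    exact absurd h2 (by simp)
  have h2 : unitVars (toF L) ∪ X.toFinset ⊆ Finset.range n := by
    intro x hx
    rcases Finset.mem_union.1 hx with hx | hx
    · exact unitVars_subset hL.ov hx
    · exact Finset.mem_range.2 (h x (List.mem_toFinset.1 hx)).1
  have h3 := Finset.card_le_card h2
  rw [Finset.card_union_of_disjoint h1, card_unitVars hL.live, List.toFinset_card_of_nodup hX,
    Finset.card_range] at h3
  exact h3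

theorem nd1_loss (hs : 0 < s) {i : ℕ} (h1 : 1 ≤ i) (hi : i ≤ P.I) :
    P.d i + P.γ i ≤ s / 16 / 2 ^ P.t i ∧ s / 16 / 2 ^ P.t i ≤ s / 16 := by
  have h2 := P.hdt (i - 1) (by omega)
  rw [Nat.sub_add_cancel h1] at h2
  exact ⟨h2, div_le_self (by positivity) (one_le_pow₀ (by norm_num))⟩

theorem mid_nonneg (hs : 0 < s) {σ : ℝ} (hσ : s ≤ σ) {i n U : ℕ} (h1 : 1 ≤ i) (hi : i ≤ P.I)
    (hU : U ≤ n) : 0 ≤ P.mid σ i n U := by
  obtain ⟨h2, h3⟩ := P.nd1_loss hs h1 hi
  have hU' : (U : ℝ) ≤ n := by exact_mod_cast hU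
  have hn : (0 : ℝ) ≤ n := Nat.cast_nonneg n
  have e1 : (P.d i + P.γ i) * n ≤ s / 16 * n := mul_le_mul_of_nonneg_right (h2.trans h3) hn
  have e2 : s / 16 / 2 ^ P.t i * n ≤ s / 16 * n := mul_le_mul_of_nonneg_right h3 hn
  have e3 : s * n ≤ σ * n := mul_le_mul_of_nonneg_right hσ hn
  have e4 : 3 * s / 4 * U ≤ 3 * s / 4 * n := mul_le_mul_of_nonneg_left hU' (by positivity)
  have e5 : 0 ≤ s * n := by positivity
  unfold mid
  nlinarith

theorem nd1_pot_ndF (σ : ℝ) : P.pot σ ndF = 0 := by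
  simp [pot, ndF, Nd.md]

theorem nd1_pot_nd1 (σ : ℝ) (n i : ℕ) (L : LFam) (b : List Bool) :
    P.pot σ (nd1 n i L b) =
      P.w + 1 + P.mid σ i n (num (toF L) 1) + ((P.bits i n : ℕ) - (b.length : ℝ)) := by
  simp [pot, nd1, Nd.md, Nd.st, Nd.nn, Nd.ma, Nd.bi]

theorem nd1_pot_nd2 (σ : ℝ) (n i : ℕ) (L : LFam) (R G : List ℕ) (c : ℕ) :
    P.pot σ (nd2 n i L R G c) =
      P.w + σ * (n - num (toF L) 1 - G.length - R.length) + P.y * R.length + c * (P.w + σ) := by
  simp [pot, nd2, Nd.md, Nd.nn, Nd.ma, Nd.gg, Nd.rr, Nd.bu]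

theorem start_le (hs : 0 < s) {σ : ℝ} (hσ : s ≤ σ) {i n : ℕ} {L : LFam} (hL : Fine k n L)
    (h1 : 1 ≤ i) (hi : i ≤ P.I) (b : List Bool) :
    P.pot σ (P.start i n L b) ≤ P.w + P.mid σ i n (num (toF L) 1) := by
  obtain ⟨h2, h3⟩ := P.nd1_loss hs h1 hi
  have hn : (0 : ℝ) ≤ n := Nat.cast_nonneg n
  have hw : (0 : ℝ) ≤ P.w := Nat.cast_nonneg _
  unfold start
  by_cases hc : n ≤ 4 * 2 ^ P.t i * (itemsL n (P.t i) b L).length
  · rw [decide_eq_true hc, cond_true, P.nd1_pot_nd2]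
    set x := (itemsL n (P.t i) b L).length with hx
    have hx0 : (0 : ℝ) ≤ x := Nat.cast_nonneg x
    have hU0 : (0 : ℝ) ≤ (num (toF L) 1 : ℕ) := Nat.cast_nonneg _
    have hc' : (n : ℝ) ≤ 4 * 2 ^ P.t i * x := by exact_mod_cast hc
    have hdiv : ((x / 2 ^ P.w : ℕ) : ℝ) ≤ (x : ℝ) / 2 ^ P.w := by
      have := Nat.cast_div_le (α := ℝ) (m := x) (n := 2 ^ P.w)
      simpa using this
    have e1 : ((x / 2 ^ P.w : ℕ) : ℝ) * (P.w + σ) ≤ (x : ℝ) / 2 ^ P.w * (P.w + σ) :=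
      mul_le_mul_of_nonneg_right hdiv (by linarith)
    have h2w : (1 : ℝ) / 2 ^ P.w ≤ 1 := by
      rw [div_le_one (by positivity)]
      exact one_le_pow₀ (by norm_num)
    have e2 : (1 - 1 / 2 ^ P.w) * s ≤ (1 - 1 / 2 ^ P.w) * σ :=
      mul_le_mul_of_nonneg_left hσ (by linarith)
    have e3 : s / 2 * x ≤ ((1 - 1 / 2 ^ P.w) * σ - P.y - P.w / 2 ^ P.w) * x :=
      mul_le_mul_of_nonneg_right (by linarith [P.gain]) hx0
    have e4 : s / 8 / 2 ^ P.t i * n ≤ s / 2 * x := by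
      have h4 : s / 8 / 2 ^ P.t i * n ≤ s / 8 / 2 ^ P.t i * (4 * 2 ^ P.t i * x) :=
        mul_le_mul_of_nonneg_left hc' (by positivity)
      have h5 : s / 8 / 2 ^ P.t i * (4 * 2 ^ P.t i * x) = s / 2 * x := by
        field_simp
        ring
      rw [h5] at h4
      exact h4
    have e5 : (P.d i + P.γ i) * n ≤ s / 16 / 2 ^ P.t i * n := mul_le_mul_of_nonneg_right h2 hn
    have e6 : 3 * s / 4 * (num (toF L) 1 : ℕ) ≤ σ * (num (toF L) 1 : ℕ) :=
      mul_le_mul_of_nonneg_right (by linarith) hU0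
    have e7 : (x : ℝ) / 2 ^ P.w * (P.w + σ) = x * (P.w / 2 ^ P.w) + x * (1 / 2 ^ P.w * σ) := by
      ring
    have e8 : s / 8 / 2 ^ P.t i * n = s / 16 / 2 ^ P.t i * n + s / 16 / 2 ^ P.t i * n := by
      ring
    unfold mid
    simp only [List.length_nil, Nat.cast_zero, sub_zero]
    nlinarith
  · rw [decide_eq_false hc, cond_false, P.nd1_pot_ndF]
    have := P.mid_nonneg hs hσ h1 hi (num_one_le hL.ov hL.live)
    linarith

theorem nd1_mem_items {n t : ℕ} {b : List Bool} {L : LFam} {x : ℕ} (hx : x ∈ itemsL n t b L) :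
    x < n ∧ hasVar x (unitsL L) = false := by
  unfold itemsL at hx
  rw [List.mem_filter] at hx
  refine ⟨List.mem_range.1 ((chunkSel_sublist _ _ _ _).subset hx.1), ?_⟩
  simpa using hx.2

theorem nd1_items_sublist (n t : ℕ) (b : List Bool) (L : LFam) :
    (itemsL n t b L).Sublist (List.range n) :=
  List.filter_sublist.trans (chunkSel_sublist _ _ _ _)

theorem nd1_pre_start {m i : ℕ} {L : LFam} (hi : i ≤ P.I) (hL : Fine k (m + k) L)
    (b : List Bool) : P.Pre m (P.start i (m + k) L b) := by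
  unfold start
  by_cases hc : m + k ≤ 4 * 2 ^ P.t i * (itemsL (m + k) (P.t i) b L).length
  · rw [decide_eq_true hc, cond_true]
    refine Or.inr (Or.inr (Or.inl ⟨i, L, _, _, _, rfl, hi, hL, ?_, ?_, ?_⟩))
    · rw [List.append_nil]
      exact (nd1_items_sublist _ _ _ _).nodup List.nodup_range
    · intro x hx
      rw [List.append_nil] at hx
      exact nd1_mem_items hx
    · refine (Nat.div_le_self _ _).trans ?_
      have := (nd1_items_sublist (m + k) (P.t i) b L).length_le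
      rwa [List.length_range] at this
  · rw [decide_eq_false hc, cond_false]
    exact Or.inr (Or.inr (Or.inr rfl))

theorem nd1_half : (2 : ℝ) ^ (-(1 : ℝ)) + (2 : ℝ) ^ (-(1 : ℝ)) ≤ 1 := by
  rw [Real.rpow_neg (by norm_num), Real.rpow_one]
  norm_num

theorem node1 (hs : 0 < s) {σ : ℝ} (hσ : s ≤ σ) {m i : ℕ} {L : LFam} {b : List Bool}
    (h1 : 1 ≤ i) (hi : i ≤ P.I) (hL : Fine k (m + k) L) (hb : b.length ≤ P.bits i (m + k)) :
    P.Pre m (P.chA (nd1 (m + k) i L b)) ∧ P.Pre m (P.chB (nd1 (m + k) i L b)) ∧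
      ∃ x y : ℝ, P.η ≤ x ∧ P.η ≤ y ∧
        P.pot σ (P.chA (nd1 (m + k) i L b)) ≤ P.pot σ (nd1 (m + k) i L b) - x ∧
        P.pot σ (P.chB (nd1 (m + k) i L b)) ≤ P.pot σ (nd1 (m + k) i L b) - y ∧
        (2 : ℝ) ^ (-x) + (2 : ℝ) ^ (-y) ≤ 1 := by
  have hix : P.ix (nd1 (m + k) i L b) = i := min_eq_left hi
  have hA : P.chA (nd1 (m + k) i L b) =
      bif decide (b.length < P.bits i (m + k)) then nd1 (m + k) i L (true :: b)
      else P.start i (m + k) L b := by
    unfold chA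
    rw [hix]
    rfl
  have hB : P.chB (nd1 (m + k) i L b) =
      bif decide (b.length < P.bits i (m + k)) then nd1 (m + k) i L (false :: b) else ndF := by
    unfold chB
    rw [hix]
    rfl
  rw [hA, hB]
  by_cases hc : b.length < P.bits i (m + k)
  · rw [decide_eq_true hc, cond_true, cond_true]
    refine ⟨Or.inr (Or.inl ⟨i, L, _, rfl, h1, hi, hL, hc⟩),
      Or.inr (Or.inl ⟨i, L, _, rfl, h1, hi, hL, hc⟩), 1, 1, P.hη1, P.hη1, ?_, ?_, nd1_half⟩
    · rw [P.nd1_pot_nd1, P.nd1_pot_nd1, List.length_cons]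
      push_cast
      linarith
    · rw [P.nd1_pot_nd1, P.nd1_pot_nd1, List.length_cons]
      push_cast
      linarith
  · rw [decide_eq_false hc, cond_false, cond_false]
    have he : b.length = P.bits i (m + k) := by omega
    refine ⟨P.nd1_pre_start hi hL b, Or.inr (Or.inr (Or.inr rfl)), 1, 1, P.hη1, P.hη1, ?_, ?_,
      nd1_half⟩
    · have := P.start_le hs hσ hL h1 hi b
      rw [P.nd1_pot_nd1, he]
      linarith
    · have h2 := P.mid_nonneg hs hσ h1 hi (num_one_le hL.ov hL.live)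
      have hw : (0 : ℝ) ≤ P.w := Nat.cast_nonneg _
      rw [P.nd1_pot_nd1, P.nd1_pot_ndF, he]
      linarith

theorem node2 (hs : 0 < s) {σ : ℝ} (hσ : s ≤ σ) {m i : ℕ} {L : LFam} {x₀ : ℕ} {R G : List ℕ}
    {c : ℕ} (hi : i ≤ P.I) (hL : Fine k (m + k) L) (hnd : (x₀ :: R ++ G).Nodup)
    (hX : ∀ x ∈ x₀ :: R ++ G, x < m + k ∧ hasVar x (unitsL L) = false) (hc : c ≤ m + k) :
    P.Pre m (P.chA (nd2 (m + k) i L (x₀ :: R) G c)) ∧
      P.Pre m (P.chB (nd2 (m + k) i L (x₀ :: R) G c)) ∧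
      ∃ x y : ℝ, P.η ≤ x ∧ P.η ≤ y ∧
        P.pot σ (P.chA (nd2 (m + k) i L (x₀ :: R) G c)) ≤
          P.pot σ (nd2 (m + k) i L (x₀ :: R) G c) - x ∧
        P.pot σ (P.chB (nd2 (m + k) i L (x₀ :: R) G c)) ≤
          P.pot σ (nd2 (m + k) i L (x₀ :: R) G c) - y ∧
        (2 : ℝ) ^ (-x) + (2 : ℝ) ^ (-y) ≤ 1 := by
  have hA : P.chA (nd2 (m + k) i L (x₀ :: R) G c) =
      bif decide (c = 0) then ndF else nd2 (m + k) i L R G (c - 1) := rfl
  have hB : P.chB (nd2 (m + k) i L (x₀ :: R) G c) = nd2 (m + k) i L R (x₀ :: G) c := rfl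
  rw [hA, hB]
  have hw1 : (1 : ℝ) ≤ P.w := by exact_mod_cast P.hw
  have hy0 : 0 < P.y := lt_of_lt_of_le P.hη P.hy
  have hσ0 : 0 < σ := lt_of_lt_of_le hs hσ
  have hnd' : x₀ ∉ R ++ G ∧ (R ++ G).Nodup := by
    rw [List.cons_append, List.nodup_cons] at hnd
    exact hnd
  have hperm : (R ++ x₀ :: G).Perm (x₀ :: R ++ G) := List.perm_middle
  have hcnt := count_le hL hnd hX
  rw [List.length_append, List.length_cons] at hcnt
  have hcnt' : ((num (toF L) 1 : ℕ) : ℝ) + (R.length + 1 + G.length) ≤ ((m + k : ℕ) : ℝ) := by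
    exact_mod_cast hcnt
  have preB : P.Pre m (nd2 (m + k) i L R (x₀ :: G) c) := by
    refine Or.inr (Or.inr (Or.inl ⟨i, L, _, _, _, rfl, hi, hL, hperm.nodup_iff.2 hnd, ?_, hc⟩))
    intro x hx
    exact hX x (hperm.mem_iff.1 hx)
  have potB : P.pot σ (nd2 (m + k) i L R (x₀ :: G) c) ≤
      P.pot σ (nd2 (m + k) i L (x₀ :: R) G c) - P.y := by
    rw [P.nd1_pot_nd2, P.nd1_pot_nd2, List.length_cons, List.length_cons]
    push_cast
    nlinarith
  by_cases hc0 : c = 0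
  · rw [decide_eq_true hc0, cond_true]
    refine ⟨Or.inr (Or.inr (Or.inr rfl)), preB, P.w, P.y, P.hη1.trans hw1, P.hy, ?_, potB,
      P.kraft⟩
    rw [P.nd1_pot_ndF, P.nd1_pot_nd2, hc0, List.length_cons]
    have e1 : 0 ≤ σ * (((m + k : ℕ) : ℝ) - (num (toF L) 1 : ℕ) - G.length - (R.length + 1)) :=
      mul_nonneg hσ0.le (by linarith)
    have e2 : 0 ≤ P.y * ((R.length : ℝ) + 1) := by positivity
    push_cast at e1 ⊢
    linarith
  · rw [decide_eq_false hc0, cond_false]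
    refine ⟨Or.inr (Or.inr (Or.inl ⟨i, L, _, _, _, rfl, hi, hL, hnd'.2, ?_, by omega⟩)), preB,
      P.w, P.y, P.hη1.trans hw1, P.hy, ?_, potB, P.kraft⟩
    · intro x hx
      exact hX x (List.mem_cons_of_mem _ hx)
    · obtain ⟨c', rfl⟩ := Nat.exists_eq_succ_of_ne_zero hc0
      rw [P.nd1_pot_nd2, P.nd1_pot_nd2, List.length_cons, Nat.succ_eq_add_one,
        Nat.add_sub_cancel]
      push_cast
      nlinarith

end Pool.Agent.H46.SK.Pars

end S_ND1

section S_NDL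

/-!
# Module NDL: leaves, nonnegativity, inner nodes

* `pot_nonneg`: the four cases of `Pre`; mode 0: `0` if dead, else `κ_le_pot0` and `κ ≥ 0` (`κ ≥ (S i).κ ≥ (S i).η > 0`); mode 1:
  `mid_nonneg`, `b.length ≤ bits`; mode 2: `count_le`, `σ ≥ 0`, `y ≥ 0`; `ndF`: `0`.
* `node_spec`: combine `node0`, `node1`, `node2`; `ndF` is a leaf, `nd2 .. [] ..` is a leaf.
* `leaf_spec`: mode 0: the formula is `(0, [[]])` or `reduceX [] n (O ++ M)`; in the second case the node is live, `hits = []`, `i = 0`,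
  `n ≤ uq * U` where `U = (unitL (O ++ M)).length = num (toF (O ++ M)) 1`; `reduceX_count` with `G = []`: `n' + U = n`; by `pot0_ge`
  (`i = 0`) it suffices that `(d_0 + γ_0) n ≤ (σ - 3 s / 4) U`, and `(s/4) U ≥ (s / 4) n / uq ≥ (d_0 + γ_0) n`.
  Mode 2: `R = []`, `reduceX_count`: `σ n' = σ (n - U - |G|) ≤ pot`.  `reduceX_cnf`.  `IsCNF K 0 [[]]` is clear.
-/

set_option autoImplicit false

namespace Pool.Agent.H46.SK.Pars

open Finset Pool.Agent.H14.ETH

variable {k : ℕ} {s : ℝ} (P : Pars k s)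

/-- The number of unit clauses. -/
theorem length_unitL {L : LFam} (hL : LInv L) : (unitL L).length = num (toF L) 1 := by
  unfold unitL num
  have h1 : ((toF L).filter (fun C => C.card = 1)) =
      toF (L.filter (fun C => decide (C.length = 1))) := by
    ext C
    rw [Finset.mem_filter, mem_toF, mem_toF]
    constructor
    · rintro ⟨⟨D, hD, rfl⟩, h⟩
      rw [hL.card_eq hD] at h
      exact ⟨D, List.mem_filter.2 ⟨hD, by simpa using h⟩, rfl⟩
    · rintro ⟨D, hD, rfl⟩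
      rw [List.mem_filter, decide_eq_true_iff] at hD
      exact ⟨⟨D, hD.1, rfl⟩, by rw [hL.card_eq hD.1]; exact hD.2⟩
  rw [h1, card_toF (hL.filter _)]

theorem NDL_κ_nonneg : 0 ≤ P.κ := by
  have h1 := P.hκS 0 (Nat.zero_le _)
  have h2 := (P.S 0).η_le_κ
  have h3 := (P.S 0).η_pos
  linarith

theorem NDL_y_nonneg : 0 ≤ P.y := by
  have h1 := P.hy
  have h2 := P.hη
  linarith

theorem NDL_pot0_dead {σ : ℝ} {n i : ℕ} {O M : LFam} (hd : Dead (toF (O ++ M))) :
    P.pot σ (nd0 n i (O, M)) = 0 := by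
  simp [pot, nd0, Nd.md, Nd.oo, Nd.ma, hd]

theorem NDL_pot1 {σ : ℝ} {n i : ℕ} {L : LFam} {b : List Bool} :
    P.pot σ (nd1 n i L b) =
      P.w + 1 + P.mid σ i n (num (toF L) 1) + ((P.bits i n : ℕ) - (b.length : ℝ)) := by
  simp [pot, nd1, Nd.md, Nd.nn, Nd.st, Nd.ma, Nd.bi]

theorem NDL_pot2 {σ : ℝ} {n i : ℕ} {L : LFam} {R G : List ℕ} {c : ℕ} :
    P.pot σ (nd2 n i L R G c) =
      P.w + σ * (n - num (toF L) 1 - G.length - R.length) + P.y * R.length + c * (P.w + σ) := by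
  simp [pot, nd2, Nd.md, Nd.nn, Nd.ma, Nd.rr, Nd.gg, Nd.bu]

theorem NDL_potF {σ : ℝ} : P.pot σ ndF = 0 := by
  simp [pot, ndF, Nd.md]

theorem pot_nonneg (hs : 0 < s) {σ : ℝ} (hσ : s ≤ σ) {m : ℕ} {N : Nd} (h : P.Pre m N) :
    0 ≤ P.pot σ N := by
  rcases h with ⟨i, O, M, rfl, hi, hg⟩ | ⟨i, L, b, rfl, h1, hi, hL, hb⟩ |
    ⟨i, L, R, G, c, rfl, hi, hL, hnd, hX, hc⟩ | rfl
  · by_cases hd : Dead (toF (O ++ M))
    · rw [P.NDL_pot0_dead hd]
    · have h1 := P.κ_le_pot0 hs hσ hi hg hd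
      have h2 := P.NDL_κ_nonneg
      have h3 : (0 : ℝ) ≤ i := Nat.cast_nonneg i
      linarith
  · rw [P.NDL_pot1]
    have hU : num (toF L) 1 ≤ m + k := by
      have := count_le hL (X := []) List.nodup_nil (by simp)
      simpa using this
    have h2 := P.mid_nonneg hs hσ h1 hi hU
    have h3 : (b.length : ℝ) ≤ (P.bits i (m + k) : ℕ) := by exact_mod_cast hb
    have h4 : (0 : ℝ) ≤ P.w := Nat.cast_nonneg _
    linarith
  · rw [P.NDL_pot2]
    have h1 := count_le hL hnd hX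
    rw [List.length_append] at h1
    have h2 : ((num (toF L) 1 : ℕ) : ℝ) + (R.length + G.length) ≤ ((m + k : ℕ) : ℝ) := by
      exact_mod_cast h1
    have h3 : 0 ≤ σ := hs.le.trans hσ
    have h4 := P.NDL_y_nonneg
    have h5 : (0 : ℝ) ≤ P.w := Nat.cast_nonneg _
    have h6 : 0 ≤ σ * (((m + k : ℕ) : ℝ) - num (toF L) 1 - G.length - R.length) :=
      mul_nonneg h3 (by linarith)
    have h7 : 0 ≤ P.y * (R.length : ℝ) := mul_nonneg h4 (Nat.cast_nonneg _)
    have h8 : 0 ≤ (c : ℝ) * (P.w + σ) := mul_nonneg (Nat.cast_nonneg _) (by linarith)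
    linarith
  · rw [P.NDL_potF]

theorem node_spec (hk : 3 ≤ k) (hs : 0 < s) {σ : ℝ} (hσ : s ≤ σ) {m : ℕ} {N : Nd}
    (h : P.Pre m N) (hl : P.leaf N = false) :
    P.Pre m (P.chA N) ∧ P.Pre m (P.chB N) ∧ ∃ x y : ℝ, P.η ≤ x ∧ P.η ≤ y ∧
      P.pot σ (P.chA N) ≤ P.pot σ N - x ∧ P.pot σ (P.chB N) ≤ P.pot σ N - y ∧
        (2 : ℝ) ^ (-x) + (2 : ℝ) ^ (-y) ≤ 1 := by
  rcases h with ⟨i, O, M, rfl, hi, hg⟩ | ⟨i, L, b, rfl, h1, hi, hL, hb⟩ |
    ⟨i, L, R, G, c, rfl, hi, hL, hnd, hX, hc⟩ | rfl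
  · exact P.node0 hk hs hσ hi hg hl
  · exact P.node1 hs hσ h1 hi hL hb
  · cases R with
    | nil =>
      exfalso
      simp [leaf, nd2, Nd.md, Nd.rr] at hl
    | cons x₀ R => exact P.node2 hs hσ hi hL hnd hX hc
  · exfalso
    simp [leaf, ndF, Nd.md] at hl

theorem NDL_fml0 {n i : ℕ} {O M : LFam} : P.fml (nd0 n i (O, M)) =
    (bif !(deadL (O ++ M)) && decide (n ≤ P.uq * (unitL (O ++ M)).length) then
      reduceX [] n (O ++ M) else (0, [[]])) := rfl

theorem NDL_leaf0 {n i : ℕ} {O M : LFam} : P.leaf (nd0 n i (O, M)) =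
    (deadL (O ++ M) || ((P.hits (nd0 n i (O, M))).isEmpty && decide (i = 0))) := rfl

theorem NDL_isCNF_nil (K : ℕ) : IsCNF K 0 [[]] := by
  refine ⟨?_, List.pairwise_singleton _ _⟩
  intro C hC
  rw [List.mem_singleton] at hC
  subst hC
  exact ⟨List.nodup_nil, Nat.zero_le _, by simp⟩

theorem leaf_spec (hk : 3 ≤ k) (hs : 0 < s) {σ : ℝ} (hσ : s ≤ σ) {m : ℕ} {N : Nd}
    (h : P.Pre m N) (hl : P.leaf N = true) :
    IsCNF (2 * k - 2) (P.fml N).1 (P.fml N).2 ∧ σ * (P.fml N).1 ≤ P.pot σ N := by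
  have hpre := h
  have hnil : P.fml N = (0, [[]]) →
      IsCNF (2 * k - 2) (P.fml N).1 (P.fml N).2 ∧ σ * (P.fml N).1 ≤ P.pot σ N := by
    intro e
    rw [e]
    refine ⟨NDL_isCNF_nil _, ?_⟩
    simpa using P.pot_nonneg hs hσ hpre
  rcases h with ⟨i, O, M, rfl, hi, hg⟩ | ⟨i, L, b, rfl, h1, hi, hL, hb⟩ |
    ⟨i, L, R, G, c, rfl, hi, hL, hnd, hX, hc⟩ | rfl
  · by_cases hc : (!(deadL (O ++ M)) && decide (m + k ≤ P.uq * (unitL (O ++ M)).length)) = true
    · have ef : P.fml (nd0 (m + k) i (O, M)) = reduceX [] (m + k) (O ++ M) := by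
        rw [P.NDL_fml0, hc]
        rfl
      rw [Bool.and_eq_true, Bool.not_eq_true', decide_eq_true_iff] at hc
      obtain ⟨hdL, hn⟩ := hc
      have hd : ¬ Dead (toF (O ++ M)) := by
        rw [← deadL_iff hg.linv, hdL]
        simp
      have hi0 : i = 0 := by
        rw [P.NDL_leaf0, hdL, Bool.false_or, Bool.and_eq_true, decide_eq_true_iff] at hl
        exact hl.2
      subst hi0
      have hcount := reduceX_count (G := []) hg.linv hg.inv.ov hd List.nodup_nil (by simp) (by simp)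
      have hcnf := reduceX_cnf (G := []) (by omega : 2 ≤ k) hg.linv hg.inv.ov hg.inv.anti hd
        (fun C hC => (hg.inv.size C hC).2)
      rw [ef]
      refine ⟨hcnf, ?_⟩
      have hp := P.pot0_ge hs hσ hi hg hd
      rw [length_unitL hg.linv] at hn
      set U := num (toF (O ++ M)) 1
      set n' := (reduceX [] (m + k) (O ++ M)).1
      have hκ := P.NDL_κ_nonneg
      have hd0 := P.hd0
      have huq : (1 : ℝ) ≤ P.uq := by exact_mod_cast P.huq
      have hn' : ((m + k : ℕ) : ℝ) ≤ P.uq * U := by exact_mod_cast hn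
      have hc' : (n' : ℝ) + U = ((m + k : ℕ) : ℝ) := by
        have : n' + U = m + k := by simpa using hcount
        exact_mod_cast this
      have h1 : (P.d 0 + P.γ 0) * ((m + k : ℕ) : ℝ) ≤ s / 4 * U := by
        calc (P.d 0 + P.γ 0) * ((m + k : ℕ) : ℝ) ≤ s / (4 * P.uq) * ((m + k : ℕ) : ℝ) :=
              mul_le_mul_of_nonneg_right hd0 (Nat.cast_nonneg _)
          _ ≤ s / (4 * P.uq) * (P.uq * U) := mul_le_mul_of_nonneg_left hn' (by positivity)
          _ = s / 4 * U := by field_simp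
      have h2 : s * (U : ℝ) ≤ σ * U := mul_le_mul_of_nonneg_right hσ (Nat.cast_nonneg _)
      have h3 : σ * (n' : ℝ) = σ * ((m + k : ℕ) : ℝ) - σ * U := by rw [← hc']; ring
      rw [h3]
      refine le_trans ?_ hp
      have h4 : (((0 : ℕ) : ℝ)) = 0 := Nat.cast_zero
      rw [h4]
      linarith
    · apply hnil
      rw [Bool.not_eq_true] at hc
      rw [P.NDL_fml0, hc]
      rfl
  · exfalso
    simp [leaf, nd1, Nd.md] at hl
  · cases R with
    | cons x₀ R =>
      exfalso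
      simp [leaf, nd2, Nd.md, Nd.rr] at hl
    | nil =>
      have ef : P.fml (nd2 (m + k) i L [] G c) = reduceX G (m + k) L := by
        simp [fml, nd2, Nd.md, Nd.ma, Nd.nn, Nd.gg]
      rw [List.nil_append] at hnd
      simp only [List.nil_append] at hX
      have hcount := reduceX_count (G := G) hL.linv hL.ov hL.live hnd (fun x hx => (hX x hx).1)
        (fun x hx => (hX x hx).2)
      have hcnf := reduceX_cnf (G := G) (by omega : 2 ≤ k) hL.linv hL.ov hL.anti hL.live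
        (fun C hC => (hL.size C hC).2)
      rw [ef]
      refine ⟨hcnf, ?_⟩
      rw [P.NDL_pot2]
      set U := num (toF L) 1
      set n' := (reduceX G (m + k) L).1
      have hc' : (n' : ℝ) + U + G.length = ((m + k : ℕ) : ℝ) := by exact_mod_cast hcount
      have hw : (0 : ℝ) ≤ P.w := Nat.cast_nonneg _
      have h3 : 0 ≤ σ := hs.le.trans hσ
      have h8 : 0 ≤ (c : ℝ) * (P.w + σ) := mul_nonneg (Nat.cast_nonneg _) (by linarith)
      have h9 : ((m + k : ℕ) : ℝ) - U - G.length - (([] : List ℕ).length : ℕ) = n' := by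
        rw [List.length_nil, Nat.cast_zero]
        linarith
      rw [h9, List.length_nil, Nat.cast_zero, mul_zero]
      linarith
  · apply hnil
    simp [fml, ndF, Nd.md]

end Pool.Agent.H46.SK.Pars

end S_NDL

section S_NDS

/-!
# Module NDS: sizes of the nodes

`sz` of a tuple is computed by `Poly.sz_pair`, `Poly.sz_nat`; lists of clauses by `sz_fam_le` (file `Pool/Agent/H14/Size.lean`; for the pair `O`,
`M` use that both are sublists of `O ++ M`, so `LInv`, `Over` and the size bounds pass), lists of numbers less than `n` without repetitions by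
`sz_list_le` (each element has `sz ≤ 2 n + 1`, length at most `n`), lists of bits by `sz_list_le` and `sz_bool`; the number of bits is at
most `P.t i * (Nat.size n + 1) ≤ T (n + 1)` with `T = ∑_(i ≤ I) t i` (`Nat.size n ≤ n`).
-/

set_option autoImplicit false

namespace Pool.Agent.H46.SK

open Finset Pool.Agent.H14.ETH Pool.Agent.H83

/-- Size bound for families. -/
def NDS_fam (k n : ℕ) : ℕ :=
  ((k + 1) * (2 * n + 1) ^ k) * ((k * (2 * n + 6 + 1) + 1) + 1) + 1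

theorem NDS_fam_PB (k : ℕ) : PB (NDS_fam k) := by
  unfold NDS_fam
  have h1 : PB (fun n => 2 * n + 1) := ((PB.const 2).mul PB.id).add (PB.const 1)
  have h2 : PB (fun n => 2 * n + 6 + 1) := (((PB.const 2).mul PB.id).add (PB.const 6)).add
    (PB.const 1)
  have h3 : PB (fun n => (k + 1) * (2 * n + 1) ^ k) := (PB.const (k + 1)).mul (h1.pow k)
  have h4 : PB (fun n => (k * (2 * n + 6 + 1) + 1) + 1) :=
    (((PB.const k).mul h2).add (PB.const 1)).add (PB.const 1)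
  exact (h3.mul h4).add (PB.const 1)

theorem NDS_sz_nats {n : ℕ} {R : List ℕ} (hR : R.Nodup) (h : ∀ x ∈ R, x < n) :
    sz R ≤ n * (2 * n + 1 + 1) + 1 := by
  have h1 := E14.sz_list_le R (2 * n + 1) (by
    intro x hx
    rw [Poly.sz_nat]
    have := h x hx
    omega)
  have h2 : R.length ≤ n := by
    rw [← List.toFinset_card_of_nodup hR]
    have : R.toFinset ⊆ Finset.range n := by
      intro x hx
      exact Finset.mem_range.2 (h x (List.mem_toFinset.1 hx))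
    simpa using Finset.card_le_card this
  exact h1.trans (by have := Nat.mul_le_mul_right (2 * n + 1 + 1) h2; omega)

theorem NDS_sz_bits {B : ℕ} {b : List Bool} (h : b.length ≤ B) : sz b ≤ B * 4 + 1 := by
  have h1 := E14.sz_list_le b 3 (fun x _ => Poly.sz_bool x)
  omega

theorem NDS_linv {O M : LFam} (h : LInv (O ++ M)) : LInv O ∧ LInv M := by
  obtain ⟨h1, h2⟩ := h
  rw [List.map_append] at h2
  exact ⟨⟨fun C hC => h1 C (List.mem_append_left _ hC), (List.nodup_append.1 h2).1⟩,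
    ⟨fun C hC => h1 C (List.mem_append_right _ hC), (List.nodup_append.1 h2).2.1⟩⟩

namespace Pars

variable {k : ℕ} {s : ℝ} (P : Pars k s)

theorem exists_size_bound : ∃ S : ℕ → ℕ, PB S ∧ ∀ (m : ℕ) (N : Nd), P.Pre m N → sz N ≤ S m := by
  classical
  set T : ℕ := ∑ j ∈ Finset.range (P.I + 1), P.t j with hT
  have hid : PB (fun m : ℕ => m + k) := PB.id.add (PB.const k)
  have hn : PB (fun m : ℕ => (m + k) * (2 * (m + k) + 1 + 1) + 1) :=
    (hid.mul ((((PB.const 2).mul hid).add (PB.const 1)).add (PB.const 1))).add (PB.const 1)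
  have hb : PB (fun m : ℕ => (T * (m + k + 1)) * 4 + 1) :=
    (((PB.const T).mul (hid.add (PB.const 1))).mul (PB.const 4)).add (PB.const 1)
  have hf : PB (fun m : ℕ => NDS_fam k (m + k)) := (NDS_fam_PB k).comp hid
  refine ⟨fun m => ((NDS_fam k (m + k) + NDS_fam k (m + k)) + ((T * (m + k + 1)) * 4 + 1)) +
    (((m + k) * (2 * (m + k) + 1 + 1) + 1) + ((m + k) * (2 * (m + k) + 1 + 1) + 1)) +
    (4 * (m + k) + 2 * P.I + 40), ?_, ?_⟩
  · exact (((hf.add hf).add hb).add (hn.add hn)).add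
      ((((PB.const 4).mul hid).add (PB.const (2 * P.I))).add (PB.const 40))
  · intro m N hN
    rcases hN with ⟨i, O, M, rfl, hi, h⟩ | ⟨i, L, b, rfl, _, hi, h, hb⟩ |
      ⟨i, L, R, G, c, rfl, hi, h, hnd, hX, hc⟩ | rfl
    · obtain ⟨l1, l2⟩ := NDS_linv h.linv
      have e := toF_append O M
      have s1 := E14.sz_fam_le l1 (m := m + k) (k := k)
        (fun C hC => h.inv.ov C (by rw [e]; exact Finset.mem_union_left _ hC))
        (fun C hC => (h.inv.size C (by rw [e]; exact Finset.mem_union_left _ hC)).2)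
      have s2 := E14.sz_fam_le l2 (m := m + k) (k := k)
        (fun C hC => h.inv.ov C (by rw [e]; exact Finset.mem_union_right _ hC))
        (fun C hC => (h.inv.size C (by rw [e]; exact Finset.mem_union_right _ hC)).2)
      simp only [nd0, Poly.sz_pair, Poly.sz_nat, Poly.sz_nil]
      unfold NDS_fam
      omega
    · have s1 := E14.sz_fam_le h.linv h.ov (fun C hC => (h.size C hC).2)
      have hb' : b.length ≤ T * (m + k + 1) := by
        refine hb.trans ?_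
        unfold bits
        have h1 : P.t i ≤ T := Finset.single_le_sum (f := fun j => P.t j)
          (fun _ _ => Nat.zero_le _) (Finset.mem_range.2 (by omega))
        have h2 : Nat.size (m + k) ≤ m + k := Nat.size_le.2 Nat.lt_two_pow_self
        exact Nat.mul_le_mul h1 (by omega)
      have s2 := NDS_sz_bits hb'
      simp only [nd1, Poly.sz_pair, Poly.sz_nat, Poly.sz_nil]
      unfold NDS_fam
      omega
    · have s1 := E14.sz_fam_le h.linv h.ov (fun C hC => (h.size C hC).2)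
      have hR : R.Nodup := (List.nodup_append.1 hnd).1
      have hG : G.Nodup := (List.nodup_append.1 hnd).2.1
      have s2 := NDS_sz_nats hR (fun x hx => (hX x (List.mem_append_left _ hx)).1)
      have s3 := NDS_sz_nats hG (fun x hx => (hX x (List.mem_append_right _ hx)).1)
      simp only [nd2, Poly.sz_pair, Poly.sz_nat, Poly.sz_nil]
      unfold NDS_fam
      omega
    · simp only [ndF, Poly.sz_pair, Poly.sz_nat, Poly.sz_nil]
      omega

end Pars

end Pool.Agent.H46.SK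

end S_NDS
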