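import Pool.Agent.H46.ETH.K2
import Pool.Agent.H14.Solve
import Pool.Agent.H14.PFns
import Pool.Agent.H14.Size
import Pool.Agent.H14.Gap
import Pool.Agent.H14.IpzK

/-! Gap between the exponents of k-SAT and (2k-2)-SAT, part K3: this file joins the modules
TRE PFA PFB PFC of Pool/Agent/H46/SK to save build time. -/

section S_TRE

/-!
# Module TRE: from a branching tree with a potential to an algorithm

Proof: adapt `Pool.Agent.H83.E14.gap_of_par` (file `Pool/Agent/H14/Gap.lean`) or the end of `Pool/Agent/H14/SparseK.lean`.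
Use `solvableIn_of_eval` with `out N = encodeCNF (fml N).1 (fml N).2`, `init w = root (parse w)` (`pParse`,
`parse_encodeCNF`, `pEncodeCNF`), and `eval_of_pot` with `P := P n`, `ans N = decide (Acc isLeaf childA childB sat N)`,
`sat N = Satisfiable (fml N).2` (classical decidability).  At a leaf `Acc N ↔ sat N`, at an inner node
`Acc N ↔ Acc (childA N) ∨ Acc (childB N)` (cases on `Acc`).  The machine for `K`-SAT answers `decide (Satisfiable G)` on
`encodeCNF n' G` within `c 2 ^ (σ n') ≤ C 2 ^ (pot N)`.  Depth bound: `d ≤ pot / η ≤ (c₀ + ρ n) / η ≤ K1 + K2 n`.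
Length of the input: `length_encodeCNF_le`.
-/

set_option autoImplicit false

namespace Pool.Agent.H46.SK

open Finset Pool.Agent.H14.ETH Pool.Agent.H83 Pool.Agent.H14.XCmd

theorem TRE_acc_leaf {Node : Type} {isLeaf : Node → Bool} {childA childB : Node → Node}
    {sat : Node → Prop} {N : Node} (h : isLeaf N = true) :
    Acc isLeaf childA childB sat N ↔ sat N := by
  constructor
  · intro hA
    cases hA with
    | leaf _ h2 => exact h2
    | left h1 _ => rw [h] at h1; exact absurd h1 (by simp)
    | right h1 _ => rw [h] at h1; exact absurd h1 (by simp)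
  · exact fun h2 => Acc.leaf h h2

theorem TRE_acc_node {Node : Type} {isLeaf : Node → Bool} {childA childB : Node → Node}
    {sat : Node → Prop} {N : Node} (h : isLeaf N = false) :
    Acc isLeaf childA childB sat N ↔
      (Acc isLeaf childA childB sat (childA N) ∨ Acc isLeaf childA childB sat (childB N)) := by
  constructor
  · intro hA
    cases hA with
    | leaf h1 _ => rw [h] at h1; exact absurd h1 (by simp)
    | left _ h2 => exact Or.inl h2
    | right _ h2 => exact Or.inr h2
  · rintro (h2 | h2)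
    · exact Acc.left h h2
    · exact Acc.right h h2

theorem solvableIn_of_tree {Node : Type} [Enc Node] {k K : ℕ} {σ ρ ρ' : ℝ}
    (hK : SolvableIn K σ) (hρ0 : 0 ≤ ρ)
    {isLeaf : Node → Bool} {childA childB : Node → Node} {fml : Node → ℕ × LFam}
    {root : ℕ × LFam → Node}
    (pl : Pool.Agent.H83.Poly isLeaf) (pA : Pool.Agent.H83.Poly childA)
    (pB : Pool.Agent.H83.Poly childB) (pf : Pool.Agent.H83.Poly fml)
    (pr : Pool.Agent.H83.Poly root)
    (P : ℕ → Node → Prop) (pot : Node → ℝ) {η c₀ : ℝ} (hη : 0 < η)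
    {S : ℕ → ℕ} (hS : PB S) (hsz : ∀ m N, P m N → sz N ≤ S m)
    (hpos : ∀ m N, P m N → 0 ≤ pot N)
    (hleaf : ∀ m N, P m N → isLeaf N = true →
      IsCNF K (fml N).1 (fml N).2 ∧ σ * (fml N).1 ≤ pot N)
    (hnode : ∀ m N, P m N → isLeaf N = false → P m (childA N) ∧ P m (childB N) ∧
      ∃ x y : ℝ, η ≤ x ∧ η ≤ y ∧ pot (childA N) ≤ pot N - x ∧ pot (childB N) ≤ pot N - y ∧
        (2 : ℝ) ^ (-x) + (2 : ℝ) ^ (-y) ≤ 1)
    (hroot : ∀ (n : ℕ) (F : LFam), IsCNF k n F → P n (root (n, F)) ∧
      pot (root (n, F)) ≤ c₀ + ρ * n ∧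
      (Acc isLeaf childA childB (fun N => Satisfiable (fml N).2) (root (n, F)) ↔ Satisfiable F))
    (hρ : ρ < ρ') : SolvableIn k ρ' := by
  classical
  obtain ⟨M, c, hM⟩ := hK
  set C : ℝ := max c 1 with hC
  have hC1 : 1 ≤ C := le_max_right _ _
  have hcC : c ≤ C := le_max_left _ _
  set K1 : ℕ := ⌈c₀ / η⌉₊ with hK1
  set K2 : ℕ := ⌈ρ / η⌉₊ with hK2
  set D : ℝ := (2 : ℝ) ^ c₀ with hD
  have hD0 : 0 < D := by positivity
  refine solvableIn_of_eval (M := M) (isLeaf := isLeaf) (childA := childA) (childB := childB)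
    (out := fun N => encodeCNF (fml N).1 (fml N).2) (init := fun w => root (parse w))
    pl pA pB (E14.pEncodeCNF (Pool.Agent.H83.Poly.fst' pf) (Pool.Agent.H83.Poly.snd' pf))
    (pr.comp E14.pParse)
    (C := max C 2 * D) (ρ := ρ)
    (q := fun n => (S n + (K1 + K2 * n)) +
      (n + ((k + 1) * (2 * n + 1) ^ k) * (k * n + 1))) ?_ ?_ hρ
  · refine (hS.add ((PB.const K1).add
      ((PB.const K2).mul PB.id))).add (PB.id.add ((PB.const (k + 1)).mul
        ((((PB.const 2).mul PB.id).add (PB.const 1)).pow k) |>.mul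
          (((PB.const k).mul PB.id).add (PB.const 1))))
  · intro n F hF
    have hroot' : root (parse (encodeCNF n F)) = root (n, F) := by
      rw [parse_encodeCNF]
    obtain ⟨hP, hpotr, hacc⟩ := hroot n F hF
    have key := eval_of_pot (M := M) (isLeaf := isLeaf) (childA := childA) (childB := childB)
      (out := fun N => encodeCNF (fml N).1 (fml N).2) (S := S n) (P n) pot
      (fun N => decide (Acc isLeaf childA childB (fun N => Satisfiable (fml N).2) N))
      (η := η) (C := C) hη (fun N hN => hsz n N hN) (fun N hN => hpos n N hN) ?_ ?_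
      (by linarith) _ hP
    · obtain ⟨t, cc, d, he, ht, hcc, hd⟩ := key
      have hans : decide (Acc isLeaf childA childB (fun N => Satisfiable (fml N).2)
          (root (n, F))) = decide (Satisfiable F) := decide_eq_decide.2 hacc
      have h2pot : (2 : ℝ) ^ pot (root (n, F)) ≤ D * (2 : ℝ) ^ (ρ * n) := by
        rw [hD, ← Real.rpow_add (by norm_num)]
        exact Real.rpow_le_rpow_of_exponent_le (by norm_num) hpotr
      have hX : (0 : ℝ) ≤ D * (2 : ℝ) ^ (ρ * n) := by positivity
      have hlen := E14.length_encodeCNF_le hF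
      refine ⟨t, cc, d, S n, ?_, ?_, ?_, ?_, ?_, ?_⟩
      · rw [hroot']
        have e : @decide (Satisfiable F) (Classical.propDecidable _) = decide (Satisfiable F) := by
          congr
        rw [e, ← hans]
        exact he
      · calc (t : ℝ) ≤ C * (2 : ℝ) ^ pot (root (n, F)) := ht
          _ ≤ C * (D * (2 : ℝ) ^ (ρ * n)) :=
            mul_le_mul_of_nonneg_left h2pot (by linarith)
          _ ≤ max C 2 * (D * (2 : ℝ) ^ (ρ * n)) :=
            mul_le_mul_of_nonneg_right (le_max_left _ _) hX
          _ = _ := by ring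
      · calc (cc : ℝ) ≤ 2 * (2 : ℝ) ^ pot (root (n, F)) := by linarith
          _ ≤ 2 * (D * (2 : ℝ) ^ (ρ * n)) :=
            mul_le_mul_of_nonneg_left h2pot (by norm_num)
          _ ≤ max C 2 * (D * (2 : ℝ) ^ (ρ * n)) :=
            mul_le_mul_of_nonneg_right (le_max_right _ _) hX
          _ = _ := by ring
      · have h1 : (d : ℝ) ≤ K1 + K2 * n := by
          have h2 : (d : ℝ) ≤ (c₀ + ρ * n) / η :=
            hd.trans (div_le_div_of_nonneg_right hpotr hη.le)
          have h3 : (c₀ + ρ * n) / η = c₀ / η + ρ / η * n := by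
            field_simp
          have h4 := Nat.le_ceil (c₀ / η)
          have h5 := mul_le_mul_of_nonneg_right (Nat.le_ceil (ρ / η))
            (Nat.cast_nonneg (α := ℝ) n)
          rw [h3] at h2
          linarith
        have h6 : d ≤ K1 + K2 * n := by exact_mod_cast h1
        omega
      · omega
      · omega
    · intro N hN hl
      obtain ⟨h2, h4⟩ := hleaf n N hN hl
      obtain ⟨t, ht, hans⟩ := hM (fml N).1 (fml N).2 h2
      refine ⟨t, ?_, ?_⟩
      · have e : decide (Acc isLeaf childA childB (fun N => Satisfiable (fml N).2) N) =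
            @decide (Satisfiable (fml N).2) (Classical.propDecidable _) := by
          rw [decide_eq_decide]
          exact TRE_acc_leaf hl
        rw [e]
        exact hans
      · refine ht.trans ?_
        have h5 : (2 : ℝ) ^ (σ * (fml N).1) ≤ (2 : ℝ) ^ pot N :=
          Real.rpow_le_rpow_of_exponent_le (by norm_num) h4
        have h6 : (0 : ℝ) ≤ (2 : ℝ) ^ (σ * (fml N).1) := by positivity
        calc c * (2 : ℝ) ^ (σ * (fml N).1) ≤ C * (2 : ℝ) ^ (σ * (fml N).1) :=
              mul_le_mul_of_nonneg_right hcC h6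
          _ ≤ _ := mul_le_mul_of_nonneg_left h5 (by linarith)
    · intro N hN hl
      obtain ⟨h1, h2, x, y, h5⟩ := hnode n N hN hl
      refine ⟨h1, h2, ?_, x, y, h5⟩
      rw [← Bool.decide_or]
      exact decide_eq_decide.2 (TRE_acc_node hl)

end Pool.Agent.H46.SK

end S_TRE

section S_PFA

/-!
# Module PFA: polynomial time computability, basic functions

Style of `Pool/Agent/H14/PFns.lean`.  `x / 2` is the length of `(List.range x).filter (fun y => decide (2 * y + 2 ≤ x))`; `x % 2 = 1` iff
`2 * (x / 2) + 1 = x`.  `chi b x` is computed by a fold over `b` with state `(parity, x)`: `(a, x) ↦ (xor a (c && odd x), x / 2)`.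
`Nat.size x`: fold over `List.range x` with state `(y, r)`: `if y = 0 then (y, r) else (y / 2, r + 1)`.  `x / c` for a constant `c ≥ 1`: the length of
`(List.range x).filter (fun y => decide (c * (y + 1) ≤ x))`.  `List.take m`, `List.drop m` with `m` variable: folds (or iterate `tail` with
`Poly.iterate`-type lemmas; `pTakeConst`, `pDropConst` in `IpzK.lean` are for constants).  `chunkSel m t` for constant `t`: induction on `t`.
-/

set_option autoImplicit false

namespace Pool.Agent.H83.E46

open Pool.Agent.H14.ETH Pool.Agent.H46.SK Pool.Agent.H83.E14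

variable {α : Type} [Enc α]

theorem PFA_filter_lt (m n : ℕ) (h : m ≤ n) :
    ((List.range n).filter (fun y => decide (y < m))).length = m := by
  induction n with
  | zero => have : m = 0 := by omega
            subst this; rfl
  | succ n ih =>
    rw [List.range_succ, List.filter_append]
    by_cases hm : m = n + 1
    · subst hm
      have h1 : ((List.range n).filter (fun y => decide (y < n + 1))) = List.range n := by
        rw [List.filter_eq_self]
        intro a ha
        rw [List.mem_range] at ha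
        simp only [decide_eq_true_eq]; omega
      rw [h1]
      simp
    · have h2 : ¬ n < m := by omega
      rw [List.length_append, ih (by omega)]
      simp [h2]

theorem pDivConst (c : ℕ) {x : α → ℕ} (hx : Poly x) : Poly (fun a => x a / c) := by
  rcases Nat.eq_zero_or_pos c with hc | hc
  · subst hc
    exact (Poly.const 0).congr fun a => (Nat.div_zero _).symm
  · refine (Poly.length (Poly.filter (f := fun (a : α) (y : ℕ) => decide (c * (y + 1) ≤ x a))
      (Poly.range hx) (Poly.natLe (Poly.mul (Poly.const c) (Poly.succ Poly.snd))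
        (hx.comp Poly.fst)))).congr fun a => ?_
    rw [← PFA_filter_lt (x a / c) (x a) (Nat.div_le_self _ _)]
    congr 2
    funext y
    rw [decide_eq_decide, mul_comm, ← Nat.le_div_iff_mul_le hc]
    exact Nat.succ_le_iff

theorem pOdd {x : α → ℕ} (hx : Poly x) : Poly (fun a => decide (x a % 2 = 1)) := by
  refine (Poly.natEq (Poly.succ (Poly.mul (Poly.const 2) (pDivConst 2 hx))) hx).congr fun a => ?_
  rw [decide_eq_decide]
  omega

/-- Step of the computation of the size. -/
def PFA_st (s : ℕ × ℕ) (_ : ℕ) : ℕ × ℕ := bif decide (s.1 = 0) then s else (s.1 / 2, s.2 + 1)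

theorem PFA_size_div (y : ℕ) (hy : y ≠ 0) : Nat.size y = Nat.size (y / 2) + 1 := by
  have h := Nat.bit_bodd_div2 y
  have h1 : Nat.bit (Nat.bodd y) (Nat.div2 y) ≠ 0 := by rw [h]; exact hy
  have h2 := Nat.size_bit h1
  rw [h, Nat.div2_val] at h2
  exact h2

theorem PFA_fold (l : List ℕ) : ∀ (y r : ℕ), Nat.size y ≤ l.length →
    l.foldl PFA_st (y, r) = (0, r + Nat.size y) := by
  induction l with
  | nil =>
    intro y r h
    have h0 : Nat.size y = 0 := by simpa using h
    have : y = 0 := Nat.size_eq_zero.1 h0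
    subst this
    simp
  | cons z l ih =>
    intro y r h
    rw [List.foldl_cons]
    by_cases hy : y = 0
    · subst hy
      have : PFA_st (0, r) z = (0, r) := by simp [PFA_st]
      rw [this, ih 0 r (by simp)]
    · have : PFA_st (y, r) z = (y / 2, r + 1) := by simp [PFA_st, hy]
      have h2 := PFA_size_div y hy
      rw [this, ih (y / 2) (r + 1) (by rw [List.length_cons] at h; omega)]
      rw [h2]
      ext
      · rfl
      · simp only; omega

theorem pSize {x : α → ℕ} (hx : Poly x) : Poly (fun a => Nat.size (x a)) := by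
  have h : Poly (fun a => (List.range (x a)).foldl PFA_st (x a, 0)) := by
    refine Poly.foldl_add (f := fun (_ : α) (s : ℕ × ℕ) (y : ℕ) => PFA_st s y) (Poly.range hx)
      (hx.pair (Poly.const 0)) ?_ (fun _ => 10) (PB.const 10) ?_
    · refine Poly.cond (c := fun p : α × (ℕ × ℕ) × ℕ => decide (p.2.1.1 = 0)) ?_ ?_ ?_
      · exact Poly.natEq (Poly.fst' (Poly.fst' Poly.snd)) (Poly.const 0)
      · exact Poly.fst' Poly.snd
      · exact (pDivConst 2 (Poly.fst' (Poly.fst' Poly.snd))).pair
          (Poly.succ (Poly.snd' (Poly.fst' Poly.snd)))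
    · intro a s y _
      unfold PFA_st
      cases decide (s.1 = 0)
      · simp only [cond_false]
        obtain ⟨s1, s2⟩ := s
        simp only [Poly.sz_pair, Poly.sz_nat]
        have := Nat.div_le_self s1 2
        omega
      · simp only [cond_true]; omega
  refine (Poly.snd' h).congr fun a => ?_
  rw [PFA_fold _ _ _ (by rw [List.length_range]; exact Nat.size_le.2 Nat.lt_two_pow_self)]
  simp

theorem pXor {f g : α → Bool} (hf : Poly f) (hg : Poly g) : Poly (fun a => xor (f a) (g a)) := by
  refine (Poly.cond (c := f) (f := fun a => !(g a)) (g := g) hf (Poly.not hg) hg).congr fun a => ?_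
  cases f a <;> simp

theorem pDrop {β : Type} [Enc β] {m : α → ℕ} {l : α → List β} (hm : Poly m) (hl : Poly l) :
    Poly (fun a => (l a).drop (m a)) := by
  refine (Poly.foldl_add (f := fun (_ : α) (s : List β) (_ : ℕ) => s.tail) (Poly.range hm)
    hl (Poly.tail (Poly.fst' Poly.snd)) (fun _ => 0) (PB.const 0) ?_).congr fun a => ?_
  · intro a s y _
    have := Poly.sz_drop_le s 1
    rw [List.drop_one] at this
    omega
  · have key : ∀ (k : ℕ) (s : List β), (List.range k).foldl (fun (s : List β) (_ : ℕ) => s.tail) s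
        = s.drop k := by
      intro k
      induction k with
      | zero => intro s; rfl
      | succ k ih =>
        intro s
        rw [List.range_succ, List.foldl_append, ih]
        simp
    exact key _ _

theorem pTake {β : Type} [Enc β] {m : α → ℕ} {l : α → List β} (hm : Poly m) (hl : Poly l) :
    Poly (fun a => (l a).take (m a)) := by
  refine (Poly.reverse (pDrop (Poly.sub (Poly.length hl) hm) (Poly.reverse hl))).congr fun a => ?_
  rw [List.drop_reverse, List.reverse_reverse]
  rcases Nat.le_total (m a) (l a).length with h | h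
  · congr 1; omega
  · rw [List.take_of_length_le h, List.take_of_length_le]
    omega

theorem pChi {b : α → List Bool} {x : α → ℕ} (hb : Poly b) (hx : Poly x) :
    Poly (fun a => chi (b a) (x a)) := by
  have h : Poly (fun a => (b a).foldl (fun (s : Bool × ℕ) (c : Bool) =>
      (xor s.1 (c && decide (s.2 % 2 = 1)), s.2 / 2)) (false, x a)) := by
    refine Poly.foldl_add (f := fun (_ : α) (s : Bool × ℕ) (c : Bool) =>
      (xor s.1 (c && decide (s.2 % 2 = 1)), s.2 / 2)) hb ((Poly.const false).pair hx) ?_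
      (fun _ => 10) (PB.const 10) ?_
    · refine Poly.pair (pXor (Poly.fst' (Poly.fst' Poly.snd)) (Poly.and (Poly.snd' Poly.snd)
        (pOdd (Poly.snd' (Poly.fst' Poly.snd))))) (pDivConst 2 (Poly.snd' (Poly.fst' Poly.snd)))
    · intro a s c _
      obtain ⟨s1, s2⟩ := s
      simp only [Poly.sz_pair, Poly.sz_nat]
      have h1 := Nat.div_le_self s2 2
      have h2 : ∀ b : Bool, sz b ≤ 5 := by decide
      have h3 := h2 (xor s1 (c && decide (s2 % 2 = 1)))
      omega
  have key : ∀ (l : List Bool) (s : Bool × ℕ), (l.foldl (fun (s : Bool × ℕ) (c : Bool) =>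
      (xor s.1 (c && decide (s.2 % 2 = 1)), s.2 / 2)) s).1 = xor s.1 (chi l s.2) := by
    intro l
    induction l with
    | nil => intro s; simp [chi]
    | cons c l ih =>
      intro s
      rw [List.foldl_cons, ih]
      simp only [chi, Bool.xor_assoc]
  refine (Poly.fst' h).congr fun a => ?_
  rw [key]
  simp

theorem pPar {b : α → List Bool} {x : α → ℕ} (hb : Poly b) (hx : Poly x) :
    Poly (fun a => par (b a) (x a)) := by
  refine (pXor (Poly.headD false hb) (pChi (Poly.tail hb) hx)).congr fun a => ?_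
  cases b a <;> simp [par, chi]

theorem pChunkSel (t : ℕ) {m : α → ℕ} {b : α → List Bool} {X : α → List ℕ} (hm : Poly m)
    (hb : Poly b) (hX : Poly X) : Poly (fun a => chunkSel (m a) t (b a) (X a)) := by
  induction t generalizing b X with
  | zero => exact hX
  | succ t ih =>
    refine (ih (b := fun a => (b a).drop (m a))
      (X := fun a => (X a).filter (fun x => par ((b a).take (m a)) x)) (pDrop hm hb) ?_)
    exact Poly.filter (f := fun (a : α) (x : ℕ) => par ((b a).take (m a)) x) hX
      (pPar ((pTake hm hb).comp Poly.fst) Poly.snd)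

theorem pItemsL (t : ℕ) {n : α → ℕ} {b : α → List Bool} {L : α → LFam} (hn : Poly n)
    (hb : Poly b) (hL : Poly L) : Poly (fun a => itemsL (n a) t (b a) (L a)) := by
  unfold itemsL
  refine Poly.filter (f := fun (a : α) (x : ℕ) => !(hasVar x (unitsL (L a))))
    (pChunkSel t (Poly.succ (pSize hn)) hb (Poly.range hn)) ?_
  exact Poly.not (pHasVar Poly.snd (pUnitsL (hL.comp Poly.fst)))

end Pool.Agent.H83.E46

end S_PFA

section S_PFB

/-!
# Module PFB: polynomial time computability of the steps and of the reduction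

Style of `Pool/Agent/H14/PFns.lean` (`pStepAL`, `pStepBL`, `pReduceL`).
-/

set_option autoImplicit false

namespace Pool.Agent.H83.E46

open Pool.Agent.H14.ETH Pool.Agent.H46.SK Pool.Agent.H83.E14

variable {α : Type} [Enc α]

theorem pCutL {Q L : α → LFam} (hQ : Poly Q) (hL : Poly L) : Poly (fun a => cutL (Q a) (L a)) :=
  Poly.filter (f := fun a C => !((Q a).any (fun P => subl P C))) hL
    (Poly.not (Poly.any (f := fun (p : α × List Lit) P => subl P p.2) (hQ.comp Poly.fst)
      (pSubl Poly.snd (Poly.snd' Poly.fst))))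

theorem pHitsM (k : ℕ) (th : ℕ → ℕ) {O N : α → LFam} (hO : Poly O) (hN : Poly N) :
    Poly (fun a => hitsM k th (O a) (N a)) :=
  pHitsAll th (rulesList k) (Poly.append hO hN)

theorem pStepMA (k : ℕ) (th : ℕ → ℕ) {O N : α → LFam} (hO : Poly O) (hN : Poly N) :
    Poly (fun a => stepMA k th (O a) (N a)) := by
  refine (Poly.listCases (l := fun a => hitsM k th (O a) (N a)) (f := fun a => (O a, N a))
    (g := fun a x _ => (cutL [x.2] (O a), addL [x.2] (N a))) (pHitsM _ _ hO hN) (hO.pair hN)
    ?_).congr ?_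
  · refine (pCutL (Poly.cons ?_ (Poly.const [])) (hO.comp Poly.fst)).pair
      (pAddL (Poly.cons ?_ (Poly.const [])) (hN.comp Poly.fst))
    · exact Poly.snd' (Poly.fst' Poly.snd)
    · exact Poly.snd' (Poly.fst' Poly.snd)
  · intro a
    unfold stepMA
    cases hitsM k th (O a) (N a) <;> rfl

theorem pStepMB (k : ℕ) (th : ℕ → ℕ) {O N : α → LFam} (hO : Poly O) (hN : Poly N) :
    Poly (fun a => stepMB k th (O a) (N a)) := by
  refine (Poly.listCases (l := fun a => hitsM k th (O a) (N a)) (f := fun a => (O a, N a))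
    (g := fun a x _ => (cutL (petalsL x.1 x.2 (O a ++ N a)) (O a),
      addL (petalsL x.1 x.2 (O a ++ N a)) (N a))) (pHitsM _ _ hO hN) (hO.pair hN) ?_).congr ?_
  · have h1 : Poly (fun p : α × (ℕ × List Lit) × List (ℕ × List Lit) =>
        petalsL p.2.1.1 p.2.1.2 (O p.1 ++ N p.1)) := by
      refine pPetalsL ?_ ?_ (Poly.append (hO.comp Poly.fst) (hN.comp Poly.fst))
      · exact Poly.fst' (Poly.fst' Poly.snd)
      · exact Poly.snd' (Poly.fst' Poly.snd)
    exact (pCutL h1 (hO.comp Poly.fst)).pair (pAddL h1 (hN.comp Poly.fst))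
  · intro a
    unfold stepMB
    cases hitsM k th (O a) (N a) <;> rfl

theorem pNonuL {L : α → LFam} (hL : Poly L) : Poly (fun a => nonuL (L a)) :=
  Poly.filter (f := fun (_ : α) (C : List Lit) => !(decide (C.length = 1))) hL
    (Poly.not (Poly.natEq (Poly.length Poly.snd) (Poly.const 1)))

theorem pUnitL {L : α → LFam} (hL : Poly L) : Poly (fun a => unitL (L a)) :=
  Poly.filter (f := fun (_ : α) (C : List Lit) => decide (C.length = 1)) hL
    (Poly.natEq (Poly.length Poly.snd) (Poly.const 1))

theorem pTrimL {G : α → List ℕ} {K : α → LFam} (hG : Poly G) (hK : Poly K) :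
    Poly (fun a => trimL (G a) (K a)) := by
  unfold trimL
  refine Poly.map (f := fun (a : α) (C : List Lit) =>
    bif decide (2 ≤ (C.filter (fun l => memN l.1 (G a))).length)
    then C.filter (fun l => !(memN l.1 (G a))) else C) hK ?_
  refine Poly.cond (Poly.natLe (Poly.const 2) (Poly.length ?_)) ?_ Poly.snd
  · exact Poly.filter (f := fun (p : α × List Lit) l => memN l.1 (G p.1)) Poly.snd
      (pMemN (Poly.fst' Poly.snd) (hG.comp (Poly.fst' Poly.fst)))
  · exact Poly.filter (f := fun (p : α × List Lit) l => !(memN l.1 (G p.1))) Poly.snd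
      (Poly.not (pMemN (Poly.fst' Poly.snd) (hG.comp (Poly.fst' Poly.fst))))

theorem pfb_goneX {G : α → List ℕ} {L : α → LFam} (hG : Poly G) (hL : Poly L) :
    Poly (fun a => goneX (G a) (L a)) :=
  Poly.append hG (Poly.map (f := fun (_ : α) (l : Lit) => l.1) (pUnitsL hL) (Poly.fst' Poly.snd))

theorem pReduceX {G : α → List ℕ} {n : α → ℕ} {L : α → LFam} (hG : Poly G) (hn : Poly n)
    (hL : Poly L) : Poly (fun a => reduceX (G a) (n a) (L a)) :=
  (pRankL (pfb_goneX hG hL) hn).pair (pRenL (pfb_goneX hG hL) (pDedupF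
    (Poly.map (f := fun (_ : α) C => dedupC C)
      (pElimL hG (pTrimL hG (pCoreL hL))) (pDedupC Poly.snd))))

end Pool.Agent.H83.E46

end S_PFB

section S_PFC

/-!
# Module PFC: polynomial time computability of the functions of the tree

`pSwitch`: by induction on `I`: `min (i a) (I + 1) = if i a ≤ I then min (i a) I else I + 1`.  The functions `chA`, `chB`, `leaf`, `fml`
are cascades of `bif`; the projections `Nd.md`, ... are compositions of `Poly.fst`, `Poly.snd`.  In `chA`, `chB`, `leaf` the stage enters only through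
`ix N = min N.st I`: apply `pSwitch` to `f i N = ...` with `P.ix N` replaced by `i`.
-/

set_option autoImplicit false

namespace Pool.Agent.H83.E46

open Pool.Agent.H14.ETH Pool.Agent.H46.SK Pool.Agent.H83.E14

variable {α β : Type} [Enc α] [Enc β]

theorem pSwitch (I : ℕ) (f : ℕ → α → β) {i : α → ℕ} (hi : Poly i)
    (hf : ∀ j ≤ I, Poly (f j)) : Poly (fun a => f (min (i a) I) a) := by
  induction I with
  | zero => exact (hf 0 le_rfl).congr fun a => by rw [Nat.min_zero]
  | succ I ih =>
    have h1 := ih (fun j hj => hf j (hj.trans (Nat.le_succ I)))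
    refine (Poly.cond (c := fun a => decide (i a ≤ I)) (f := fun a => f (min (i a) I) a)
      (g := fun a => f (I + 1) a) (Poly.natLe hi (Poly.const I)) h1 (hf (I + 1) le_rfl)).congr
      fun a => ?_
    by_cases h : i a ≤ I
    · simp only [h, decide_true, cond_true]
      rw [Nat.min_eq_left h, Nat.min_eq_left (h.trans (Nat.le_succ I))]
    · simp only [h, decide_false, cond_false]
      rw [Nat.min_eq_right (by omega)]

/-! ### Nodes -/

theorem PFC_md {N : α → H46.SK.Nd} (hN : Poly N) : Poly (fun a => (N a).md) := Poly.fst' hN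

theorem PFC_nn {N : α → H46.SK.Nd} (hN : Poly N) : Poly (fun a => (N a).nn) := Poly.fst' (Poly.snd' hN)

theorem PFC_st {N : α → H46.SK.Nd} (hN : Poly N) : Poly (fun a => (N a).st) :=
  Poly.fst' (Poly.snd' (Poly.snd' hN))

theorem PFC_oo {N : α → H46.SK.Nd} (hN : Poly N) : Poly (fun a => (N a).oo) :=
  Poly.fst' (Poly.snd' (Poly.snd' (Poly.snd' hN)))

theorem PFC_ma {N : α → H46.SK.Nd} (hN : Poly N) : Poly (fun a => (N a).ma) :=
  Poly.fst' (Poly.snd' (Poly.snd' (Poly.snd' (Poly.snd' hN))))

theorem PFC_bi {N : α → H46.SK.Nd} (hN : Poly N) : Poly (fun a => (N a).bi) :=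
  Poly.fst' (Poly.snd' (Poly.snd' (Poly.snd' (Poly.snd' (Poly.snd' hN)))))

theorem PFC_rr {N : α → H46.SK.Nd} (hN : Poly N) : Poly (fun a => (N a).rr) :=
  Poly.fst' (Poly.snd' (Poly.snd' (Poly.snd' (Poly.snd' (Poly.snd' (Poly.snd' hN))))))

theorem PFC_gg {N : α → H46.SK.Nd} (hN : Poly N) : Poly (fun a => (N a).gg) :=
  Poly.fst' (Poly.snd' (Poly.snd' (Poly.snd' (Poly.snd' (Poly.snd' (Poly.snd' (Poly.snd' hN)))))))

theorem PFC_bu {N : α → H46.SK.Nd} (hN : Poly N) : Poly (fun a => (N a).bu) :=
  Poly.snd' (Poly.snd' (Poly.snd' (Poly.snd' (Poly.snd' (Poly.snd' (Poly.snd' (Poly.snd' hN)))))))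

theorem PFC_nd0 {n i : α → ℕ} {X : α → LFam × LFam} (hn : Poly n) (hi : Poly i) (hX : Poly X) :
    Poly (fun a => nd0 (n a) (i a) (X a)) :=
  (Poly.const 0).pair (hn.pair (hi.pair ((Poly.fst' hX).pair ((Poly.snd' hX).pair
    ((Poly.const []).pair ((Poly.const []).pair ((Poly.const []).pair (Poly.const 0))))))))

theorem PFC_nd1 {n i : α → ℕ} {L : α → LFam} {b : α → List Bool} (hn : Poly n) (hi : Poly i)
    (hL : Poly L) (hb : Poly b) : Poly (fun a => nd1 (n a) (i a) (L a) (b a)) :=
  (Poly.const 1).pair (hn.pair (hi.pair ((Poly.const []).pair (hL.pair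
    (hb.pair ((Poly.const []).pair ((Poly.const []).pair (Poly.const 0))))))))

theorem PFC_nd2 {n i : α → ℕ} {L : α → LFam} {R G : α → List ℕ} {m : α → ℕ} (hn : Poly n)
    (hi : Poly i) (hL : Poly L) (hR : Poly R) (hG : Poly G) (hm : Poly m) :
    Poly (fun a => nd2 (n a) (i a) (L a) (R a) (G a) (m a)) :=
  (Poly.const 2).pair (hn.pair (hi.pair ((Poly.const []).pair (hL.pair
    ((Poly.const []).pair (hR.pair (hG.pair hm)))))))

variable {k : ℕ} {s : ℝ} (P : Pars k s)

theorem PFC_bits (j : ℕ) {n : α → ℕ} (hn : Poly n) : Poly (fun a => P.bits j (n a)) :=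
  Poly.mul (Poly.const _) (Poly.succ (pSize hn))

theorem PFC_start (j : ℕ) {n : α → ℕ} {L : α → LFam} {b : α → List Bool} (hn : Poly n)
    (hL : Poly L) (hb : Poly b) : Poly (fun a => P.start j (n a) (L a) (b a)) := by
  have h1 := pItemsL (P.t j) hn hb hL
  unfold Pars.start
  refine Poly.cond (Poly.natLe hn (Poly.mul (Poly.const _) (Poly.length h1))) ?_ (Poly.const _)
  exact PFC_nd2 hn (Poly.const j) hL h1 (Poly.const []) (pDivConst _ (Poly.length h1))

/-- `chA` with fixed stage. -/
def PFC_fA (j : ℕ) (N : H46.SK.Nd) : H46.SK.Nd :=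
  bif decide (N.md = 0) then
    bif (hitsM k (P.S j).W.th N.oo N.ma).isEmpty then nd1 N.nn N.st (N.oo ++ N.ma) []
    else nd0 N.nn N.st (stepMA k (P.S j).W.th N.oo N.ma)
  else bif decide (N.md = 1) then
    bif decide (N.bi.length < P.bits j N.nn) then nd1 N.nn N.st N.ma (true :: N.bi)
    else P.start j N.nn N.ma N.bi
  else
    bif decide (N.bu = 0) then ndF else nd2 N.nn N.st N.ma N.rr.tail N.gg (N.bu - 1)

/-- `chB` with fixed stage. -/
def PFC_fB (j : ℕ) (N : H46.SK.Nd) : H46.SK.Nd :=
  bif decide (N.md = 0) then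
    bif (hitsM k (P.S j).W.th N.oo N.ma).isEmpty then
      nd0 N.nn (N.st - 1) (nonuL (N.oo ++ N.ma), unitL (N.oo ++ N.ma))
    else nd0 N.nn N.st (stepMB k (P.S j).W.th N.oo N.ma)
  else bif decide (N.md = 1) then
    bif decide (N.bi.length < P.bits j N.nn) then nd1 N.nn N.st N.ma (false :: N.bi)
    else ndF
  else nd2 N.nn N.st N.ma N.rr.tail (N.rr.headD 0 :: N.gg) N.bu

/-- `leaf` with fixed stage. -/
def PFC_fL (j : ℕ) (N : H46.SK.Nd) : Bool :=
  bif decide (N.md = 0) then
    deadL (N.oo ++ N.ma) || ((hitsM k (P.S j).W.th N.oo N.ma).isEmpty && decide (N.st = 0))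
  else bif decide (N.md = 1) then false
  else bif decide (N.md = 2) then N.rr.isEmpty
  else true

theorem pChA' : Poly P.chA := by
  have hmd : Poly (fun N : H46.SK.Nd => N.md) := PFC_md Poly.id
  have hnn : Poly (fun N : H46.SK.Nd => N.nn) := PFC_nn Poly.id
  have hst : Poly (fun N : H46.SK.Nd => N.st) := PFC_st Poly.id
  have hoo : Poly (fun N : H46.SK.Nd => N.oo) := PFC_oo Poly.id
  have hma : Poly (fun N : H46.SK.Nd => N.ma) := PFC_ma Poly.id
  have hbi : Poly (fun N : H46.SK.Nd => N.bi) := PFC_bi Poly.id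
  have hrr : Poly (fun N : H46.SK.Nd => N.rr) := PFC_rr Poly.id
  have hgg : Poly (fun N : H46.SK.Nd => N.gg) := PFC_gg Poly.id
  have hbu : Poly (fun N : H46.SK.Nd => N.bu) := PFC_bu Poly.id
  refine (pSwitch P.I (PFC_fA P) hst (fun j _ => ?_)).congr fun N => rfl
  unfold PFC_fA
  refine Poly.cond (Poly.natEq hmd (Poly.const 0)) ?_ (Poly.cond (Poly.natEq hmd (Poly.const 1))
    ?_ ?_)
  · refine Poly.cond (Poly.isEmpty (pHitsM k _ hoo hma)) ?_ ?_
    · exact PFC_nd1 hnn hst (Poly.append hoo hma) (Poly.const [])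
    · exact PFC_nd0 hnn hst (pStepMA k _ hoo hma)
  · refine Poly.cond (Poly.natLt (Poly.length hbi) (PFC_bits P j hnn)) ?_ ?_
    · exact PFC_nd1 hnn hst hma (Poly.cons (Poly.const true) hbi)
    · exact PFC_start P j hnn hma hbi
  · refine Poly.cond (Poly.natEq hbu (Poly.const 0)) (Poly.const _) ?_
    exact PFC_nd2 hnn hst hma (Poly.tail hrr) hgg (Poly.pred hbu)

theorem pChB' : Poly P.chB := by
  have hmd : Poly (fun N : H46.SK.Nd => N.md) := PFC_md Poly.id
  have hnn : Poly (fun N : H46.SK.Nd => N.nn) := PFC_nn Poly.id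
  have hst : Poly (fun N : H46.SK.Nd => N.st) := PFC_st Poly.id
  have hoo : Poly (fun N : H46.SK.Nd => N.oo) := PFC_oo Poly.id
  have hma : Poly (fun N : H46.SK.Nd => N.ma) := PFC_ma Poly.id
  have hbi : Poly (fun N : H46.SK.Nd => N.bi) := PFC_bi Poly.id
  have hrr : Poly (fun N : H46.SK.Nd => N.rr) := PFC_rr Poly.id
  have hgg : Poly (fun N : H46.SK.Nd => N.gg) := PFC_gg Poly.id
  have hbu : Poly (fun N : H46.SK.Nd => N.bu) := PFC_bu Poly.id
  refine (pSwitch P.I (PFC_fB P) hst (fun j _ => ?_)).congr fun N => rfl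
  unfold PFC_fB
  refine Poly.cond (Poly.natEq hmd (Poly.const 0)) ?_ (Poly.cond (Poly.natEq hmd (Poly.const 1))
    ?_ ?_)
  · refine Poly.cond (Poly.isEmpty (pHitsM k _ hoo hma)) ?_ ?_
    · exact PFC_nd0 hnn (Poly.pred hst) ((pNonuL (Poly.append hoo hma)).pair
        (pUnitL (Poly.append hoo hma)))
    · exact PFC_nd0 hnn hst (pStepMB k _ hoo hma)
  · refine Poly.cond (Poly.natLt (Poly.length hbi) (PFC_bits P j hnn)) ?_ (Poly.const _)
    exact PFC_nd1 hnn hst hma (Poly.cons (Poly.const false) hbi)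
  · exact PFC_nd2 hnn hst hma (Poly.tail hrr) (Poly.cons (Poly.headD 0 hrr) hgg) hbu

theorem pLeaf' : Poly P.leaf := by
  have hmd : Poly (fun N : H46.SK.Nd => N.md) := PFC_md Poly.id
  have hst : Poly (fun N : H46.SK.Nd => N.st) := PFC_st Poly.id
  have hoo : Poly (fun N : H46.SK.Nd => N.oo) := PFC_oo Poly.id
  have hma : Poly (fun N : H46.SK.Nd => N.ma) := PFC_ma Poly.id
  have hrr : Poly (fun N : H46.SK.Nd => N.rr) := PFC_rr Poly.id
  refine (pSwitch P.I (PFC_fL P) hst (fun j _ => ?_)).congr fun N => rfl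
  unfold PFC_fL
  refine Poly.cond (Poly.natEq hmd (Poly.const 0)) ?_ (Poly.cond (Poly.natEq hmd (Poly.const 1))
    (Poly.const _) (Poly.cond (Poly.natEq hmd (Poly.const 2)) (Poly.isEmpty hrr) (Poly.const _)))
  exact Poly.or (pDeadL (Poly.append hoo hma)) (Poly.and (Poly.isEmpty (pHitsM k _ hoo hma))
    (Poly.natEq hst (Poly.const 0)))

theorem pFml' : Poly P.fml := by
  have hmd : Poly (fun N : H46.SK.Nd => N.md) := PFC_md Poly.id
  have hnn : Poly (fun N : H46.SK.Nd => N.nn) := PFC_nn Poly.id
  have hoo : Poly (fun N : H46.SK.Nd => N.oo) := PFC_oo Poly.id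
  have hma : Poly (fun N : H46.SK.Nd => N.ma) := PFC_ma Poly.id
  have hgg : Poly (fun N : H46.SK.Nd => N.gg) := PFC_gg Poly.id
  unfold Pars.fml
  refine Poly.cond (Poly.natEq hmd (Poly.const 0)) (Poly.cond ?_ ?_ (Poly.const _))
    (Poly.cond (Poly.natEq hmd (Poly.const 2)) (pReduceX hgg hnn hma) (Poly.const _))
  · exact Poly.and (Poly.not (pDeadL (Poly.append hoo hma))) (Poly.natLe hnn (Poly.mul
      (Poly.const _) (Poly.length (pUnitL (Poly.append hoo hma)))))
  · exact pReduceX (Poly.const []) hnn (Poly.append hoo hma)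

theorem pRoot' : Poly P.root := by
  unfold Pars.root
  exact PFC_nd0 (Poly.add Poly.fst (Poly.const k)) (Poly.const _)
    ((pInitF k Poly.fst Poly.snd).pair (Poly.const []))

end Pool.Agent.H83.E46

end S_PFC
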