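import Pool.Agent.H46.ETH.K3
import Pool.Agent.H14.EquivK

/-! Gap between the exponents of k-SAT and (2k-2)-SAT, part K4: this file joins the modules
SND CPA CPB CPC FIN of Pool/Agent/H46/SK to save build time. -/

section S_SND

/-!
# Module SND: soundness; acceptance of special nodes

`sound`: induction on `Acc`, with `Pre` for the children from `node_spec` (take `σ = s`).  Leaf, mode 0: if `deadL` or too few units the formula is
`(0, [[]])`, not satisfiable; else `reduceX_sound`.  Leaf, mode 2: `reduceX_sound`.  `ndF`: not accepted.  Inner nodes: mode 0 with hits: `GoodM.step`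
(the equivalence) and `satisfiable_iff`; mode 0 without hits: the families of the children have the same `toF` (`GoodM.restart`); modes 1 and 2: the family does
not change (`start` is `ndF` or a node of mode 2 with the same family).
-/

set_option autoImplicit false

namespace Pool.Agent.H46.SK.Pars

open Finset Pool.Agent.H14.ETH

variable {k : ℕ} {s : ℝ} (P : Pars k s)

/-- Acceptance. -/
abbrev Ac (N : Nd) : Prop := Acc P.leaf P.chA P.chB (fun N => Satisfiable (P.fml N).2) N

theorem snd_not_sat_nil : ¬ Satisfiable [[]] := by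
  rintro ⟨a, ha⟩
  obtain ⟨l, hl, _⟩ := ha [] (by simp)
  simp at hl

theorem not_Ac_ndF : ¬ P.Ac ndF := by
  intro h
  have hl : P.leaf ndF = true := by
    simp [leaf, ndF, Nd.md]
  have hf : P.fml ndF = (0, [[]]) := by
    simp [fml, ndF, Nd.md]
  cases h with
  | leaf _ h2 =>
    simp only [hf] at h2
    exact snd_not_sat_nil h2
  | left h1 _ => rw [hl] at h1; simp at h1
  | right h1 _ => rw [hl] at h1; simp at h1

/-- Leaves. -/
theorem snd_leaf {m : ℕ} {N : Nd} (h : P.Pre m N) (hl : P.leaf N = true)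
    (hsat : Satisfiable (P.fml N).2) : Satisfiable (N.oo ++ N.ma) := by
  rcases h with ⟨i, O, M, rfl, _, hg⟩ | ⟨i, L, b, rfl, _, _, _, _⟩ |
    ⟨i, L, R, G, c, rfl, _, hL, _, _, _⟩ | rfl
  · have e : (nd0 (m + k) i (O, M)).oo ++ (nd0 (m + k) i (O, M)).ma = O ++ M := rfl
    rw [e]
    by_cases hc : (!(deadL (O ++ M)) && decide (m + k ≤ P.uq * (unitL (O ++ M)).length)) = true
    · have hf : P.fml (nd0 (m + k) i (O, M)) = reduceX [] (m + k) (O ++ M) := by
        have h0 : P.fml (nd0 (m + k) i (O, M)) =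
            bif !(deadL (O ++ M)) && decide (m + k ≤ P.uq * (unitL (O ++ M)).length) then
              reduceX [] (m + k) (O ++ M) else (0, [[]]) := rfl
        rw [h0, hc]; rfl
      rw [hf] at hsat
      rw [Bool.and_eq_true] at hc
      refine reduceX_sound hg.linv hg.inv.ov hg.inv.anti ?_ hsat
      intro hd
      rw [← deadL_iff hg.linv] at hd
      rw [hd] at hc
      simp at hc
    · have hf : P.fml (nd0 (m + k) i (O, M)) = (0, [[]]) := by
        have h0 : P.fml (nd0 (m + k) i (O, M)) =
            bif !(deadL (O ++ M)) && decide (m + k ≤ P.uq * (unitL (O ++ M)).length) then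
              reduceX [] (m + k) (O ++ M) else (0, [[]]) := rfl
        rw [Bool.not_eq_true] at hc
        rw [h0, hc]; rfl
      rw [hf] at hsat
      exact absurd hsat snd_not_sat_nil
  · have h0 : P.leaf (nd1 (m + k) i L b) = false := rfl
    rw [h0] at hl
    simp at hl
  · have e : (nd2 (m + k) i L R G c).oo ++ (nd2 (m + k) i L R G c).ma = L := rfl
    have hf : P.fml (nd2 (m + k) i L R G c) = reduceX G (m + k) L := rfl
    rw [e]
    rw [hf] at hsat
    exact reduceX_sound hL.linv hL.ov hL.anti hL.live hsat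
  · have hf : P.fml ndF = (0, [[]]) := rfl
    rw [hf] at hsat
    exact absurd hsat snd_not_sat_nil

/-- First children. -/
theorem snd_left {m : ℕ} {N : Nd} (h : P.Pre m N) (hl : P.leaf N = false)
    (ha : P.Ac (P.chA N)) (hsat : Satisfiable ((P.chA N).oo ++ (P.chA N).ma)) :
    Satisfiable (N.oo ++ N.ma) := by
  rcases h with ⟨i, O, M, rfl, hi, hg⟩ | ⟨i, L, b, rfl, _, _, _, _⟩ |
    ⟨i, L, R, G, c, rfl, _, hL, _, _, _⟩ | rfl
  · have e : (nd0 (m + k) i (O, M)).oo ++ (nd0 (m + k) i (O, M)).ma = O ++ M := rfl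
    rw [e]
    have hix : P.ix (nd0 (m + k) i (O, M)) = i := min_eq_left hi
    have hh : P.hits (nd0 (m + k) i (O, M)) = hitsM k (P.S i).W.th O M := by
      have h0 : P.hits (nd0 (m + k) i (O, M)) =
        hitsM k (P.S (P.ix (nd0 (m + k) i (O, M)))).W.th O M := rfl
      rw [h0, hix]
    have hch : P.chA (nd0 (m + k) i (O, M)) =
        bif (hitsM k (P.S i).W.th O M).isEmpty then nd1 (m + k) i (O ++ M) []
        else nd0 (m + k) i (stepMA k (P.S i).W.th O M) := by
      have h0 : P.chA (nd0 (m + k) i (O, M)) =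
          bif (P.hits (nd0 (m + k) i (O, M))).isEmpty then nd1 (m + k) i (O ++ M) []
          else nd0 (m + k) i (stepMA k (P.S (P.ix (nd0 (m + k) i (O, M)))).W.th O M) := rfl
      rw [h0, hix, hh]
    by_cases hem : hitsM k (P.S i).W.th O M = []
    · rw [hch, hem] at hsat
      exact hsat
    · have hem' : (hitsM k (P.S i).W.th O M).isEmpty = false := by
        rw [List.isEmpty_eq_false_iff]; exact hem
      rw [hch, hem'] at hsat
      have hsat' : Satisfiable ((stepMA k (P.S i).W.th O M).1 ++ (stepMA k (P.S i).W.th O M).2) :=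
        hsat
      rw [satisfiable_iff] at hsat' ⊢
      obtain ⟨v, hv⟩ := hsat'
      exact ⟨v, ((hg.step (P.S i) hem).2.2.2.2.1 v).2 (Or.inl hv)⟩
  · have e : (nd1 (m + k) i L b).oo ++ (nd1 (m + k) i L b).ma = L := rfl
    rw [e]
    have h0 : P.chA (nd1 (m + k) i L b) =
        bif decide (b.length < P.bits (P.ix (nd1 (m + k) i L b)) (m + k)) then
          nd1 (m + k) i L (true :: b)
        else P.start (P.ix (nd1 (m + k) i L b)) (m + k) L b := rfl
    by_cases hb : b.length < P.bits (P.ix (nd1 (m + k) i L b)) (m + k)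
    · rw [decide_eq_true hb] at h0
      rw [h0] at hsat
      exact hsat
    · rw [decide_eq_false hb] at h0
      have h1 : P.chA (nd1 (m + k) i L b) = P.start (P.ix (nd1 (m + k) i L b)) (m + k) L b := h0
      generalize P.ix (nd1 (m + k) i L b) = j at h1
      rw [h1] at hsat ha
      unfold start at hsat ha
      by_cases hc : m + k ≤ 4 * 2 ^ P.t j * (itemsL (m + k) (P.t j) b L).length
      · rw [decide_eq_true hc] at hsat
        exact hsat
      · rw [decide_eq_false hc] at ha
        exact absurd ha P.not_Ac_ndF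
  · have e : (nd2 (m + k) i L R G c).oo ++ (nd2 (m + k) i L R G c).ma = L := rfl
    rw [e]
    have h0 : P.chA (nd2 (m + k) i L R G c) =
        bif decide (c = 0) then ndF else nd2 (m + k) i L R.tail G (c - 1) := rfl
    by_cases hc : c = 0
    · rw [decide_eq_true hc] at h0
      rw [h0] at ha
      exact absurd ha P.not_Ac_ndF
    · rw [decide_eq_false hc] at h0
      rw [h0] at hsat
      exact hsat
  · have h0 : P.leaf ndF = true := rfl
    rw [h0] at hl
    simp at hl

/-- Second children. -/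
theorem snd_right {m : ℕ} {N : Nd} (h : P.Pre m N) (hl : P.leaf N = false)
    (ha : P.Ac (P.chB N)) (hsat : Satisfiable ((P.chB N).oo ++ (P.chB N).ma)) :
    Satisfiable (N.oo ++ N.ma) := by
  rcases h with ⟨i, O, M, rfl, hi, hg⟩ | ⟨i, L, b, rfl, _, _, _, _⟩ |
    ⟨i, L, R, G, c, rfl, _, hL, _, _, _⟩ | rfl
  · have e : (nd0 (m + k) i (O, M)).oo ++ (nd0 (m + k) i (O, M)).ma = O ++ M := rfl
    rw [e]
    have hix : P.ix (nd0 (m + k) i (O, M)) = i := min_eq_left hi
    have hh : P.hits (nd0 (m + k) i (O, M)) = hitsM k (P.S i).W.th O M := by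
      have h0 : P.hits (nd0 (m + k) i (O, M)) =
        hitsM k (P.S (P.ix (nd0 (m + k) i (O, M)))).W.th O M := rfl
      rw [h0, hix]
    have hch : P.chB (nd0 (m + k) i (O, M)) =
        bif (hitsM k (P.S i).W.th O M).isEmpty then
          nd0 (m + k) (i - 1) (nonuL (O ++ M), unitL (O ++ M))
        else nd0 (m + k) i (stepMB k (P.S i).W.th O M) := by
      have h0 : P.chB (nd0 (m + k) i (O, M)) =
          bif (P.hits (nd0 (m + k) i (O, M))).isEmpty then
            nd0 (m + k) (i - 1) (nonuL (O ++ M), unitL (O ++ M))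
          else nd0 (m + k) i (stepMB k (P.S (P.ix (nd0 (m + k) i (O, M)))).W.th O M) := rfl
      rw [h0, hix, hh]
    by_cases hem : hitsM k (P.S i).W.th O M = []
    · rw [hch, hem] at hsat
      have hsat' : Satisfiable (nonuL (O ++ M) ++ unitL (O ++ M)) := hsat
      rw [satisfiable_iff, mrl_toF_perm (mrl_split _)] at hsat'
      rw [satisfiable_iff]
      exact hsat'
    · have hem' : (hitsM k (P.S i).W.th O M).isEmpty = false := by
        rw [List.isEmpty_eq_false_iff]; exact hem
      rw [hch, hem'] at hsat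
      have hsat' : Satisfiable ((stepMB k (P.S i).W.th O M).1 ++ (stepMB k (P.S i).W.th O M).2) :=
        hsat
      rw [satisfiable_iff] at hsat' ⊢
      obtain ⟨v, hv⟩ := hsat'
      exact ⟨v, ((hg.step (P.S i) hem).2.2.2.2.1 v).2 (Or.inr hv)⟩
  · have e : (nd1 (m + k) i L b).oo ++ (nd1 (m + k) i L b).ma = L := rfl
    rw [e]
    have h0 : P.chB (nd1 (m + k) i L b) =
        bif decide (b.length < P.bits (P.ix (nd1 (m + k) i L b)) (m + k)) then
          nd1 (m + k) i L (false :: b)
        else ndF := rfl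
    by_cases hb : b.length < P.bits (P.ix (nd1 (m + k) i L b)) (m + k)
    · rw [decide_eq_true hb] at h0
      rw [h0] at hsat
      exact hsat
    · rw [decide_eq_false hb] at h0
      rw [h0] at ha
      exact absurd ha P.not_Ac_ndF
  · have e : (nd2 (m + k) i L R G c).oo ++ (nd2 (m + k) i L R G c).ma = L := rfl
    rw [e]
    exact hsat
  · have h0 : P.leaf ndF = true := rfl
    rw [h0] at hl
    simp at hl

theorem sound (hk : 3 ≤ k) (hs : 0 < s) {m : ℕ} {N : Nd} (h : P.Pre m N) (ha : P.Ac N) :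
    Satisfiable (N.oo ++ N.ma) := by
  induction ha with
  | leaf hl hsat => exact P.snd_leaf h hl hsat
  | left hl hac ih =>
    exact P.snd_left h hl hac (ih (P.node_spec hk hs le_rfl h hl).1)
  | right hl hac ih =>
    exact P.snd_right h hl hac (ih (P.node_spec hk hs le_rfl h hl).2.1)

end Pool.Agent.H46.SK.Pars

end S_SND

section S_CPA

/-!
# Module CPA: following a satisfying assignment through a stage

`exists_end`: induction on a natural number `j ≥ (bound - wgt (toF M)) / η` where `η = (S i).η > 0`: by `MInv.wgt_le` and `num_one_le` (the family is live as `v`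
satisfies it, `not_satisfiable_of_dead`) `wgt (S i).W.a (toF M) ≤ 3 s / 4 * n + γ i * n` for all live families of the stage.  If `hitsM = []` take the node itself.  Otherwise
`v` satisfies one of the two children (`GoodM.step`), whose weight is larger by at least `η`; `P.leaf (nd0 n i (O, M)) = false` (not dead, `hits ≠ []`), so acceptance of
the child implies acceptance of the node (`Acc.left`, `Acc.right`, `chA`, `chB` computed with `ix = min i I = i`).  `Ref.trans`.
`acc_end_left`, `acc_end_right`: at the end of a stage `i ≥ 1`.  `acc_zero`: at the end of stage `0`, a leaf with formula `reduceX [] n (O ++ M)` which is satisfiable by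
`reduceX_complete` with `G = []` (the hypothesis `hG` is void).
-/

set_option autoImplicit false

namespace Pool.Agent.H46.SK.Pars

open Finset Pool.Agent.H14.ETH

variable {k : ℕ} {s : ℝ} (P : Pars k s)

theorem cpa_ndead {v : ℕ → Bool} {L : LFam} (hv : satBy v (toF L)) : ¬ Dead (toF L) :=
  fun hd => not_satisfiable_of_dead hd ((satisfiable_iff L).2 ⟨v, hv⟩)

theorem cpa_live {v : ℕ → Bool} {L : LFam} (hL : LInv L) (hv : satBy v (toF L)) :
    deadL L = false := by
  by_contra hc
  have : deadL L = true := by simpa using hc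
  exact cpa_ndead hv ((deadL_iff hL).1 this)

theorem cpa_ix {i n : ℕ} (hi : i ≤ P.I) (X : LFam × LFam) : P.ix (nd0 n i X) = i :=
  min_eq_left hi

theorem cpa_hits {i n : ℕ} (hi : i ≤ P.I) (O M : LFam) :
    P.hits (nd0 n i (O, M)) = hitsM k (P.S i).W.th O M := by
  unfold hits
  rw [cpa_ix P hi]
  rfl

theorem cpa_isEmpty {i n : ℕ} (hi : i ≤ P.I) {O M : LFam}
    (he : hitsM k (P.S i).W.th O M ≠ []) : (P.hits (nd0 n i (O, M))).isEmpty = false := by
  rw [cpa_hits P hi]
  cases h : hitsM k (P.S i).W.th O M with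
  | nil => exact absurd h he
  | cons a l => rfl

theorem cpa_leaf_step {i n : ℕ} (hi : i ≤ P.I) {v : ℕ → Bool} {O M : LFam}
    (h : GoodM (P.S i).W n O M) (hv : satBy v (toF (O ++ M)))
    (he : hitsM k (P.S i).W.th O M ≠ []) : P.leaf (nd0 n i (O, M)) = false := by
  have h1 := cpa_isEmpty P (n := n) hi he
  have h2 := cpa_live h.linv hv
  unfold leaf
  rw [h1]
  show (bif decide (0 = 0) then deadL (O ++ M) || (false && decide (i = 0)) else _) = false
  rw [h2]
  simp

theorem cpa_chA {i n : ℕ} (hi : i ≤ P.I) {O M : LFam}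
    (he : hitsM k (P.S i).W.th O M ≠ []) :
    P.chA (nd0 n i (O, M)) = nd0 n i (stepMA k (P.S i).W.th O M) := by
  have h1 := cpa_isEmpty P (n := n) hi he
  unfold chA
  rw [h1, cpa_ix P hi]
  rfl

theorem cpa_chB {i n : ℕ} (hi : i ≤ P.I) {O M : LFam}
    (he : hitsM k (P.S i).W.th O M ≠ []) :
    P.chB (nd0 n i (O, M)) = nd0 n i (stepMB k (P.S i).W.th O M) := by
  have h1 := cpa_isEmpty P (n := n) hi he
  unfold chB
  rw [h1, cpa_ix P hi]
  rfl

theorem cpa_aux (hs : 0 < s) {i n : ℕ} (hi : i ≤ P.I) {v : ℕ → Bool} : ∀ (j : ℕ) (O M : LFam),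
    GoodM (P.S i).W n O M → satBy v (toF (O ++ M)) →
    3 * s / 4 * n + P.γ i * n - wgt (P.S i).W.a (toF M) ≤ j * (P.S i).η →
    ∃ O' M' : LFam, GoodM (P.S i).W n O' M' ∧ hitsM k (P.S i).W.th O' M' = [] ∧
      satBy v (toF (O' ++ M')) ∧ Ref k (toF (O ++ M)) (toF (O' ++ M')) ∧
      (P.Ac (nd0 n i (O', M')) → P.Ac (nd0 n i (O, M))) := by
  intro j
  induction j with
  | zero =>
    intro O M h hv hj
    by_cases he : hitsM k (P.S i).W.th O M = []
    · exact ⟨O, M, h, he, hv, Ref.refl _ _, id⟩
    · exfalso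
      obtain ⟨hA, hB, _, _, hiff, x, y, hx, _, hy, _, _, hwA, hwB⟩ := h.step (P.S i) he
      have hη := (P.S i).η_pos
      have key : ∀ O' M' : LFam, GoodM (P.S i).W n O' M' → satBy v (toF (O' ++ M')) →
          wgt (P.S i).W.a (toF M') ≤ 3 * s / 4 * n + P.γ i * n := by
        intro O' M' h' hv'
        have h1 := MInv.wgt_le (P.S i) h'.inv
        have h2 : (num (toF (O' ++ M')) 1 : ℝ) ≤ n := by
          exact_mod_cast num_one_le h'.inv.ov (cpa_ndead hv')
        have h3 : 3 * s / 4 * num (toF (O' ++ M')) 1 ≤ 3 * s / 4 * n :=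
          mul_le_mul_of_nonneg_left h2 (by positivity)
        linarith
      rw [Nat.cast_zero, zero_mul] at hj
      rcases (hiff v).1 hv with hv' | hv'
      · have := key _ _ hA hv'
        linarith
      · have := key _ _ hB hv'
        linarith
  | succ j ih =>
    intro O M h hv hj
    by_cases he : hitsM k (P.S i).W.th O M = []
    · exact ⟨O, M, h, he, hv, Ref.refl _ _, id⟩
    · obtain ⟨hA, hB, hRA, hRB, hiff, x, y, hx, _, hy, _, _, hwA, hwB⟩ := h.step (P.S i) he
      have hl := cpa_leaf_step P (n := n) hi h hv he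
      push_cast at hj
      rcases (hiff v).1 hv with hv' | hv'
      · obtain ⟨O', M', h1, h2, h3, h4, h5⟩ := ih _ _ hA hv' (by linarith)
        refine ⟨O', M', h1, h2, h3, hRA.trans h4, fun ha => ?_⟩
        refine Acc.left hl ?_
        rw [cpa_chA P hi he]
        exact h5 ha
      · obtain ⟨O', M', h1, h2, h3, h4, h5⟩ := ih _ _ hB hv' (by linarith)
        refine ⟨O', M', h1, h2, h3, hRB.trans h4, fun ha => ?_⟩
        refine Acc.right hl ?_
        rw [cpa_chB P hi he]
        exact h5 ha

theorem exists_end (hs : 0 < s) {i n : ℕ} (hi : i ≤ P.I) {v : ℕ → Bool} {O M : LFam}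
    (h : GoodM (P.S i).W n O M) (hv : satBy v (toF (O ++ M))) :
    ∃ O' M' : LFam, GoodM (P.S i).W n O' M' ∧ hitsM k (P.S i).W.th O' M' = [] ∧
      satBy v (toF (O' ++ M')) ∧ Ref k (toF (O ++ M)) (toF (O' ++ M')) ∧
      (P.Ac (nd0 n i (O', M')) → P.Ac (nd0 n i (O, M))) := by
  obtain ⟨j, hj⟩ := Archimedean.arch
    (3 * s / 4 * n + P.γ i * n - wgt (P.S i).W.a (toF M)) (P.S i).η_pos
  rw [nsmul_eq_mul] at hj
  exact cpa_aux P hs hi j O M h hv hj

theorem acc_end_left {i n : ℕ} (h1 : 1 ≤ i) (hi : i ≤ P.I) {v : ℕ → Bool} {O M : LFam}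
    (h : GoodM (P.S i).W n O M) (hv : satBy v (toF (O ++ M)))
    (he : hitsM k (P.S i).W.th O M = []) (ha : P.Ac (nd1 n i (O ++ M) [])) :
    P.Ac (nd0 n i (O, M)) := by
  have h2 : P.hits (nd0 n i (O, M)) = [] := by rw [cpa_hits P hi, he]
  have h3 := cpa_live h.linv hv
  have h4 : decide (i = 0) = false := by simpa using (by omega : i ≠ 0)
  refine Acc.left ?_ ?_
  · unfold leaf
    rw [h2]
    show (bif decide (0 = 0) then deadL (O ++ M) || (true && decide (i = 0)) else _) = false
    rw [h3, h4]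
    simp
  · have : P.chA (nd0 n i (O, M)) = nd1 n i (O ++ M) [] := by
      unfold chA
      rw [h2]
      rfl
    rw [this]
    exact ha

theorem acc_end_right {i n : ℕ} (hi : i + 1 ≤ P.I) {v : ℕ → Bool} {O M : LFam}
    (h : GoodM (P.S (i + 1)).W n O M) (hv : satBy v (toF (O ++ M)))
    (he : hitsM k (P.S (i + 1)).W.th O M = [])
    (ha : P.Ac (nd0 n i (nonuL (O ++ M), unitL (O ++ M)))) : P.Ac (nd0 n (i + 1) (O, M)) := by
  have h2 : P.hits (nd0 n (i + 1) (O, M)) = [] := by rw [cpa_hits P hi, he]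
  have h3 := cpa_live h.linv hv
  refine Acc.right ?_ ?_
  · unfold leaf
    rw [h2]
    show (bif decide (0 = 0) then deadL (O ++ M) || (true && decide (i + 1 = 0)) else _) = false
    rw [h3]
    simp
  · have : P.chB (nd0 n (i + 1) (O, M)) = nd0 n i (nonuL (O ++ M), unitL (O ++ M)) := by
      unfold chB
      rw [h2]
      rfl
    rw [this]
    exact ha

theorem acc_zero {n : ℕ} {v : ℕ → Bool} {O M : LFam}
    (h : GoodM (P.S 0).W n O M) (hv : satBy v (toF (O ++ M)))
    (he : hitsM k (P.S 0).W.th O M = []) (hU : n ≤ P.uq * num (toF (O ++ M)) 1) :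
    P.Ac (nd0 n 0 (O, M)) := by
  have h2 : P.hits (nd0 n 0 (O, M)) = [] := by rw [cpa_hits P (Nat.zero_le _), he]
  have h3 := cpa_live h.linv hv
  refine Acc.leaf ?_ ?_
  · unfold leaf
    rw [h2]
    show (bif decide (0 = 0) then deadL (O ++ M) || (true && decide (0 = 0)) else _) = true
    simp
  · have h4 : decide (n ≤ P.uq * (unitL (O ++ M)).length) = true := by
      rw [length_unitL h.linv]
      exact decide_eq_true hU
    have : P.fml (nd0 n 0 (O, M)) = reduceX [] n (O ++ M) := by
      unfold fml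
      show (bif decide (0 = 0) then
        (bif !(deadL (O ++ M)) && decide (n ≤ P.uq * (unitL (O ++ M)).length) then
          reduceX [] n (O ++ M) else (0, [[]])) else _) = _
      rw [h3, h4]
      simp
    rw [this]
    refine reduceX_complete h.linv h.inv.ov h.inv.anti (cpa_ndead hv) hv ?_
    rintro D _ ⟨l, _, m, _, _, hl, _⟩
    exact absurd hl List.not_mem_nil

end Pool.Agent.H46.SK.Pars

end S_CPA

section S_CPB

/-!
# Module CPB: acceptance of the nodes of modes 1 and 2

* `acc_bits`: `nd1 n i L (c :: b)` is a child of `nd1 n i L b` if `b.length < bits i n` (`ix = min i I = i`; mode 1 is never a leaf); induction on `b`.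
* `acc_sel`: induction on `R` (for all `G`, `c`): if `R = x :: R'`: `x ∈ bad`: then `c ≥ 1` and the first child is `nd2 n i L R' G (c - 1)`; `x ∉ bad`: the second child
  `nd2 n i L R' (x :: G) c`.  `R = []`: a leaf with formula `reduceX G n L`.
* `acc_items`: combine: `acc_bits` for the full list `b`, then `chA (nd1 n i L b) = start i n L b = nd2 n i L X [] (X.length / 2 ^ w)` as the test is
  passed, then `acc_sel` with `c = X.length / 2 ^ w ≥ bad.card` (`Nat.le_div_iff_mul_le`); the final list `G'` of good items has the elements of `X \ bad`;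
  `reduceX_complete`.
-/

set_option autoImplicit false

namespace Pool.Agent.H46.SK.Pars

open Finset Pool.Agent.H14.ETH

variable {k : ℕ} {s : ℝ} (P : Pars k s)

theorem CPB_leaf1 (n i : ℕ) (L : LFam) (b : List Bool) : P.leaf (nd1 n i L b) = false := rfl

theorem CPB_chA1 {n i : ℕ} (hi : i ≤ P.I) {L : LFam} {b : List Bool}
    (hb : b.length < P.bits i n) : P.chA (nd1 n i L b) = nd1 n i L (true :: b) := by
  have h1 : P.ix (nd1 n i L b) = i := min_eq_left hi
  have h2 : (b.length < P.bits (P.ix (nd1 n i L b)) n) := by rw [h1]; exact hb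
  have : P.chA (nd1 n i L b) = bif decide (b.length < P.bits (P.ix (nd1 n i L b)) n) then
      nd1 n i L (true :: b) else P.start (P.ix (nd1 n i L b)) n L b := rfl
  rw [this, decide_eq_true h2]
  rfl

theorem CPB_chB1 {n i : ℕ} (hi : i ≤ P.I) {L : LFam} {b : List Bool}
    (hb : b.length < P.bits i n) : P.chB (nd1 n i L b) = nd1 n i L (false :: b) := by
  have h1 : P.ix (nd1 n i L b) = i := min_eq_left hi
  have h2 : (b.length < P.bits (P.ix (nd1 n i L b)) n) := by rw [h1]; exact hb
  have : P.chB (nd1 n i L b) = bif decide (b.length < P.bits (P.ix (nd1 n i L b)) n) then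
      nd1 n i L (false :: b) else ndF := rfl
  rw [this, decide_eq_true h2]
  rfl

theorem CPB_chA1' {n i : ℕ} (hi : i ≤ P.I) {L : LFam} {b : List Bool}
    (hb : ¬ b.length < P.bits i n) : P.chA (nd1 n i L b) = P.start i n L b := by
  have h1 : P.ix (nd1 n i L b) = i := min_eq_left hi
  have h2 : ¬ (b.length < P.bits (P.ix (nd1 n i L b)) n) := by rw [h1]; exact hb
  have : P.chA (nd1 n i L b) = bif decide (b.length < P.bits (P.ix (nd1 n i L b)) n) then
      nd1 n i L (true :: b) else P.start (P.ix (nd1 n i L b)) n L b := rfl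
  rw [this, decide_eq_false h2, h1]
  rfl

theorem acc_bits {i n : ℕ} (hi : i ≤ P.I) {L : LFam} {b : List Bool}
    (hb : b.length ≤ P.bits i n) (ha : P.Ac (nd1 n i L b)) : P.Ac (nd1 n i L []) := by
  induction b with
  | nil => exact ha
  | cons c b ih =>
    have hb' : b.length < P.bits i n := by
      simpa [Nat.succ_le_iff] using hb
    refine ih hb'.le ?_
    cases c with
    | true => exact Acc.left (P.CPB_leaf1 n i L b) (by rw [P.CPB_chA1 hi hb']; exact ha)
    | false => exact Acc.right (P.CPB_leaf1 n i L b) (by rw [P.CPB_chB1 hi hb']; exact ha)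

theorem acc_sel {i n : ℕ} {L : LFam} (bad : Finset ℕ) :
    ∀ (R G : List ℕ) (c : ℕ), R.Nodup → (bad ∩ R.toFinset).card ≤ c →
      (∀ G' : List ℕ, (∀ x, x ∈ G' ↔ (x ∈ G ∨ (x ∈ R ∧ x ∉ bad))) →
        Satisfiable (reduceX G' n L).2) → P.Ac (nd2 n i L R G c) := by
  intro R
  induction R with
  | nil =>
    intro G c _ _ h
    exact Acc.leaf rfl (h G (by simp))
  | cons x R ih =>
    intro G c hnd hc h
    rw [List.nodup_cons] at hnd
    obtain ⟨hx, hnd⟩ := hnd
    by_cases hb : x ∈ bad
    · have hcard : (bad ∩ (x :: R).toFinset).card = (bad ∩ R.toFinset).card + 1 := by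
        rw [List.toFinset_cons, Finset.inter_insert_of_mem hb, Finset.card_insert_of_notMem]
        simp [hx]
      have hc1 : (bad ∩ R.toFinset).card ≤ c - 1 := by omega
      have hc0 : c ≠ 0 := by omega
      refine Acc.left rfl ?_
      have e : P.chA (nd2 n i L (x :: R) G c) = nd2 n i L R G (c - 1) := by
        have : P.chA (nd2 n i L (x :: R) G c) = bif decide (c = 0) then ndF else
          nd2 n i L R G (c - 1) := rfl
        rw [this, decide_eq_false hc0]
        rfl
      rw [e]
      refine ih G (c - 1) hnd hc1 (fun G' hG' => h G' (fun z => ?_))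
      rw [hG' z, List.mem_cons]
      constructor
      · rintro (h1 | ⟨h1, h2⟩)
        · exact Or.inl h1
        · exact Or.inr ⟨Or.inr h1, h2⟩
      · rintro (h1 | ⟨h1 | h1, h2⟩)
        · exact Or.inl h1
        · exact absurd hb (h1 ▸ h2)
        · exact Or.inr ⟨h1, h2⟩
    · have hcard : (bad ∩ R.toFinset).card ≤ c := by
        refine le_trans (Finset.card_le_card ?_) hc
        rw [List.toFinset_cons]
        exact Finset.inter_subset_inter_left (Finset.subset_insert _ _)
      refine Acc.right rfl ?_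
      have e : P.chB (nd2 n i L (x :: R) G c) = nd2 n i L R (x :: G) c := rfl
      rw [e]
      refine ih (x :: G) c hnd hcard (fun G' hG' => h G' (fun z => ?_))
      rw [hG' z, List.mem_cons, List.mem_cons]
      constructor
      · rintro ((h1 | h1) | ⟨h1, h2⟩)
        · exact Or.inr ⟨Or.inl h1, by rw [h1]; exact hb⟩
        · exact Or.inl h1
        · exact Or.inr ⟨Or.inr h1, h2⟩
      · rintro (h1 | ⟨h1 | h1, h2⟩)
        · exact Or.inl (Or.inr h1)
        · exact Or.inl (Or.inl h1)
        · exact Or.inr ⟨h1, h2⟩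

theorem CPB_nodup_items (n t : ℕ) (b : List Bool) (L : LFam) : (itemsL n t b L).Nodup := by
  unfold itemsL
  exact ((List.nodup_range (n := n)).sublist (chunkSel_sublist _ _ _ _)).filter _

theorem acc_items {i n : ℕ} (hi : i ≤ P.I) {L : LFam} (hL : Fine k n L) {v : ℕ → Bool}
    (hv : satBy v (toF L)) {b : List Bool} (hb : b.length = P.t i * (Nat.size n + 1))
    (hn : n ≤ 4 * 2 ^ P.t i * (itemsL n (P.t i) b L).length)
    {bad : Finset ℕ} (hbad : bad ⊆ (itemsL n (P.t i) b L).toFinset)
    (hbc : 2 ^ P.w * bad.card ≤ (itemsL n (P.t i) b L).length)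
    (hG : ∀ D ∈ toF L, (∃ l ∈ D, ∃ m ∈ D, l ≠ m ∧
        l.1 ∈ (itemsL n (P.t i) b L).toFinset \ bad ∧
        m.1 ∈ (itemsL n (P.t i) b L).toFinset \ bad) →
      ∃ l ∈ D, v l.1 = l.2 ∧ l.1 ∉ (itemsL n (P.t i) b L).toFinset \ bad) :
    P.Ac (nd1 n i L []) := by
  have hbits : b.length = P.bits i n := hb
  refine P.acc_bits hi hbits.le ?_
  refine Acc.left (P.CPB_leaf1 n i L b) ?_
  rw [P.CPB_chA1' hi (by omega)]
  have e : P.start i n L b = nd2 n i L (itemsL n (P.t i) b L) []
      ((itemsL n (P.t i) b L).length / 2 ^ P.w) := by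
    unfold start
    rw [decide_eq_true hn]
    rfl
  rw [e]
  refine P.acc_sel bad _ _ _ (CPB_nodup_items _ _ _ _) ?_ ?_
  · refine le_trans (Finset.card_le_card Finset.inter_subset_left) ?_
    rw [Nat.le_div_iff_mul_le (pow_pos (by norm_num) _), mul_comm]
    exact hbc
  · intro G' hG'
    have hmem : ∀ x, x ∈ G' ↔ x ∈ (itemsL n (P.t i) b L).toFinset \ bad := by
      intro x
      rw [hG' x]
      simp
    refine reduceX_complete hL.linv hL.ov hL.anti hL.live hv ?_
    rintro D hD ⟨l, hl, m, hm, hne, h1, h2⟩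
    obtain ⟨l', hl', h3, h4⟩ := hG D hD ⟨l, hl, m, hm, hne, (hmem _).1 h1, (hmem _).1 h2⟩
    exact ⟨l', hl', h3, fun h => h4 ((hmem _).1 h)⟩

end Pool.Agent.H46.SK.Pars

end S_CPB

section S_CPC

/-!
# Module CPC: completeness

`descend`: induction on `i`.  Start at stage `i` with `(O, M)`; `exists_end` gives `(O', M')`; put `F i = toF (O' ++ M')`.  If the node is not accepted, then the end node is not accepted.
For `i = 0`: `F j = toF (O' ++ M')` for all `j`; `acc_zero` gives `uq * U < n`.  For `i + 1`: `acc_end_left`: `nd1 n (i+1) (O' ++ M') []` is not accepted; `acc_end_right`: the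
start of stage `i` with `(nonuL .., unitL ..)` (`GoodM.restart`, same `toF`) is not accepted, induction hypothesis, and redefine `F (i + 1)`.
`complete`: suppose the start of stage `I` is not accepted; take `F` from `descend`.  It is a `Chain`, and the degree bounds hold by `GoodM.noHit` with `(c, p) = (q + 1, q)`, so
`P.pig` applies.  (a) `ε / 2 ^ (k-2) * n ≤ #unitT v n (F 0) ≤ num (F 0) 1 < n / uq`, contradicting `hu` (`n > 0`).  (b) `#critNew v n (F (i+1)) (F i) < ε n` for
some `i < I`: `unitT v n (F i) ⊆ unitT v n (F 0)` (`Chain.crit_down` for the clause `{(x, v x)}`, the clause found is nonempty), so `#unitT v n (F i) ≤ n / uq`; `exists_items`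
with `L = O' ++ M'` of stage `i + 1`, `𝒟 = F i`, `Λ = Lam (S i).W`, `u = 1 / uq` (`hεu`, `ht`), then `acc_items`: `nd1 n (i+1) L []` is accepted, a contradiction.
-/

set_option autoImplicit false

namespace Pool.Agent.H46.SK.Pars

open Finset Pool.Agent.H14.ETH

variable {k : ℕ} {s : ℝ} (P : Pars k s)

/-- The result of following `v` from stage `i` on, without acceptance. -/
structure Run (n : ℕ) (v : ℕ → Bool) (i : ℕ) (F : ℕ → Fam) : Prop where
  chain : Chain k n v i F
  fine : ∀ j ≤ i, ∀ D ∈ F j, 1 ≤ D.card ∧ D.card ≤ k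
  deg : ∀ j ≤ i, ∀ q, 1 ≤ q → q < k → ∀ l : Lit, dg (F j) (q + 1) {l} < (P.S j).W.th q
  card : ∀ j ≤ i, (F j).card ≤ Lam (P.S j).W * n
  rej : ∀ j < i, ∃ L : LFam, Fine k n L ∧ toF L = F (j + 1) ∧ ¬ P.Ac (nd1 n (j + 1) L [])
  units : P.uq * num (F 0) 1 < n

theorem CPC_live {v : ℕ → Bool} {𝒞 : Fam} (h : satBy v 𝒞) : ¬ Dead 𝒞 := by
  rintro ⟨x, b, h1, h2⟩
  obtain ⟨l, hl, hl'⟩ := h _ h1
  obtain ⟨m, hm, hm'⟩ := h _ h2
  rw [mem_singleton] at hl hm
  subst hl hm
  simp only at hl' hm'
  rw [hl'] at hm'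
  cases b <;> simp at hm'

theorem CPC_deg {n i : ℕ} {O M : LFam} (h : GoodM (P.S i).W n O M)
    (he : hitsM k (P.S i).W.th O M = []) :
    ∀ q, 1 ≤ q → q < k → ∀ l : Lit, dg (toF (O ++ M)) (q + 1) {l} < (P.S i).W.th q := by
  intro q h1 h2 l
  exact h.noHit he (q + 1) q h1 (by omega) (by omega) {l} (by simp)

theorem CPC_fine {n i : ℕ} {v : ℕ → Bool} {O M : LFam} (h : GoodM (P.S i).W n O M)
    (hv : satBy v (toF (O ++ M))) : Fine k n (O ++ M) where
  linv := h.linv
  ov := h.inv.ov
  anti := h.inv.anti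
  size := h.inv.size
  nt := h.nt
  live := CPC_live hv

theorem descend (hk : 3 ≤ k) (hs : 0 < s) {n : ℕ} {v : ℕ → Bool} : ∀ (i : ℕ), i ≤ P.I →
    ∀ O M : LFam, GoodM (P.S i).W n O M → satBy v (toF (O ++ M)) → ¬ P.Ac (nd0 n i (O, M)) →
    ∃ F : ℕ → Fam, P.Run n v i F ∧ Ref k (toF (O ++ M)) (F i) := by
  intro i
  induction i with
  | zero =>
    intro hi O M h hv hna
    obtain ⟨O', M', hG, he, hv', href, hacc⟩ := P.exists_end hs hi h hv
    refine ⟨fun _ => toF (O' ++ M'), ?_, href⟩
    refine ⟨⟨?_, ?_, ?_, ?_⟩, ?_, ?_, ?_, ?_, ?_⟩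
    · intro j _; exact hG.inv.ov
    · intro j _; exact hG.inv.anti
    · intro j _; exact hv'
    · intro j hj; omega
    · intro j _; exact hG.inv.size
    · intro j hj
      obtain rfl : j = 0 := by omega
      exact P.CPC_deg hG he
    · intro j hj
      obtain rfl : j = 0 := by omega
      exact hG.inv.card_le (CPC_live hv') (hG.noHit he)
    · intro j hj; omega
    · by_contra hc
      exact hna (hacc (P.acc_zero hG hv' he (not_lt.1 hc)))
  | succ i ih =>
    intro hi O M h hv hna
    obtain ⟨O', M', hG, he, hv', href, hacc⟩ := P.exists_end hs hi h hv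
    have h1 : ¬ P.Ac (nd1 n (i + 1) (O' ++ M') []) := fun ha =>
      hna (hacc (P.acc_end_left (by omega) hi hG hv' he ha))
    have h2 : ¬ P.Ac (nd0 n i (nonuL (O' ++ M'), unitL (O' ++ M'))) := fun ha =>
      hna (hacc (P.acc_end_right hi hG hv' he ha))
    obtain ⟨r1, r2, -⟩ := hG.restart (by omega : 2 ≤ k) (P.S i).top
    obtain ⟨F0, hR, hRef⟩ := ih (by omega) _ _ r1 (by rw [r2]; exact hv') h2
    have f1 : ∀ j, j ≤ i → Function.update F0 (i + 1) (toF (O' ++ M')) j = F0 j := by
      intro j hj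
      exact Function.update_of_ne (by omega) _ _
    have f2 : Function.update F0 (i + 1) (toF (O' ++ M')) (i + 1) = toF (O' ++ M') :=
      Function.update_self _ _ _
    have cs : ∀ {p : ℕ → Fam → Prop}, (∀ j ≤ i, p j (F0 j)) → p (i + 1) (toF (O' ++ M')) →
        ∀ j ≤ i + 1, p j (Function.update F0 (i + 1) (toF (O' ++ M')) j) := by
      intro p ha hb j hj
      rcases Nat.lt_or_ge i j with hij | hij
      · obtain rfl : j = i + 1 := by omega
        rw [f2]; exact hb
      · rw [f1 j hij]; exact ha j hij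
    refine ⟨Function.update F0 (i + 1) (toF (O' ++ M')), ?_, by rw [f2]; exact href⟩
    refine ⟨⟨?_, ?_, ?_, ?_⟩, ?_, ?_, ?_, ?_, ?_⟩
    · exact cs (p := fun _ G => Over n G) hR.chain.ov hG.inv.ov
    · exact cs (p := fun _ G => Anti G) hR.chain.anti hG.inv.anti
    · exact cs (p := fun _ G => satBy v G) hR.chain.sat hv'
    · intro j hj
      rcases Nat.lt_or_ge j i with hij | hij
      · rw [f1 j (by omega), f1 (j + 1) (by omega)]
        exact hR.chain.ref j hij
      · obtain rfl : j = i := by omega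
        rw [f1 j le_rfl, f2, ← r2]
        exact hRef
    · exact cs (p := fun _ G => ∀ D ∈ G, 1 ≤ D.card ∧ D.card ≤ k) hR.fine hG.inv.size
    · exact cs (p := fun j G => ∀ q, 1 ≤ q → q < k → ∀ l : Lit,
        dg G (q + 1) {l} < (P.S j).W.th q) hR.deg (P.CPC_deg hG he)
    · exact cs (p := fun j G => G.card ≤ Lam (P.S j).W * n) hR.card
        (hG.inv.card_le (CPC_live hv') (hG.noHit he))
    · intro j hj
      rcases Nat.lt_or_ge j i with hij | hij
      · rw [f1 (j + 1) (by omega)]
        exact hR.rej j hij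
      · obtain rfl : j = i := by omega
        exact ⟨O' ++ M', P.CPC_fine hG hv', f2.symm, h1⟩
    · rw [f1 0 (by omega)]
      exact hR.units

theorem CPC_unit_le {n : ℕ} {v : ℕ → Bool} {𝒟 : Fam} : (unitT v n 𝒟).card ≤ num 𝒟 1 := by
  unfold unitT num
  apply Finset.card_le_card_of_injOn (fun x => ({(x, v x)} : Finset Lit))
  · intro x hx
    simp only [coe_filter, Set.mem_ofPred_eq, mem_range] at hx ⊢
    exact ⟨hx.2, card_singleton _⟩
  · intro x _ y _ hxy
    simp only [singleton_inj, Prod.mk.injEq] at hxy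
    exact hxy.1

theorem complete (hk : 3 ≤ k) (hs : 0 < s) {n : ℕ} (hn : 0 < n) {v : ℕ → Bool} {O M : LFam}
    (h : GoodM (P.S P.I).W n O M) (hv : satBy v (toF (O ++ M))) :
    P.Ac (nd0 n P.I (O, M)) := by
  by_contra hna
  obtain ⟨F, hR, -⟩ := P.descend hk hs P.I le_rfl O M h hv hna
  have hn' : (0 : ℝ) < n := by exact_mod_cast hn
  have huq : (0 : ℝ) < P.uq := by
    have := P.huq
    exact_mod_cast this
  have hun : ((num (F 0) 1 : ℕ) : ℝ) ≤ 1 / P.uq * n := by
    have h1 : ((P.uq * num (F 0) 1 : ℕ) : ℝ) ≤ (n : ℕ) := by exact_mod_cast hR.units.le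
    push_cast at h1
    rw [div_mul_eq_mul_div, one_mul, le_div_iff₀ huq]
    linarith
  rcases P.pig n v F hR.chain hR.deg with ha | ⟨i, hi, hb⟩
  · have h1 : ((unitT v n (F 0)).card : ℝ) ≤ num (F 0) 1 := by
      exact_mod_cast CPC_unit_le
    have h2 := mul_lt_mul_of_pos_right P.hu hn'
    linarith
  · obtain ⟨L, hL, hLF, hrej⟩ := hR.rej i hi
    have hsat : satBy v (toF L) := by rw [hLF]; exact hR.chain.sat _ (by omega)
    have hsub : unitT v n (F i) ⊆ unitT v n (F 0) := by
      intro x hx
      unfold unitT at hx ⊢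
      rw [mem_filter] at hx ⊢
      refine ⟨hx.1, ?_⟩
      have hcr : Crit v x {(x, v x)} := by
        unfold Crit
        ext l
        simp only [mem_filter, mem_singleton]
        constructor
        · exact fun h => h.1
        · rintro rfl; exact ⟨rfl, rfl⟩
      obtain ⟨D, hD, hDs, hDc⟩ := hR.chain.crit_down (Nat.zero_le i) (by omega) hx.2 hcr
      have hmem : (x, v x) ∈ D := by
        have : (x, v x) ∈ D.filter (fun l => v l.1 = l.2) := by
          rw [hDc]; exact mem_singleton_self _
        exact (mem_filter.1 this).1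
      have : D = {(x, v x)} := Finset.Subset.antisymm hDs (singleton_subset_iff.2 hmem)
      rwa [this] at hD
    have hu : ((unitT v n (F i)).card : ℝ) ≤ 1 / P.uq * n := by
      have h1 : ((unitT v n (F i)).card : ℝ) ≤ num (F 0) 1 := by
        exact_mod_cast (card_le_card hsub).trans CPC_unit_le
      linarith
    obtain ⟨b, hb1, hb2, bad, hbad, hbc, hG⟩ := exists_items (k := k) (n := n) (by omega)
      (v := v) (L := L) hL.linv hL.ov hL.anti hL.nt hsat (hR.chain.ov i (by omega))
      (hR.chain.sat i (by omega)) (fun D hD => (hR.fine i (by omega) D hD).2)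
      (by rw [hLF]; exact hR.chain.ref i hi) (Λ := Lam (P.S i).W) (w := P.w) (t := P.t (i + 1))
      (by unfold Lam; omega) (hR.card i (by omega)) (ε := P.ε) (u := 1 / P.uq) hu
      (by rw [hLF]; exact hb.le) P.hεu (P.ht i hi)
    exact hrej (P.acc_items (by omega) hL hsat hb1 hb2 hbad hbc hG)

end Pool.Agent.H46.SK.Pars

end S_CPC

section S_FIN

/-!
# Module FIN: the gap
-/

set_option autoImplicit false

namespace Pool.Agent.H46.SK

open Finset Pool.Agent.H14.ETH Pool.Agent.H83

namespace Pars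

variable {k : ℕ} {s : ℝ} (P : Pars k s)

theorem root_good (hk : 3 ≤ k) {n : ℕ} {F : LFam} (hF : IsCNF k n F) :
    GoodM (P.S P.I).W (n + k) (initF k n F) [] where
  linv := by
    rw [List.append_nil]
    exact initF_linv hF
  inv := by
    rw [List.append_nil]
    have hsz : ∀ C ∈ toF (initF k n F), C.card = k := initF_size hF
    have he : toF ([] : LFam) = ∅ := rfl
    refine ⟨initF_over hF, anti_of_card hsz, fun C hC => by rw [hsz C hC]; omega, ?_, ?_, ?_⟩
    · rw [he]; exact Finset.empty_subset _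
    · intro C hC h1
      rw [hsz C hC] at h1
      omega
    · rw [he]
      refine ⟨by intro C hC; simp at hC, by intro C hC; simp at hC, by intro C hC; simp at hC, ?_,
        Or.inl (P.S P.I).top⟩
      intro i _ G _ _
      have : dg (∅ : Fam) i G = 0 := by simp [dg, sups]
      omega
  nt := by
    rw [List.append_nil]
    exact initF_nt hF

theorem gap (hk : 3 ≤ k) (hs : 0 < s) {σ : ℝ} (hσ : s ≤ σ) (h : SolvableIn (2 * k - 2) σ)
    {ρ' : ℝ} (hρ : σ - P.δ < ρ') : SolvableIn k ρ' := by
  obtain ⟨S, hS, hsz⟩ := P.exists_size_bound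
  have hd : P.δ ≤ s / 4 := by
    have h1 := P.aux_d hs le_rfl
    have h2 := P.hγ P.I le_rfl
    unfold δ
    linarith
  refine solvableIn_of_tree h (ρ := σ - P.δ) (by linarith) (E46.pLeaf' P) (E46.pChA' P)
    (E46.pChB' P) (E46.pFml' P) (E46.pRoot' P) P.Pre (P.pot σ) (η := P.η)
    (c₀ := P.κ + P.I + (σ - P.δ) * k) P.hη hS hsz
    (fun m N hN => P.pot_nonneg hs hσ hN) (fun m N hN hl => P.leaf_spec hk hs hσ hN hl)
    (fun m N hN hl => P.node_spec hk hs hσ hN hl) ?_ hρ
  intro n F hF
  have hg := P.root_good hk hF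
  have hpre : P.Pre n (P.root (n, F)) := Or.inl ⟨P.I, initF k n F, [], rfl, le_rfl, hg⟩
  refine ⟨hpre, ?_, ?_⟩
  · have hκ : 0 ≤ P.κ := by
      have h1 := P.hκS 0 (Nat.zero_le _)
      have h2 := (P.S 0).η_pos
      have h3 := (P.S 0).η_le_κ
      linarith
    have hI : (0 : ℝ) ≤ P.I := Nat.cast_nonneg _
    have hn : (0 : ℝ) ≤ n := Nat.cast_nonneg _
    have hk0 : (0 : ℝ) ≤ k := Nat.cast_nonneg _
    have h1 : 0 ≤ (σ - P.δ) * k := mul_nonneg (by linarith) hk0
    have h2 : 0 ≤ (σ - P.δ) * n := mul_nonneg (by linarith) hn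
    unfold pot
    rw [if_pos (show (P.root (n, F)).md = 0 from rfl)]
    split_ifs with hdead
    · linarith
    · have e1 : (P.root (n, F)).st = P.I := rfl
      have e2 : (P.root (n, F)).nn = n + k := rfl
      have e3 : (P.root (n, F)).ma = [] := rfl
      have e4 : wgt (P.S P.I).W.a (toF ([] : LFam)) = 0 := by
        simp [wgt, toF]
      rw [e1, e2, e3, e4]
      push_cast
      unfold δ
      linarith
  · constructor
    · intro ha
      have h1 := P.sound hk hs hpre ha
      have e : (P.root (n, F)).oo ++ (P.root (n, F)).ma = initF k n F := by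
        show initF k n F ++ [] = _
        rw [List.append_nil]
      rw [e] at h1
      exact (satisfiable_initF hF).1 h1
    · intro hsat
      have h1 := (satisfiable_initF hF).2 hsat
      obtain ⟨v, hv⟩ := (satisfiable_iff _).1 h1
      refine P.complete hk hs (by omega) hg (v := v) ?_
      rw [List.append_nil]
      exact hv

end Pars

/-- The gap between the exponents of `k`-SAT and `(2k-2)`-SAT. -/
theorem satExp_lt {k : ℕ} (hk : 3 ≤ k) (h : 0 < satExp (2 * k - 2)) :
    satExp k < satExp (2 * k - 2) := by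
  have hs : 0 < min (satExp (2 * k - 2)) 1 := lt_min h one_pos
  obtain ⟨P⟩ := exists_pars hk hs (min_le_right _ _)
  have hδ : 0 < P.δ := P.hd P.I le_rfl
  have hδs : P.δ ≤ min (satExp (2 * k - 2)) 1 / 4 := by
    have h1 := P.aux_d hs le_rfl
    have h2 := P.hγ P.I le_rfl
    unfold Pars.δ
    linarith
  have h2 : satExp k + P.δ ≤ satExp (2 * k - 2) := by
    refine le_csInf (expSet_nonempty_of_pos h) ?_
    rintro σ ⟨hσ0, hσ⟩
    have h1 : min (satExp (2 * k - 2)) 1 ≤ σ := (min_le_left _ _).trans (satExp_le hσ0 hσ)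
    have h2 : satExp k ≤ σ - P.δ := by
      refine le_of_forall_gt_imp_ge_of_dense fun ρ hρ => ?_
      exact satExp_le (by linarith) (P.gap hk hs h1 hσ hρ)
    linarith
  linarith

/-- For every `k ≥ 3` the exponential time hypothesis is equivalent to `s_k < s_(2k-2)`. -/
theorem eth_iff_lt {k : ℕ} (hk : 3 ≤ k) :
    (∀ j : ℕ, 3 ≤ j → 0 < satExp j) ↔ satExp k < satExp (2 * k - 2) :=
  ⟨fun h => satExp_lt hk (h _ (by omega)), fun h => eth_of_lt hk h⟩

end Pool.Agent.H46.SK

end S_FIN
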